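import Pool.Agent.R283.QS.Stm

/-!
# AMP: existence of `T ↦ T ⊗ 1` (helper327)
-/

set_option autoImplicit false

open scoped InnerProductSpace TensorProduct
open Set Filter Topology

namespace Pool.Agent.R283.QS

namespace AmpP

section
variable {H L K' : Type}
  [NormedAddCommGroup H] [InnerProductSpace ℂ H] [CompleteSpace H]
  [NormedAddCommGroup L] [InnerProductSpace ℂ L] [CompleteSpace L]
  [NormedAddCommGroup K'] [InnerProductSpace ℂ K'] [CompleteSpace K']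

/-- the linear map from the algebraic tensor product -/
noncomputable def ee (r : H →ₗ[ℂ] L →ₗ[ℂ] K') : H ⊗[ℂ] L →ₗ[ℂ] K' := TensorProduct.lift r

/-- `T ⊗ 1` on the algebraic tensor product -/
noncomputable def mm (L : Type) [NormedAddCommGroup L] [InnerProductSpace ℂ L]
    (T : H →L[ℂ] H) : H ⊗[ℂ] L →ₗ[ℂ] H ⊗[ℂ] L :=
  TensorProduct.map (T : H →ₗ[ℂ] H) LinearMap.id

theorem ee_tmul (r : H →ₗ[ℂ] L →ₗ[ℂ] K') (x : H) (y : L) : ee r (x ⊗ₜ[ℂ] y) = r x y := by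
  unfold ee
  exact TensorProduct.lift.tmul x y

theorem mm_tmul (T : H →L[ℂ] H) (x : H) (y : L) :
    mm L T (x ⊗ₜ[ℂ] y) = (T x) ⊗ₜ[ℂ] y := by
  unfold mm
  exact TensorProduct.map_tmul _ _ x y

theorem dense_ee {r : H →ₗ[ℂ] L →ₗ[ℂ] K'} (hr : IsHT r) : DenseRange (ee r) := by
  have h1 : (Submodule.span ℂ {z | ∃ x y, z = r x y}) ≤ LinearMap.range (ee r) := by
    rw [Submodule.span_le]
    rintro _ ⟨x, y, rfl⟩
    exact ⟨x ⊗ₜ y, ee_tmul r x y⟩
  have h2 : (LinearMap.range (ee r)).topologicalClosure = ⊤ := by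
    apply top_unique
    rw [← hr.total]
    exact Submodule.topologicalClosure_mono h1
  have h3 := Submodule.dense_iff_topologicalClosure_eq_top.2 h2
  exact h3

theorem pol {r : H →ₗ[ℂ] L →ₗ[ℂ] K'} (hr : IsHT r) (T S : H →L[ℂ] H) (c : ℂ)
    (h : star T * T + star S * S = c • (1 : H →L[ℂ] H)) (z w : H ⊗[ℂ] L) :
    ⟪ee r (mm L T z), ee r (mm L T w)⟫_ℂ + ⟪ee r (mm L S z), ee r (mm L S w)⟫_ℂ =
      c * ⟪ee r z, ee r w⟫_ℂ := by
  induction z using TensorProduct.induction_on with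
  | zero => simp
  | tmul x y =>
    induction w using TensorProduct.induction_on with
    | zero => simp
    | tmul x' y' =>
      rw [mm_tmul, mm_tmul, mm_tmul, mm_tmul, ee_tmul, ee_tmul, ee_tmul, ee_tmul, ee_tmul,
        ee_tmul, hr.inner, hr.inner, hr.inner]
      have h1 : ⟪T x, T x'⟫_ℂ + ⟪S x, S x'⟫_ℂ = c * ⟪x, x'⟫_ℂ := by
        have h2 := congrArg (fun A : H →L[ℂ] H => ⟪x, A x'⟫_ℂ) h
        simp only [add_apply, smul_apply, ContinuousLinearMap.add_apply,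
          ContinuousLinearMap.smul_apply, inner_add_right, inner_smul_right] at h2
        have h3 : ∀ A : H →L[ℂ] H, ⟪x, (star A * A) x'⟫_ℂ = ⟪A x, A x'⟫_ℂ := by
          intro A
          show ⟪x, (ContinuousLinearMap.adjoint A) (A x')⟫_ℂ = _
          rw [ContinuousLinearMap.adjoint_inner_right]
        rw [h3, h3] at h2
        exact h2
      linear_combination ⟪y, y'⟫_ℂ * h1
    | add a b ha hb =>
      simp only [map_add, inner_add_right]
      linear_combination ha + hb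
  | add a b ha hb =>
    simp only [map_add, inner_add_left]
    linear_combination ha + hb

theorem exists_S (T : H →L[ℂ] H) :
    ∃ S : H →L[ℂ] H, star T * T + star S * S = ((‖T‖ ^ 2 : ℝ) : ℂ) • (1 : H →L[ℂ] H) := by
  have h1 := CStarAlgebra.star_mul_le_algebraMap_norm_sq (a := T)
  have h2 : 0 ≤ algebraMap ℝ (H →L[ℂ] H) (‖T‖ ^ 2) - star T * T := sub_nonneg.2 h1
  obtain ⟨S, hS⟩ := CStarAlgebra.nonneg_iff_eq_star_mul_self.1 h2
  refine ⟨S, ?_⟩
  rw [← hS, add_sub_cancel, Algebra.algebraMap_eq_smul_one]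
  exact (Complex.coe_smul _ _).symm

theorem bound {r : H →ₗ[ℂ] L →ₗ[ℂ] K'} (hr : IsHT r) (T : H →L[ℂ] H) (z : H ⊗[ℂ] L) :
    ‖(ee r ∘ₗ mm L T) z‖ ≤ ‖T‖ * ‖ee r z‖ := by
  obtain ⟨S, hS⟩ := exists_S T
  have h3 := pol hr T S _ hS z z
  rw [inner_self_eq_norm_sq_to_K, inner_self_eq_norm_sq_to_K, inner_self_eq_norm_sq_to_K] at h3
  have h3' : ((‖ee r (mm L T z)‖ : ℝ) : ℂ) ^ 2 + ((‖ee r (mm L S z)‖ : ℝ) : ℂ) ^ 2 =
      ((‖T‖ ^ 2 : ℝ) : ℂ) * ((‖ee r z‖ : ℝ) : ℂ) ^ 2 := h3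
  have h4 : ‖ee r (mm L T z)‖ ^ 2 + ‖ee r (mm L S z)‖ ^ 2 = ‖T‖ ^ 2 * ‖ee r z‖ ^ 2 := by
    exact_mod_cast h3'
  rw [LinearMap.comp_apply]
  have h5 : ‖ee r (mm L T z)‖ ^ 2 ≤ (‖T‖ * ‖ee r z‖) ^ 2 := by
    rw [mul_pow]
    nlinarith [sq_nonneg ‖ee r (mm L S z)‖]
  exact (pow_le_pow_iff_left₀ (norm_nonneg _) (by positivity) two_ne_zero).1 h5

/-- `T ⊗ 1` on the Hilbert tensor product -/
noncomputable def am (r : H →ₗ[ℂ] L →ₗ[ℂ] K') (T : H →L[ℂ] H) : K' →L[ℂ] K' :=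
  (ee r ∘ₗ mm L T).extendOfNorm (ee r)

theorem am_rr {r : H →ₗ[ℂ] L →ₗ[ℂ] K'} (hr : IsHT r) (T : H →L[ℂ] H) (x : H) (y : L) :
    am r T (r x y) = r (T x) y := by
  have h := LinearMap.extendOfNorm_eq (f := ee r ∘ₗ mm L T) (e := ee r) (dense_ee hr)
    ⟨‖T‖, bound hr T⟩ (x ⊗ₜ[ℂ] y)
  rw [LinearMap.comp_apply, mm_tmul, ee_tmul, ee_tmul] at h
  exact h

theorem am_norm {r : H →ₗ[ℂ] L →ₗ[ℂ] K'} (hr : IsHT r) (T : H →L[ℂ] H) : ‖am r T‖ ≤ ‖T‖ :=
  LinearMap.opNorm_extendOfNorm_le (dense_ee hr) (norm_nonneg T) (bound hr T)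

theorem am_ext {r : H →ₗ[ℂ] L →ₗ[ℂ] K'} (hr : IsHT r) (A B : K' →L[ℂ] K')
    (h : ∀ x y, A (r x y) = B (r x y)) : A = B := by
  refine ContinuousLinearMap.ext_on (Submodule.dense_iff_topologicalClosure_eq_top.2 hr.total) ?_
  rintro _ ⟨x, y, rfl⟩
  exact h x y

/-- the star homomorphism `T ↦ T ⊗ 1` -/
noncomputable def ampH {r : H →ₗ[ℂ] L →ₗ[ℂ] K'} (hr : IsHT r) :
    (H →L[ℂ] H) →⋆ₐ[ℂ] (K' →L[ℂ] K') where
  toFun := am r
  map_one' := am_ext hr _ _ fun x y => by rw [am_rr hr]; rfl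
  map_mul' S T := am_ext hr _ _ fun x y => by
    show am r (S * T) (r x y) = am r S (am r T (r x y))
    rw [am_rr hr, am_rr hr, am_rr hr]
    rfl
  map_zero' := am_ext hr _ _ fun x y => by
    rw [am_rr hr]
    show r 0 y = 0
    rw [map_zero]
    rfl
  map_add' S T := am_ext hr _ _ fun x y => by
    show am r (S + T) (r x y) = am r S (r x y) + am r T (r x y)
    rw [am_rr hr, am_rr hr, am_rr hr]
    show r (S x + T x) y = _
    rw [map_add]
    rfl
  commutes' c := am_ext hr _ _ fun x y => by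
    rw [am_rr hr, Algebra.algebraMap_eq_smul_one, Algebra.algebraMap_eq_smul_one]
    show r (c • x) y = c • r x y
    rw [map_smul]
    rfl
  map_star' T := am_ext hr _ _ fun x y => by
    rw [am_rr hr]
    refine (dense_ee hr).eq_of_inner_right (𝕜 := ℂ) fun i => ?_
    have h1 : ∀ v : K', ⟪ee r i, (star (am r T)) v⟫_ℂ = ⟪am r T (ee r i), v⟫_ℂ := fun v => by
      show ⟪ee r i, (ContinuousLinearMap.adjoint (am r T)) v⟫_ℂ = _
      rw [ContinuousLinearMap.adjoint_inner_right]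
    rw [h1]
    clear h1
    induction i using TensorProduct.induction_on with
    | zero => simp
    | tmul x' y' =>
      rw [ee_tmul, am_rr hr, hr.inner, hr.inner]
      congr 1
      show ⟪x', (ContinuousLinearMap.adjoint T) x⟫_ℂ = _
      rw [ContinuousLinearMap.adjoint_inner_right]
    | add a b ha hb =>
      simp only [map_add, inner_add_left]
      rw [ha, hb]

end

end AmpP

open AmpP in
theorem t_SAMP : SAMP := by
  intro H L K' _ _ _ _ _ _ _ _ _ r hr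
  exact ⟨ampH hr, fun T x y => am_rr hr T x y, fun T => am_norm hr T⟩

end Pool.Agent.R283.QS
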