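import Pool.Agent.R283.QS.Stm

set_option autoImplicit false

open scoped InnerProductSpace ENNReal
open MeasureTheory Set Filter Topology

namespace Pool.Agent.R283.QS

theorem asm (hA : SAMP) (hQS : SQS) (hWL : SWL) (hWR : SWR) (hST : SSTATE)
    (hKI : PKI) (hTH : PTH) (hL2 : L2T) (hUNI : UNI) (hPI : PPI) (hTW : PTW)
    (hTO : PTO) (hPST : PST) :
    ∃ (H K : Type) (_ : NormedAddCommGroup H) (_ : InnerProductSpace ℂ H) (_ : CompleteSpace H)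
      (_ : NormedAddCommGroup K) (_ : InnerProductSpace ℂ K) (_ : CompleteSpace K)
      (t : H →ₗ[ℂ] H →ₗ[ℂ] K) (Δ : (H →L[ℂ] H) → (K →L[ℂ] K)) (ω : (H →L[ℂ] H) →L[ℂ] ℂ),
      IsHT t ∧ QSemi t (cpt H) Δ ∧ WeakCanc t (cpt H) Δ ∧ IsState (cpt H) ω ∧
        IsIdem t (cpt H) Δ ω ∧ ¬ CompactSupport (cpt H) ω := by
  classical
  obtain ⟨hsk, hss, hk0, hkinv⟩ := hKI
  obtain ⟨hT1, hT2⟩ := hTH
  have := hsk
  have := hss
  obtain ⟨t, ht, htf⟩ := hL2 ℚ_[2] ℚ_[2] kap kap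
  obtain ⟨r, hr, hrf⟩ := hL2 ℚ_[2] ℚ_[2] kap sig
  obtain ⟨amp, hamp⟩ := hA _ _ _ r hr
  -- a.e. inverse maps
  have hsum0 : ∀ᵐ p : ℚ_[2] × ℚ_[2] ∂(kap.prod kap), p.1 + p.2 ≠ 0 := by
    -- the map p ↦ p.1 + p.2 has law with {0} null
    have hq : Measure.QuasiMeasurePreserving (fun p : ℚ_[2] × ℚ_[2] => p.1)
        (kap.prod sig) kap := Measure.quasiMeasurePreserving_fst
    have h0 : ∀ᵐ q : ℚ_[2] × ℚ_[2] ∂(kap.prod sig), q.1 ≠ 0 := by
      have : ∀ᵐ y ∂kap, y ≠ 0 := by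
        rw [ae_iff]; simpa using hk0
      exact hq.ae this
    exact hT1.quasiMeasurePreserving.ae h0
  have h01 : ∀ᵐ q : ℚ_[2] × ℚ_[2] ∂(kap.prod sig), q.1 ≠ 0 := by
    have hq : Measure.QuasiMeasurePreserving (fun p : ℚ_[2] × ℚ_[2] => p.1)
        (kap.prod sig) kap := Measure.quasiMeasurePreserving_fst
    have : ∀ᵐ y ∂kap, y ≠ 0 := by
      rw [ae_iff]; simpa using hk0
    exact hq.ae this
  obtain ⟨U, hU, hU'⟩ := hUNI (ℚ_[2] × ℚ_[2]) (ℚ_[2] × ℚ_[2]) (kap.prod kap) (kap.prod sig)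
    (fun p => (p.1 + p.2, p.1 / (p.1 + p.2))) (fun p => (p.1 * p.2, p.1 * (1 - p.2))) hT1 hT2
    (by
      filter_upwards [hsum0] with p hp
      ext
      · simp only; field_simp
      · simp only; field_simp; ring)
    (by
      filter_upwards [h01] with p hp
      have h2 : p.1 * p.2 + p.1 * (1 - p.2) = p.1 := by ring
      ext
      · simp only; exact h2
      · simp only [h2]; field_simp)
  -- the unitaries
  choose P hP using hPI
  let G := {x : LCChar × ℚ_[2] // x.2 ≠ 0}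
  let π : G → (Lp ℂ 2 kap →L[ℂ] Lp ℂ 2 kap) := fun g => P g.1.1 g.1.2 g.2
  have huniq : ∀ (c : LCChar) (a : ℚ_[2]) (Q Q' : Lp ℂ 2 kap →L[ℂ] Lp ℂ 2 kap), IsPi c a Q →
      IsPi c a Q' → Q = Q' := by
    intro c a Q Q' h h'
    ext1 ξ
    apply Lp.ext
    exact (h ξ).trans (h' ξ).symm
  have hsys : Sys t r U amp π := by
    refine ⟨ht, hr, hamp, fun g => (hP g.1.1 g.1.2 g.2).2, ?_, ?_⟩
    · intro g x y
      exact hTW t r U amp ht htf hr hrf hamp hU hU' g.1.1 g.1.2 g.2 _ (hP g.1.1 g.1.2 g.2).1 x y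
    · intro θ hθ h
      refine hTO θ hθ ?_
      intro c a ha Q hQ
      have := h ⟨(c, a), ha⟩
      rwa [huniq c a Q _ hQ (hP c a ha).1]
  have hne : Nonempty G := ⟨⟨(⟨fun _ => 1, by simp, by simp, ⟨1, one_pos, by simp⟩⟩, 1), one_ne_zero⟩⟩
  obtain ⟨e, w, he, hw, hsumw, hval⟩ := hPST
  obtain ⟨ω, h1, h2, h3⟩ := hST _ _ _ _ t r U amp G π hsys e w he hw hsumw
    (fun g => hval g.1.1 g.1.2 g.2 _ (hP g.1.1 g.1.2 g.2).1)
  refine ⟨Lp ℂ 2 kap, Lp ℂ 2 (kap.prod kap), inferInstance, inferInstance, inferInstance,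
    inferInstance, inferInstance, inferInstance, t, Del U amp, ω, ht,
    hQS _ _ _ _ t r U amp G π hsys, ?_, h1, h2, h3⟩
  intro μ hμ
  exact ⟨hWL _ _ _ _ t r U amp G π hne hsys μ hμ, hWR _ _ _ _ t r U amp G π hne hsys μ hμ⟩

end Pool.Agent.R283.QS
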