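import Pool.Agent.R283.QS.Stm

set_option autoImplicit false

open scoped InnerProductSpace

namespace Pool.Agent.R283.QS

namespace COA

section
variable {H : Type} [NormedAddCommGroup H] [InnerProductSpace ℂ H] [CompleteSpace H]

theorem nrm_zero : Nrm (0 : (H →L[ℂ] H) →L[ℂ] ℂ) := by
  intro ε hε
  refine ⟨0, fun i => i.elim0, fun i => i.elim0, fun T => ?_⟩
  simp only [ContinuousLinearMap.zero_apply, Finset.univ_eq_empty, Finset.sum_empty, sub_zero,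
    norm_zero]
  positivity

theorem nrm_sum (hB : SNB) {n : ℕ} (θ : Fin n → (H →L[ℂ] H) →L[ℂ] ℂ) (h : ∀ i, Nrm (θ i)) :
    Nrm (∑ i, θ i) := by
  classical
  have key : ∀ s : Finset (Fin n), Nrm (∑ i ∈ s, θ i) := by
    intro s
    induction s using Finset.induction_on with
    | empty =>
      rw [Finset.sum_empty]
      exact nrm_zero
    | insert a s ha ih =>
      rw [Finset.sum_insert ha]
      exact ((hB H).2.2.2.1 _ _ (h a) ih).1
  exact key _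

theorem nrm_comp (hB : SNB) (F : (H →L[ℂ] H) →L[ℂ] (H →L[ℂ] H))
    (hF : ∀ ξ η : H, ∃ θ : (H →L[ℂ] H) →L[ℂ] ℂ, Nrm θ ∧ ∀ T, θ T = ⟪ξ, F T η⟫_ℂ)
    (ψ : (H →L[ℂ] H) →L[ℂ] ℂ) (hψ : Nrm ψ) : Nrm (ψ.comp F) := by
  refine (hB H).2.2.2.2.2 _ fun ε hε => ?_
  have hc : 0 < ‖F‖ + 1 := by positivity
  obtain ⟨n, ξ, η, h⟩ := hψ (ε / (‖F‖ + 1)) (by positivity)
  choose θ hθ1 hθ2 using fun i => hF (ξ i) (η i)
  refine ⟨∑ i, θ i, nrm_sum hB θ hθ1, ContinuousLinearMap.opNorm_le_bound _ hε.le fun T => ?_⟩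
  have e : (ψ.comp F - ∑ i, θ i) T = ψ (F T) - ∑ i, ⟪ξ i, F T (η i)⟫_ℂ := by
    rw [ContinuousLinearMap.sub_apply, ContinuousLinearMap.comp_apply,
      ContinuousLinearMap.sum_apply]
    congr 1
    exact Finset.sum_congr rfl fun i _ => hθ2 i T
  rw [e]
  calc ‖ψ (F T) - ∑ i, ⟪ξ i, F T (η i)⟫_ℂ‖ ≤ ε / (‖F‖ + 1) * ‖F T‖ := h (F T)
    _ ≤ ε / (‖F‖ + 1) * (‖F‖ * ‖T‖) :=
        mul_le_mul_of_nonneg_left (F.le_opNorm T) (by positivity)
    _ ≤ ε / (‖F‖ + 1) * ((‖F‖ + 1) * ‖T‖) := by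
        refine mul_le_mul_of_nonneg_left ?_ (by positivity)
        exact mul_le_mul_of_nonneg_right (by linarith) (norm_nonneg _)
    _ = ε * ‖T‖ := by
        field_simp

theorem mk_slice (Φ : (H →L[ℂ] H) → H → H → ℂ) (C : ℝ)
    (hadd : ∀ S T u v, Φ (S + T) u v = Φ S u v + Φ T u v)
    (hsmul : ∀ (c : ℂ) T u v, Φ (c • T) u v = c * Φ T u v)
    (hex : ∀ T, ∃ m : H →L[ℂ] H, (∀ u v, ⟪u, m v⟫_ℂ = Φ T u v) ∧ ‖m‖ ≤ C * ‖T‖) :
    ∃ F : (H →L[ℂ] H) →L[ℂ] (H →L[ℂ] H), ∀ T u v, ⟪u, F T v⟫_ℂ = Φ T u v := by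
  choose m hm hb using hex
  refine ⟨LinearMap.mkContinuous
    { toFun := m
      map_add' := ?_
      map_smul' := ?_ } C hb, fun T u v => hm T u v⟩
  · intro S T
    ext v
    refine ext_inner_left ℂ fun u => ?_
    rw [hm, ContinuousLinearMap.add_apply, inner_add_right, hm, hm, hadd]
  · intro c T
    ext v
    refine ext_inner_left ℂ fun u => ?_
    rw [hm, RingHom.id_apply, ContinuousLinearMap.smul_apply, inner_smul_right, hm, hsmul]

theorem clm_unique {m m' : H →L[ℂ] H} (h : ∀ u v, ⟪u, m v⟫_ℂ = ⟪u, m' v⟫_ℂ) : m = m' := by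
  ext v
  exact ext_inner_left ℂ fun u => h u v

end

section
variable {H L K' K : Type}
  [NormedAddCommGroup H] [InnerProductSpace ℂ H] [CompleteSpace H]
  [NormedAddCommGroup L] [InnerProductSpace ℂ L] [CompleteSpace L]
  [NormedAddCommGroup K'] [InnerProductSpace ℂ K'] [CompleteSpace K']
  [NormedAddCommGroup K] [InnerProductSpace ℂ K] [CompleteSpace K]
  (U : K' ≃ₗᵢ[ℂ] K) (amp : (H →L[ℂ] H) →⋆ₐ[ℂ] (K' →L[ℂ] K'))

theorem Del_apply (T : H →L[ℂ] H) (k : K) : Del U amp T k = U (amp T (U.symm k)) := rfl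

theorem Del_add (S T : H →L[ℂ] H) : Del U amp (S + T) = Del U amp S + Del U amp T := by
  ext k
  rw [ContinuousLinearMap.add_apply, Del_apply, Del_apply, Del_apply, map_add amp,
    ContinuousLinearMap.add_apply, map_add U]

theorem Del_smul (c : ℂ) (T : H →L[ℂ] H) : Del U amp (c • T) = c • Del U amp T := by
  ext k
  rw [ContinuousLinearMap.smul_apply, Del_apply, Del_apply, map_smul amp,
    ContinuousLinearMap.smul_apply, map_smul U]

theorem Del_norm (h : ∀ T, ‖amp T‖ ≤ ‖T‖) (T : H →L[ℂ] H) : ‖Del U amp T‖ ≤ ‖T‖ := by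
  refine ContinuousLinearMap.opNorm_le_bound _ (norm_nonneg _) fun k => ?_
  rw [Del_apply, LinearIsometryEquiv.norm_map]
  calc ‖amp T (U.symm k)‖ ≤ ‖amp T‖ * ‖U.symm k‖ := (amp T).le_opNorm _
    _ ≤ ‖T‖ * ‖k‖ := by
        rw [LinearIsometryEquiv.norm_map]
        exact mul_le_mul_of_nonneg_right (h T) (norm_nonneg _)

theorem exists_psi (h : ∀ T, ‖amp T‖ ≤ ‖T‖) (ζ ζ' : K) :
    ∃ θ : (H →L[ℂ] H) →L[ℂ] ℂ, ∀ T, θ T = ⟪ζ, Del U amp T ζ'⟫_ℂ := by
  refine ⟨LinearMap.mkContinuous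
    { toFun := fun T => ⟪ζ, Del U amp T ζ'⟫_ℂ
      map_add' := ?_
      map_smul' := ?_ } (‖ζ‖ * ‖ζ'‖) ?_, fun T => rfl⟩
  · intro S T
    rw [Del_add, ContinuousLinearMap.add_apply, inner_add_right]
  · intro c T
    rw [Del_smul, ContinuousLinearMap.smul_apply, inner_smul_right]
    rfl
  · intro T
    change ‖⟪ζ, Del U amp T ζ'⟫_ℂ‖ ≤ _
    calc ‖⟪ζ, Del U amp T ζ'⟫_ℂ‖ ≤ ‖ζ‖ * ‖Del U amp T ζ'‖ := norm_inner_le_norm _ _
      _ ≤ ‖ζ‖ * (‖T‖ * ‖ζ'‖) := by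
          refine mul_le_mul_of_nonneg_left ?_ (norm_nonneg _)
          exact ((Del U amp T).le_opNorm ζ').trans
            (mul_le_mul_of_nonneg_right (Del_norm U amp h T) (norm_nonneg _))
      _ = _ := by ring

end

end COA

open COA in
/-- COA -/
theorem t_SCOA (hS : SSLI) (hB : SNB) (hD : SND) : SCOA := by
  intro H L K' K _ _ _ _ _ _ _ _ _ _ _ _ t r U amp G π sys a x y z x' y' z' m n hm hn
  have hamp := sys.hamp.2
  have hnr : ∀ ζ ζ' : K, ∃ θ : (H →L[ℂ] H) →L[ℂ] ℂ, Nrm θ ∧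
      ∀ T, θ T = ⟪ζ, Del U amp T ζ'⟫_ℂ := by
    intro ζ ζ'
    obtain ⟨θ, hθ⟩ := exists_psi U amp hamp ζ ζ'
    exact ⟨θ, hD H L K' K r U amp sys.hr sys.hamp ζ ζ' θ hθ, hθ⟩
  -- the slice maps
  obtain ⟨F, hF⟩ := mk_slice (fun T u v => ⟪t u z, Del U amp T (t v z')⟫_ℂ) (‖z‖ * ‖z'‖)
    (fun S T u v => by
      simp only [Del_add, ContinuousLinearMap.add_apply, inner_add_right])
    (fun c T u v => by
      simp only [Del_smul, ContinuousLinearMap.smul_apply, inner_smul_right])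
    (fun T => by
      obtain ⟨⟨m, h1, h2⟩, -⟩ := hS H K t sys.ht (Del U amp T) z z'
      refine ⟨m, h1, h2.trans ?_⟩
      rw [mul_assoc, mul_comm]
      exact mul_le_mul_of_nonneg_left (Del_norm U amp hamp T) (by positivity))
  obtain ⟨E, hE⟩ := mk_slice (fun T u v => ⟪t x u, Del U amp T (t x' v)⟫_ℂ) (‖x‖ * ‖x'‖)
    (fun S T u v => by
      simp only [Del_add, ContinuousLinearMap.add_apply, inner_add_right])
    (fun c T u v => by
      simp only [Del_smul, ContinuousLinearMap.smul_apply, inner_smul_right])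
    (fun T => by
      obtain ⟨-, ⟨m, h1, h2⟩⟩ := hS H K t sys.ht (Del U amp T) x x'
      refine ⟨m, h1, h2.trans ?_⟩
      rw [mul_assoc, mul_comm]
      exact mul_le_mul_of_nonneg_left (Del_norm U amp hamp T) (by positivity))
  obtain ⟨ψ1, n1, p1⟩ := hnr (t x y) (t x' y')
  obtain ⟨ψ2, n2, p2⟩ := hnr (t y z) (t y' z')
  have N1 : Nrm (ψ1.comp F) := nrm_comp hB F (fun ξ η => by
    obtain ⟨θ, h1, h2⟩ := hnr (t ξ z) (t η z')
    exact ⟨θ, h1, fun T => by rw [h2, hF]⟩) ψ1 n1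
  have N2 : Nrm (ψ2.comp E) := nrm_comp hB E (fun ξ η => by
    obtain ⟨θ, h1, h2⟩ := hnr (t x ξ) (t x' η)
    exact ⟨θ, h1, fun T => by rw [h2, hE]⟩) ψ2 n2
  have N3 : Nrm (ψ1.comp F - ψ2.comp E) := ((hB H).2.2.2.1 _ _ N1 N2).2
  have hz : ψ1.comp F - ψ2.comp E = 0 := by
    refine sys.tot _ N3 fun g => ?_
    have f1 : F (π g) = ⟪z, π g z'⟫_ℂ • π g := clm_unique fun u v => by
      rw [hF, sys.tw, sys.ht.inner, ContinuousLinearMap.smul_apply, inner_smul_right, mul_comm]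
    have f2 : E (π g) = ⟪x, π g x'⟫_ℂ • π g := clm_unique fun u v => by
      rw [hE, sys.tw, sys.ht.inner, ContinuousLinearMap.smul_apply, inner_smul_right]
    rw [ContinuousLinearMap.sub_apply, ContinuousLinearMap.comp_apply,
      ContinuousLinearMap.comp_apply, p1, p2, f1, f2, Del_smul, Del_smul,
      ContinuousLinearMap.smul_apply, ContinuousLinearMap.smul_apply, inner_smul_right,
      inner_smul_right, sys.tw, sys.tw, sys.ht.inner, sys.ht.inner]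
    ring
  have hFa : F a = m := clm_unique fun u v => by rw [hF, hm]
  have hEa : E a = n := clm_unique fun u v => by rw [hE, hn]
  have h0 : (ψ1.comp F - ψ2.comp E) a = 0 := by
    rw [hz]
    rfl
  rw [ContinuousLinearMap.sub_apply, ContinuousLinearMap.comp_apply,
    ContinuousLinearMap.comp_apply, p1, p2, hFa, hEa, sub_eq_zero] at h0
  exact h0

end Pool.Agent.R283.QS
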