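import Mathlib

/-!
Definitions for MP_43823f_an: concretely represented quantum semigroups (a C*-algebra `A` acting
nondegenerately on a Hilbert space `H`, the Hilbert tensor product `K = H ⊗ H` given by a bilinear
map `t`), weak cancellation, idempotent states, compact support projections.
-/

set_option autoImplicit false

open scoped InnerProductSpace

namespace Pool.Agent.R283.QS

section
variable {H L K : Type*}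
  [NormedAddCommGroup H] [InnerProductSpace ℂ H] [CompleteSpace H]
  [NormedAddCommGroup L] [InnerProductSpace ℂ L] [CompleteSpace L]
  [NormedAddCommGroup K] [InnerProductSpace ℂ K] [CompleteSpace K]

/-- `K`, with the bilinear map `t` (written `t x y = x ⊗ y`), is the Hilbert tensor product of
`H` and `L`. -/
structure IsHT (t : H →ₗ[ℂ] L →ₗ[ℂ] K) : Prop where
  inner : ∀ x y x' y', ⟪t x y, t x' y'⟫_ℂ = ⟪x, x'⟫_ℂ * ⟪y, y'⟫_ℂ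
  total : (Submodule.span ℂ {z | ∃ x y, z = t x y}).topologicalClosure = ⊤

/-- `A` is a (concrete) C*-algebra: norm closed, closed under products and adjoints. -/
def IsCStar (A : Submodule ℂ (H →L[ℂ] H)) : Prop :=
  IsClosed (A : Set (H →L[ℂ] H)) ∧ (∀ a ∈ A, ∀ b ∈ A, a * b ∈ A) ∧ ∀ a ∈ A, star a ∈ A

/-- `A` acts nondegenerately on `H`. -/
def Nondeg (A : Submodule ℂ (H →L[ℂ] H)) : Prop :=
  (Submodule.span ℂ {z | ∃ a ∈ A, ∃ x, z = a x}).topologicalClosure = ⊤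

/-- The minimal tensor product `A ⊗ A`, acting on `K = H ⊗ H`: the norm closure of the span of the
operators `a ⊗ b`. -/
noncomputable def tens (t : H →ₗ[ℂ] H →ₗ[ℂ] K) (A : Submodule ℂ (H →L[ℂ] H)) : Submodule ℂ (K →L[ℂ] K) :=
  (Submodule.span ℂ {X | ∃ a ∈ A, ∃ b ∈ A, ∀ x y, X (t x y) = t (a x) (b y)}).topologicalClosure

/-- The multiplier algebra of `B`, realised as the idealizer of `B` in the bounded operators. -/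
def Mult (B : Submodule ℂ (H →L[ℂ] H)) : Set (H →L[ℂ] H) :=
  {T | ∀ S ∈ B, T * S ∈ B ∧ S * T ∈ B}

/-- `m = (id ⊗ ω_{z,z'})(Z)`. -/
def IsRSlice (t : H →ₗ[ℂ] H →ₗ[ℂ] K) (Z : K →L[ℂ] K) (z z' : H) (m : H →L[ℂ] H) : Prop :=
  ∀ u v, ⟪u, m v⟫_ℂ = ⟪t u z, Z (t v z')⟫_ℂ

/-- `m = (ω_{z,z'} ⊗ id)(Z)`. -/
def IsLSlice (t : H →ₗ[ℂ] H →ₗ[ℂ] K) (Z : K →L[ℂ] K) (z z' : H) (m : H →L[ℂ] H) : Prop :=
  ∀ u v, ⟪u, m v⟫_ℂ = ⟪t z u, Z (t z' v)⟫_ℂ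

/-- `(A, Δ)` is a quantum semigroup. `Δ` is given on the multiplier algebra `M(A)` (values outside
are irrelevant): it is a unital *-homomorphism on `M(A)`, it maps `A` into `M(A ⊗ A)`
nondegenerately (so on `M(A)` it is the canonical extension of its restriction to `A`), and it is
coassociative: the matrix coefficients of `(Δ ⊗ id)Δ(a)` and `(id ⊗ Δ)Δ(a)` between
`x ⊗ y ⊗ z` and `x' ⊗ y' ⊗ z'` agree. -/
structure QSemi (t : H →ₗ[ℂ] H →ₗ[ℂ] K) (A : Submodule ℂ (H →L[ℂ] H))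
    (Δ : (H →L[ℂ] H) → (K →L[ℂ] K)) : Prop where
  add : ∀ a ∈ Mult A, ∀ b ∈ Mult A, Δ (a + b) = Δ a + Δ b
  smul : ∀ (c : ℂ), ∀ a ∈ Mult A, Δ (c • a) = c • Δ a
  mul : ∀ a ∈ Mult A, ∀ b ∈ Mult A, Δ (a * b) = Δ a * Δ b
  star : ∀ a ∈ Mult A, Δ (star a) = star (Δ a)
  one : Δ 1 = 1
  mem : ∀ a ∈ A, Δ a ∈ Mult (tens t A)
  nondeg : ∀ S ∈ tens t A,
    S ∈ (Submodule.span ℂ {X | ∃ a ∈ A, ∃ R ∈ tens t A, X = Δ a * R}).topologicalClosure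
  coassoc : ∀ a ∈ A, ∀ x y z x' y' z' : H, ∀ m n : H →L[ℂ] H,
    IsRSlice t (Δ a) z z' m → IsLSlice t (Δ a) x x' n →
      ⟪t x y, Δ m (t x' y')⟫_ℂ = ⟪t y z, Δ n (t y' z')⟫_ℂ

/-- The span of `S` is strictly dense in the multiplier algebra of `A`. -/
def StrictDense (A : Submodule ℂ (H →L[ℂ] H)) (S : Set (H →L[ℂ] H)) : Prop :=
  ∀ T ∈ Mult A, ∀ F : Finset (H →L[ℂ] H), (∀ c ∈ F, c ∈ A) → ∀ ε > (0 : ℝ),
    ∃ m ∈ Submodule.span ℂ S, ∀ c ∈ F, ‖(T - m) * c‖ < ε ∧ ‖c * (T - m)‖ < ε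

/-- `m = b ⋆ (μ · a) = (μ ⊗ id)((a ⊗ 1) Δ(b))`. -/
def IsStarL (t : H →ₗ[ℂ] H →ₗ[ℂ] K) (Δ : (H →L[ℂ] H) → (K →L[ℂ] K))
    (μ : (H →L[ℂ] H) →L[ℂ] ℂ) (a b m : H →L[ℂ] H) : Prop :=
  ∀ y y' : H, ∀ X : H →L[ℂ] H, IsRSlice t (Δ b) y y' X → ⟪y, m y'⟫_ℂ = μ (a * X)

/-- `m = (b · μ) ⋆ a = (id ⊗ μ)(Δ(a) (1 ⊗ b))`. -/
def IsStarR (t : H →ₗ[ℂ] H →ₗ[ℂ] K) (Δ : (H →L[ℂ] H) → (K →L[ℂ] K))
    (μ : (H →L[ℂ] H) →L[ℂ] ℂ) (a b m : H →L[ℂ] H) : Prop :=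
  ∀ x x' : H, ∀ X : H →L[ℂ] H, IsLSlice t (Δ a) x x' X → ⟪x, m x'⟫_ℂ = μ (X * b)

/-- Weak cancellation. A functional on `A` is given by (the restriction to `A` of) a bounded
functional `μ` on `B(H)`; only its values on `A` are used. -/
def WeakCanc (t : H →ₗ[ℂ] H →ₗ[ℂ] K) (A : Submodule ℂ (H →L[ℂ] H))
    (Δ : (H →L[ℂ] H) → (K →L[ℂ] K)) : Prop :=
  ∀ μ : (H →L[ℂ] H) →L[ℂ] ℂ, (∃ a ∈ A, μ a ≠ 0) →
    StrictDense A {m | m ∈ Mult A ∧ ∃ a ∈ A, ∃ b ∈ A, IsStarL t Δ μ a b m} ∧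
    StrictDense A {m | m ∈ Mult A ∧ ∃ a ∈ A, ∃ b ∈ A, IsStarR t Δ μ a b m}

/-- (The restriction to `A` of) `ω` is a state of `A`: positive and of norm one on `A`. -/
def IsState (A : Submodule ℂ (H →L[ℂ] H)) (ω : (H →L[ℂ] H) →L[ℂ] ℂ) : Prop :=
  (∀ a ∈ A, 0 ≤ (ω (star a * a)).re ∧ (ω (star a * a)).im = 0) ∧ (∀ a ∈ A, ‖ω a‖ ≤ ‖a‖) ∧
    ∀ ε > (0 : ℝ), ∃ a ∈ A, ‖a‖ ≤ 1 ∧ 1 - ε < ‖ω a‖

/-- `ω ⋆ ω = ω`: here `Ω` is the (unique) extension of norm at most one of `ω ⊗ ω`. -/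
def IsIdem (t : H →ₗ[ℂ] H →ₗ[ℂ] K) (A : Submodule ℂ (H →L[ℂ] H))
    (Δ : (H →L[ℂ] H) → (K →L[ℂ] K)) (ω : (H →L[ℂ] H) →L[ℂ] ℂ) : Prop :=
  ∃ Ω : (K →L[ℂ] K) →L[ℂ] ℂ, ‖Ω‖ ≤ 1 ∧
    (∀ a ∈ A, ∀ b ∈ A, ∀ X : K →L[ℂ] K, (∀ x y, X (t x y) = t (a x) (b y)) →
      Ω X = ω a * ω b) ∧
    ∀ a ∈ A, Ω (Δ a) = ω a

/-- The support projection `s_ω ∈ A**` is compact: `x s_ω = s_ω` for some positive `x ∈ A`,
i.e. all `a (1 - x)`, `a ∈ A`, are in the left kernel `{c ∈ A | ω(c* c) = 0} = A ∩ A**(1 - s_ω)`. -/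
def CompactSupport (A : Submodule ℂ (H →L[ℂ] H)) (ω : (H →L[ℂ] H) →L[ℂ] ℂ) : Prop :=
  ∃ x ∈ A, x.IsPositive ∧ ∀ a ∈ A, ω (star (a - a * x) * (a - a * x)) = 0

end

end Pool.Agent.R283.QS
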