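import Pool.Agent.R283.QS.Defs

set_option autoImplicit false

open scoped InnerProductSpace ENNReal
open MeasureTheory Set Filter Topology

namespace Pool.Agent.R283.QS

/-! ### Abstract part -/

section
variable {H : Type} [NormedAddCommGroup H] [InnerProductSpace ℂ H] [CompleteSpace H]

/-- rank one operator `x ↦ ⟪v, x⟫ u` -/
noncomputable def rk (u v : H) : H →L[ℂ] H := (innerSL ℂ v).smulRight u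

/-- normal functional -/
def Nrm (θ : (H →L[ℂ] H) →L[ℂ] ℂ) : Prop :=
  ∀ ε > (0 : ℝ), ∃ (n : ℕ) (ξ η : Fin n → H), ∀ T, ‖θ T - ∑ i, ⟪ξ i, T (η i)⟫_ℂ‖ ≤ ε * ‖T‖
end

/-- compact operators: the norm closure of the finite rank operators -/
noncomputable def cpt (H : Type) [NormedAddCommGroup H] [InnerProductSpace ℂ H] [CompleteSpace H] :
    Submodule ℂ (H →L[ℂ] H) :=
  (Submodule.span ℂ {T : H →L[ℂ] H | ∃ u v, T = rk u v}).topologicalClosure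

section
variable {H L K' K : Type}
  [NormedAddCommGroup H] [InnerProductSpace ℂ H] [CompleteSpace H]
  [NormedAddCommGroup L] [InnerProductSpace ℂ L] [CompleteSpace L]
  [NormedAddCommGroup K'] [InnerProductSpace ℂ K'] [CompleteSpace K']
  [NormedAddCommGroup K] [InnerProductSpace ℂ K] [CompleteSpace K]

/-- `amp T = T ⊗ 1` -/
def IsAmp (r : H →ₗ[ℂ] L →ₗ[ℂ] K') (amp : (H →L[ℂ] H) →⋆ₐ[ℂ] (K' →L[ℂ] K')) : Prop :=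
  (∀ T x y, amp T (r x y) = r (T x) y) ∧ ∀ T, ‖amp T‖ ≤ ‖T‖

/-- `Δ(T) = U (T ⊗ 1) U*` -/
noncomputable def Del (U : K' ≃ₗᵢ[ℂ] K) (amp : (H →L[ℂ] H) →⋆ₐ[ℂ] (K' →L[ℂ] K'))
    (T : H →L[ℂ] H) : K →L[ℂ] K :=
  (U.toContinuousLinearEquiv : K' →L[ℂ] K) ∘L (amp T) ∘L (U.symm.toContinuousLinearEquiv : K →L[ℂ] K')

/-- The abstract situation: a set of unitaries `π g` on `H`, total in the weak sense, with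
`Δ(π g) = π g ⊗ π g`. -/
structure Sys (t : H →ₗ[ℂ] H →ₗ[ℂ] K) (r : H →ₗ[ℂ] L →ₗ[ℂ] K') (U : K' ≃ₗᵢ[ℂ] K)
    (amp : (H →L[ℂ] H) →⋆ₐ[ℂ] (K' →L[ℂ] K')) {G : Type} (π : G → (H →L[ℂ] H)) : Prop where
  ht : IsHT t
  hr : IsHT r
  hamp : IsAmp r amp
  uni : ∀ g, star (π g) * π g = 1 ∧ π g * star (π g) = 1
  tw : ∀ g x y, Del U amp (π g) (t x y) = t (π g x) (π g y)
  tot : ∀ θ : (H →L[ℂ] H) →L[ℂ] ℂ, Nrm θ → (∀ g, θ (π g) = 0) → θ = 0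
end

/-- AMP: existence of `T ↦ T ⊗ 1`. -/
def SAMP : Prop := ∀ (H L K' : Type)
  [NormedAddCommGroup H] [InnerProductSpace ℂ H] [CompleteSpace H]
  [NormedAddCommGroup L] [InnerProductSpace ℂ L] [CompleteSpace L]
  [NormedAddCommGroup K'] [InnerProductSpace ℂ K'] [CompleteSpace K']
  (r : H →ₗ[ℂ] L →ₗ[ℂ] K'), IsHT r → ∃ amp : (H →L[ℂ] H) →⋆ₐ[ℂ] (K' →L[ℂ] K'), IsAmp r amp

/-- SLI: existence of slices. -/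
def SSLI : Prop := ∀ (H K : Type)
  [NormedAddCommGroup H] [InnerProductSpace ℂ H] [CompleteSpace H]
  [NormedAddCommGroup K] [InnerProductSpace ℂ K] [CompleteSpace K]
  (t : H →ₗ[ℂ] H →ₗ[ℂ] K), IsHT t → ∀ (Z : K →L[ℂ] K) (z z' : H),
    (∃ m, IsRSlice t Z z z' m ∧ ‖m‖ ≤ ‖Z‖ * ‖z‖ * ‖z'‖) ∧
    (∃ m, IsLSlice t Z z z' m ∧ ‖m‖ ≤ ‖Z‖ * ‖z‖ * ‖z'‖)

/-- SLF: slices by arbitrary bounded functionals `ν`: `m = (ν ⊗ id)(Z)` and `m = (id ⊗ ν)(Z)`. -/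
def SSLF : Prop := ∀ (H K : Type)
  [NormedAddCommGroup H] [InnerProductSpace ℂ H] [CompleteSpace H]
  [NormedAddCommGroup K] [InnerProductSpace ℂ K] [CompleteSpace K]
  (t : H →ₗ[ℂ] H →ₗ[ℂ] K), IsHT t → ∀ (ν : (H →L[ℂ] H) →L[ℂ] ℂ) (Z : K →L[ℂ] K),
    (∃ m : H →L[ℂ] H, (∀ y y' X, IsRSlice t Z y y' X → ⟪y, m y'⟫_ℂ = ν X) ∧ ‖m‖ ≤ ‖ν‖ * ‖Z‖) ∧
    (∃ m : H →L[ℂ] H, (∀ x x' X, IsLSlice t Z x x' X → ⟪x, m x'⟫_ℂ = ν X) ∧ ‖m‖ ≤ ‖ν‖ * ‖Z‖)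

/-- CPT: facts on the compact operators. -/
def SCPT : Prop := ∀ (H : Type)
  [NormedAddCommGroup H] [InnerProductSpace ℂ H] [CompleteSpace H],
  IsCStar (cpt H) ∧ Nondeg (cpt H) ∧ Mult (cpt H) = Set.univ ∧ ∀ u v : H, rk u v ∈ cpt H

/-- TEN: `K(H) ⊗ K(H) = K(H ⊗ H)`. -/
def STEN : Prop := ∀ (H K : Type)
  [NormedAddCommGroup H] [InnerProductSpace ℂ H] [CompleteSpace H]
  [NormedAddCommGroup K] [InnerProductSpace ℂ K] [CompleteSpace K]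
  (t : H →ₗ[ℂ] H →ₗ[ℂ] K), IsHT t → tens t (cpt H) = cpt K

/-- NB: basic facts on normal functionals. -/
def SNB : Prop := ∀ (H : Type)
  [NormedAddCommGroup H] [InnerProductSpace ℂ H] [CompleteSpace H],
  (∀ θ : (H →L[ℂ] H) →L[ℂ] ℂ, Nrm θ → (∀ c ∈ cpt H, θ c = 0) → θ = 0) ∧
  (∀ φ θ : (H →L[ℂ] H) →L[ℂ] ℂ, ∀ c ∈ cpt H, (∀ T, θ T = φ (T * c)) → Nrm θ) ∧
  (∀ φ θ : (H →L[ℂ] H) →L[ℂ] ℂ, ∀ c ∈ cpt H, (∀ T, θ T = φ (c * T)) → Nrm θ) ∧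
  (∀ θ θ' : (H →L[ℂ] H) →L[ℂ] ℂ, Nrm θ → Nrm θ' → Nrm (θ + θ') ∧ Nrm (θ - θ')) ∧
  (∀ (c : ℂ) (θ : (H →L[ℂ] H) →L[ℂ] ℂ), Nrm θ → Nrm (c • θ)) ∧
  (∀ θ : (H →L[ℂ] H) →L[ℂ] ℂ,
    (∀ ε > (0 : ℝ), ∃ θ' : (H →L[ℂ] H) →L[ℂ] ℂ, Nrm θ' ∧ ‖θ - θ'‖ ≤ ε) → Nrm θ)

/-- ND: `T ↦ ⟪ζ, Δ(T) ζ'⟫` is normal. -/
def SND : Prop := ∀ (H L K' K : Type)
  [NormedAddCommGroup H] [InnerProductSpace ℂ H] [CompleteSpace H]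
  [NormedAddCommGroup L] [InnerProductSpace ℂ L] [CompleteSpace L]
  [NormedAddCommGroup K'] [InnerProductSpace ℂ K'] [CompleteSpace K']
  [NormedAddCommGroup K] [InnerProductSpace ℂ K] [CompleteSpace K]
  (r : H →ₗ[ℂ] L →ₗ[ℂ] K') (U : K' ≃ₗᵢ[ℂ] K) (amp : (H →L[ℂ] H) →⋆ₐ[ℂ] (K' →L[ℂ] K')),
  IsHT r → IsAmp r amp → ∀ (ζ ζ' : K) (θ : (H →L[ℂ] H) →L[ℂ] ℂ),
    (∀ T, θ T = ⟪ζ, Del U amp T ζ'⟫_ℂ) → Nrm θ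

/-- COA: coassociativity. -/
def SCOA : Prop := ∀ (H L K' K : Type)
  [NormedAddCommGroup H] [InnerProductSpace ℂ H] [CompleteSpace H]
  [NormedAddCommGroup L] [InnerProductSpace ℂ L] [CompleteSpace L]
  [NormedAddCommGroup K'] [InnerProductSpace ℂ K'] [CompleteSpace K']
  [NormedAddCommGroup K] [InnerProductSpace ℂ K] [CompleteSpace K]
  (t : H →ₗ[ℂ] H →ₗ[ℂ] K) (r : H →ₗ[ℂ] L →ₗ[ℂ] K') (U : K' ≃ₗᵢ[ℂ] K)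
  (amp : (H →L[ℂ] H) →⋆ₐ[ℂ] (K' →L[ℂ] K')) (G : Type) (π : G → (H →L[ℂ] H)),
  Sys t r U amp π → ∀ (a : H →L[ℂ] H) (x y z x' y' z' : H) (m n : H →L[ℂ] H),
    IsRSlice t (Del U amp a) z z' m → IsLSlice t (Del U amp a) x x' n →
      ⟪t x y, Del U amp m (t x' y')⟫_ℂ = ⟪t y z, Del U amp n (t y' z')⟫_ℂ

/-- QS: the quantum semigroup (everything except coassociativity, which is `SCOA`). -/
def SQS : Prop := ∀ (H L K' K : Type)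
  [NormedAddCommGroup H] [InnerProductSpace ℂ H] [CompleteSpace H]
  [NormedAddCommGroup L] [InnerProductSpace ℂ L] [CompleteSpace L]
  [NormedAddCommGroup K'] [InnerProductSpace ℂ K'] [CompleteSpace K']
  [NormedAddCommGroup K] [InnerProductSpace ℂ K] [CompleteSpace K]
  (t : H →ₗ[ℂ] H →ₗ[ℂ] K) (r : H →ₗ[ℂ] L →ₗ[ℂ] K') (U : K' ≃ₗᵢ[ℂ] K)
  (amp : (H →L[ℂ] H) →⋆ₐ[ℂ] (K' →L[ℂ] K')) (G : Type) (π : G → (H →L[ℂ] H)),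
  Sys t r U amp π → QSemi t (cpt H) (Del U amp)

/-- WL: first half of weak cancellation. -/
def SWL : Prop := ∀ (H L K' K : Type)
  [NormedAddCommGroup H] [InnerProductSpace ℂ H] [CompleteSpace H]
  [NormedAddCommGroup L] [InnerProductSpace ℂ L] [CompleteSpace L]
  [NormedAddCommGroup K'] [InnerProductSpace ℂ K'] [CompleteSpace K']
  [NormedAddCommGroup K] [InnerProductSpace ℂ K] [CompleteSpace K]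
  (t : H →ₗ[ℂ] H →ₗ[ℂ] K) (r : H →ₗ[ℂ] L →ₗ[ℂ] K') (U : K' ≃ₗᵢ[ℂ] K)
  (amp : (H →L[ℂ] H) →⋆ₐ[ℂ] (K' →L[ℂ] K')) (G : Type) (π : G → (H →L[ℂ] H)),
  Nonempty G → Sys t r U amp π → ∀ μ : (H →L[ℂ] H) →L[ℂ] ℂ, (∃ a ∈ cpt H, μ a ≠ 0) →
    StrictDense (cpt H)
      {m | m ∈ Mult (cpt H) ∧ ∃ a ∈ cpt H, ∃ b ∈ cpt H, IsStarL t (Del U amp) μ a b m}

/-- WR: second half of weak cancellation. -/
def SWR : Prop := ∀ (H L K' K : Type)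
  [NormedAddCommGroup H] [InnerProductSpace ℂ H] [CompleteSpace H]
  [NormedAddCommGroup L] [InnerProductSpace ℂ L] [CompleteSpace L]
  [NormedAddCommGroup K'] [InnerProductSpace ℂ K'] [CompleteSpace K']
  [NormedAddCommGroup K] [InnerProductSpace ℂ K] [CompleteSpace K]
  (t : H →ₗ[ℂ] H →ₗ[ℂ] K) (r : H →ₗ[ℂ] L →ₗ[ℂ] K') (U : K' ≃ₗᵢ[ℂ] K)
  (amp : (H →L[ℂ] H) →⋆ₐ[ℂ] (K' →L[ℂ] K')) (G : Type) (π : G → (H →L[ℂ] H)),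
  Nonempty G → Sys t r U amp π → ∀ μ : (H →L[ℂ] H) →L[ℂ] ℂ, (∃ a ∈ cpt H, μ a ≠ 0) →
    StrictDense (cpt H)
      {m | m ∈ Mult (cpt H) ∧ ∃ a ∈ cpt H, ∃ b ∈ cpt H, IsStarR t (Del U amp) μ a b m}

/-- STATE: the idempotent state `ω(T) = ∑ wₙ ⟪eₙ, T eₙ⟫`. -/
def SSTATE : Prop := ∀ (H L K' K : Type)
  [NormedAddCommGroup H] [InnerProductSpace ℂ H] [CompleteSpace H]
  [NormedAddCommGroup L] [InnerProductSpace ℂ L] [CompleteSpace L]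
  [NormedAddCommGroup K'] [InnerProductSpace ℂ K'] [CompleteSpace K']
  [NormedAddCommGroup K] [InnerProductSpace ℂ K] [CompleteSpace K]
  (t : H →ₗ[ℂ] H →ₗ[ℂ] K) (r : H →ₗ[ℂ] L →ₗ[ℂ] K') (U : K' ≃ₗᵢ[ℂ] K)
  (amp : (H →L[ℂ] H) →⋆ₐ[ℂ] (K' →L[ℂ] K')) (G : Type) (π : G → (H →L[ℂ] H)),
  Sys t r U amp π → ∀ (e : ℕ → H) (w : ℕ → ℝ), Orthonormal ℂ e → (∀ n, 0 < w n) → HasSum w 1 →
    (∀ g, (∑' n, (w n : ℂ) * ⟪e n, π g (e n)⟫_ℂ = 0) ∨ (∑' n, (w n : ℂ) * ⟪e n, π g (e n)⟫_ℂ = 1)) →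
    ∃ ω : (H →L[ℂ] H) →L[ℂ] ℂ, IsState (cpt H) ω ∧ IsIdem t (cpt H) (Del U amp) ω ∧
      ¬ CompactSupport (cpt H) ω

/-! ### The 2-adic part -/

noncomputable instance : MeasurableSpace ℚ_[2] := borel _
instance : BorelSpace ℚ_[2] := ⟨rfl⟩

/-- the closed unit ball -/
noncomputable def ub : TopologicalSpace.PositiveCompacts ℚ_[2] where
  carrier := Metric.closedBall 0 1
  isCompact' := isCompact_closedBall 0 1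
  interior_nonempty' := ⟨0, mem_interior.2 ⟨Metric.ball 0 1, Metric.ball_subset_closedBall,
    Metric.isOpen_ball, Metric.mem_ball_self one_pos⟩⟩

/-- Haar measure of `(ℚ_2, +)` -/
noncomputable def mu : Measure ℚ_[2] := Measure.addHaarMeasure ub

/-- Haar measure of the multiplicative group -/
noncomputable def kap : Measure ℚ_[2] := mu.withDensity fun y => ENNReal.ofReal ‖y‖⁻¹

noncomputable def sig : Measure ℚ_[2] :=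
  mu.withDensity fun s => ENNReal.ofReal (‖s‖⁻¹ * ‖1 - s‖⁻¹)

/-- P-SC: scaling of Haar measure. -/
def PSC : Prop := ∀ (a : ℚ_[2]), a ≠ 0 → ∀ f : ℚ_[2] → ℝ≥0∞, Measurable f →
  ∫⁻ y, f (a * y) ∂mu = ENNReal.ofReal ‖a‖⁻¹ * ∫⁻ y, f y ∂mu

/-- P-KI: scale invariance of `kap`, σ-finiteness. -/
def PKI : Prop := SigmaFinite kap ∧ SigmaFinite sig ∧ kap {0} = 0 ∧
  ∀ (a : ℚ_[2]), a ≠ 0 → MeasurePreserving (fun y => a * y) kap kap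

/-- P-TH: the change of variables. -/
def PTH : Prop :=
  MeasurePreserving (fun p : ℚ_[2] × ℚ_[2] => (p.1 + p.2, p.1 / (p.1 + p.2)))
    (kap.prod kap) (kap.prod sig) ∧
  MeasurePreserving (fun p : ℚ_[2] × ℚ_[2] => (p.1 * p.2, p.1 * (1 - p.2)))
    (kap.prod sig) (kap.prod kap)

/-- L2T: `L²(α) ⊗ L²(β) = L²(α × β)`. -/
def L2T : Prop := ∀ (X Y : Type) [MeasurableSpace X] [MeasurableSpace Y]
  (α : Measure X) (β : Measure Y) [SigmaFinite α] [SigmaFinite β],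
  ∃ t : Lp ℂ 2 α →ₗ[ℂ] Lp ℂ 2 β →ₗ[ℂ] Lp ℂ 2 (α.prod β), IsHT t ∧
    ∀ f g, t f g =ᵐ[α.prod β] fun p => f p.1 * g p.2

/-- UNI: measure isomorphisms give unitaries. -/
def UNI : Prop := ∀ (X Y : Type) [MeasurableSpace X] [MeasurableSpace Y]
  (α : Measure X) (β : Measure Y) (f : X → Y) (g : Y → X),
  MeasurePreserving f α β → MeasurePreserving g β α → (∀ᵐ x ∂α, g (f x) = x) →
  (∀ᵐ y ∂β, f (g y) = y) →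
  ∃ U : Lp ℂ 2 β ≃ₗᵢ[ℂ] Lp ℂ 2 α, (∀ F, U F =ᵐ[α] fun x => F (f x)) ∧
    ∀ F, U.symm F =ᵐ[β] fun y => F (g y)

/-- locally constant unitary characters of `(ℚ_2, +)` -/
structure LCChar where
  χ : ℚ_[2] → ℂ
  add : ∀ x y, χ (x + y) = χ x * χ y
  norm : ∀ x, ‖χ x‖ = 1
  lc : ∃ r > (0 : ℝ), ∀ x, ‖x‖ ≤ r → χ x = 1

/-- `(P ξ)(y) = χ(y) ξ(a⁻¹ y)` -/
def IsPi (c : LCChar) (a : ℚ_[2]) (P : Lp ℂ 2 kap →L[ℂ] Lp ℂ 2 kap) : Prop :=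
  ∀ ξ, P ξ =ᵐ[kap] fun y => c.χ y * ξ (a⁻¹ * y)

/-- P-PI: the unitaries. -/
def PPI : Prop := ∀ (c : LCChar) (a : ℚ_[2]), a ≠ 0 →
  ∃ P : Lp ℂ 2 kap →L[ℂ] Lp ℂ 2 kap, IsPi c a P ∧ star P * P = 1 ∧ P * star P = 1

/-- P-TW: the twisting relation. -/
def PTW : Prop := ∀ (t : Lp ℂ 2 kap →ₗ[ℂ] Lp ℂ 2 kap →ₗ[ℂ] Lp ℂ 2 (kap.prod kap))
  (r : Lp ℂ 2 kap →ₗ[ℂ] Lp ℂ 2 sig →ₗ[ℂ] Lp ℂ 2 (kap.prod sig))
  (U : Lp ℂ 2 (kap.prod sig) ≃ₗᵢ[ℂ] Lp ℂ 2 (kap.prod kap))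
  (amp : (Lp ℂ 2 kap →L[ℂ] Lp ℂ 2 kap) →⋆ₐ[ℂ]
    (Lp ℂ 2 (kap.prod sig) →L[ℂ] Lp ℂ 2 (kap.prod sig))),
  IsHT t → (∀ f g, t f g =ᵐ[kap.prod kap] fun p => f p.1 * g p.2) →
  IsHT r → (∀ f g, r f g =ᵐ[kap.prod sig] fun p => f p.1 * g p.2) → IsAmp r amp →
  (∀ F, U F =ᵐ[kap.prod kap] fun p => F (p.1 + p.2, p.1 / (p.1 + p.2))) →
  (∀ F, U.symm F =ᵐ[kap.prod sig] fun p => F (p.1 * p.2, p.1 * (1 - p.2))) →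
  ∀ (c : LCChar) (a : ℚ_[2]), a ≠ 0 → ∀ P, IsPi c a P → ∀ x y,
    Del U amp P (t x y) = t (P x) (P y)

/-- P-FO: uniqueness for the Fourier transform. -/
def PFO : Prop := ∀ m : ℚ_[2] → ℂ, Integrable m kap → (∀ c : LCChar, ∫ y, c.χ y * m y ∂kap = 0) →
  m =ᵐ[kap] 0

/-- P-TO: the unitaries are total. -/
def PTO : Prop := ∀ θ : (Lp ℂ 2 kap →L[ℂ] Lp ℂ 2 kap) →L[ℂ] ℂ, Nrm θ →
  (∀ (c : LCChar) (a : ℚ_[2]), a ≠ 0 → ∀ P, IsPi c a P → θ P = 0) → θ = 0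

/-- P-ST: the state. -/
def PST : Prop := ∃ (e : ℕ → Lp ℂ 2 kap) (w : ℕ → ℝ), Orthonormal ℂ e ∧ (∀ n, 0 < w n) ∧
  HasSum w 1 ∧ ∀ (c : LCChar) (a : ℚ_[2]), a ≠ 0 → ∀ P, IsPi c a P →
    (∑' n, (w n : ℂ) * ⟪e n, P (e n)⟫_ℂ = 0) ∨ (∑' n, (w n : ℂ) * ⟪e n, P (e n)⟫_ℂ = 1)

end Pool.Agent.R283.QS
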