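import Mathlib
import Pool.Agent.R283.QS.Stm

/-!
# `L²(α) ⊗ L²(β) = L²(α × β)` (project QS, MP_43823f_an)
-/

set_option autoImplicit false

open scoped InnerProductSpace ENNReal
open MeasureTheory Set Filter Topology

namespace Pool.Agent.R283.QS

namespace L2Tx

variable {X Y : Type} [MeasurableSpace X] [MeasurableSpace Y] {α : Measure X} {β : Measure Y}
  [SigmaFinite α] [SigmaFinite β]

lemma memLp_prod (f : X → ℂ) (g : Y → ℂ) (hf : MemLp f 2 α) (hg : MemLp g 2 β) :
    MemLp (fun p : X × Y => f p.1 * g p.2) 2 (α.prod β) := by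
  have hm : AEStronglyMeasurable (fun p : X × Y => f p.1 * g p.2) (α.prod β) :=
    hf.1.comp_fst.mul hg.1.comp_snd
  rw [memLp_two_iff_integrable_sq_norm hm]
  have h1 := (memLp_two_iff_integrable_sq_norm hf.1).1 hf
  have h2 := (memLp_two_iff_integrable_sq_norm hg.1).1 hg
  refine (h1.mul_prod h2).congr ?_
  refine Eventually.of_forall fun p => ?_
  simp [mul_pow]

noncomputable def T (f : Lp ℂ 2 α) (g : Lp ℂ 2 β) : Lp ℂ 2 (α.prod β) :=
  (memLp_prod f g (Lp.memLp f) (Lp.memLp g)).toLp _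

lemma T_coe (f : Lp ℂ 2 α) (g : Lp ℂ 2 β) : T f g =ᵐ[α.prod β] fun p => f p.1 * g p.2 :=
  MemLp.coeFn_toLp _

lemma fst_ae {q : X → Prop} (h : ∀ᵐ x ∂α, q x) : ∀ᵐ z ∂(α.prod β), q z.1 :=
  Measure.quasiMeasurePreserving_fst.ae h

lemma snd_ae {q : Y → Prop} (h : ∀ᵐ y ∂β, q y) : ∀ᵐ z ∂(α.prod β), q z.2 :=
  Measure.quasiMeasurePreserving_snd.ae h

noncomputable def tt : Lp ℂ 2 α →ₗ[ℂ] Lp ℂ 2 β →ₗ[ℂ] Lp ℂ 2 (α.prod β) :=
  LinearMap.mk₂ ℂ T
    (by
      intro f1 f2 g
      apply Lp.ext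
      filter_upwards [T_coe (f1 + f2) g, Lp.coeFn_add (T f1 g) (T f2 g), T_coe f1 g, T_coe f2 g,
        fst_ae (β := β) (Lp.coeFn_add f1 f2)] with p h1 h2 h3 h4 h5
      rw [h1, h2, Pi.add_apply, h3, h4, h5, Pi.add_apply, add_mul])
    (by
      intro c f g
      apply Lp.ext
      filter_upwards [T_coe (c • f) g, Lp.coeFn_smul c (T f g), T_coe f g,
        fst_ae (β := β) (Lp.coeFn_smul c f)] with p h1 h2 h3 h5
      rw [h1, h2, Pi.smul_apply, h3, h5, Pi.smul_apply, smul_eq_mul, smul_eq_mul, mul_assoc])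
    (by
      intro f g1 g2
      apply Lp.ext
      filter_upwards [T_coe f (g1 + g2), Lp.coeFn_add (T f g1) (T f g2), T_coe f g1, T_coe f g2,
        snd_ae (α := α) (Lp.coeFn_add g1 g2)] with p h1 h2 h3 h4 h5
      rw [h1, h2, Pi.add_apply, h3, h4, h5, Pi.add_apply, mul_add])
    (by
      intro c f g
      apply Lp.ext
      filter_upwards [T_coe f (c • g), Lp.coeFn_smul c (T f g), T_coe f g,
        snd_ae (α := α) (Lp.coeFn_smul c g)] with p h1 h2 h3 h5
      rw [h1, h2, Pi.smul_apply, h3, h5, Pi.smul_apply, smul_eq_mul, smul_eq_mul]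
      ring)

lemma inner_T (x x' : Lp ℂ 2 α) (y y' : Lp ℂ 2 β) :
    ⟪T x y, T x' y'⟫_ℂ = ⟪x, x'⟫_ℂ * ⟪y, y'⟫_ℂ := by
  rw [L2.inner_def, L2.inner_def, L2.inner_def]
  have : ∫ p, ⟪T x y p, T x' y' p⟫_ℂ ∂(α.prod β) =
      ∫ p : X × Y, ⟪x p.1, x' p.1⟫_ℂ * ⟪y p.2, y' p.2⟫_ℂ ∂(α.prod β) := by
    refine integral_congr_ae ?_
    filter_upwards [T_coe x y, T_coe x' y'] with p h1 h2
    rw [h1, h2]
    simp only [RCLike.inner_apply, map_mul]
    ring
  rw [this, integral_prod_mul (fun a => ⟪x a, x' a⟫_ℂ) (fun b => ⟪y b, y' b⟫_ℂ)]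

lemma T_ind {A : Set X} {B : Set Y} (hA : MeasurableSet A) (hB : MeasurableSet B)
    (hαA : α A ≠ ∞) (hβB : β B ≠ ∞) (hAB : (α.prod β) (A ×ˢ B) ≠ ∞) :
    T (indicatorConstLp 2 hA hαA (1 : ℂ)) (indicatorConstLp 2 hB hβB (1 : ℂ)) =
      indicatorConstLp 2 (hA.prod hB) hAB (1 : ℂ) := by
  apply Lp.ext
  filter_upwards [T_coe (indicatorConstLp 2 hA hαA (1 : ℂ)) (indicatorConstLp 2 hB hβB (1 : ℂ)),
    fst_ae (β := β) (indicatorConstLp_coeFn (p := 2) (hs := hA) (hμs := hαA) (c := (1 : ℂ))),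
    snd_ae (α := α) (indicatorConstLp_coeFn (p := 2) (hs := hB) (hμs := hβB) (c := (1 : ℂ))),
    indicatorConstLp_coeFn (p := 2) (hs := hA.prod hB) (hμs := hAB) (c := (1 : ℂ))]
    with p h1 h2 h3 h4
  rw [h1, h2, h3, h4]
  by_cases hp1 : p.1 ∈ A <;> by_cases hp2 : p.2 ∈ B <;>
    simp [indicator, hp1, hp2]

/-- a square integrable function with vanishing integrals over rectangles vanishes -/
lemma zero_of_rect (F : Lp ℂ 2 (α.prod β))
    (h : ∀ (A : Set X) (B : Set Y), MeasurableSet A → MeasurableSet B → α A ≠ ∞ → β B ≠ ∞ →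
      ∫ p in A ×ˢ B, F p ∂(α.prod β) = 0) : F = 0 := by
  have hmem := Lp.memLp F
  set R : ℕ × ℕ → Set (X × Y) := fun n => spanningSets α n.1 ×ˢ spanningSets β n.2 with hR
  have hRm : ∀ n, MeasurableSet (R n) := fun n =>
    (measurableSet_spanningSets α n.1).prod (measurableSet_spanningSets β n.2)
  have hRfin : ∀ n, (α.prod β) (R n) < ∞ := by
    intro n
    rw [hR]
    simp only
    rw [Measure.prod_prod]
    exact ENNReal.mul_lt_top (measure_spanningSets_lt_top α n.1) (measure_spanningSets_lt_top β n.2)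
  have hint : ∀ n, IntegrableOn F (R n) (α.prod β) := by
    intro n
    have : IsFiniteMeasure ((α.prod β).restrict (R n)) := ⟨by
      rw [Measure.restrict_apply_univ]
      exact hRfin n⟩
    exact (hmem.restrict (R n)).integrable (by norm_num)
  have hzero : ∀ n (s : Set (X × Y)), MeasurableSet s →
      ∫ p in s ∩ R n, F p ∂(α.prod β) = 0 := by
    intro n s hs
    induction s, hs using MeasurableSpace.induction_on_inter (generateFrom_prod (α := X) (β := Y)).symm
      isPiSystem_prod with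
    | empty => simp
    | basic s hs =>
      obtain ⟨A, hA, B, hB, rfl⟩ := hs
      simp only [mem_ofPred_eq] at hA hB
      have : (A ×ˢ B) ∩ R n = (A ∩ spanningSets α n.1) ×ˢ (B ∩ spanningSets β n.2) := by
        rw [hR]
        exact prod_inter_prod
      rw [this]
      refine h _ _ (hA.inter (measurableSet_spanningSets α n.1))
        (hB.inter (measurableSet_spanningSets β n.2)) ?_ ?_
      · exact ((measure_mono inter_subset_right).trans_lt (measure_spanningSets_lt_top α n.1)).ne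
      · exact ((measure_mono inter_subset_right).trans_lt (measure_spanningSets_lt_top β n.2)).ne
    | compl s hs ih =>
      have h0 : ∫ p in R n, F p ∂(α.prod β) = 0 := by
        refine h _ _ (measurableSet_spanningSets α n.1) (measurableSet_spanningSets β n.2) ?_ ?_
        · exact (measure_spanningSets_lt_top α n.1).ne
        · exact (measure_spanningSets_lt_top β n.2).ne
      have h1 := integral_inter_add_sdiff (f := fun p => F p) (s := R n) (t := s) hs (hint n)
      rw [inter_comm s (R n)] at ih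
      rw [ih, zero_add, h0] at h1
      rw [inter_comm, ← sdiff_eq]
      exact h1
    | iUnion f hd hm ih =>
      rw [iUnion_inter]
      rw [integral_iUnion (fun i => (hm i).inter (hRm n))]
      · simp only [ih, tsum_zero]
      · intro i j hij
        exact (hd hij).mono inter_subset_left inter_subset_left
      · refine (hint n).mono_set ?_
        rw [← iUnion_inter]
        exact inter_subset_right
  have hae : ∀ n, (F : X × Y → ℂ) =ᵐ[(α.prod β).restrict (R n)] 0 := by
    intro n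
    refine Integrable.ae_eq_zero_of_forall_setIntegral_eq_zero (hint n) fun s hs _ => ?_
    rw [Measure.restrict_restrict hs]
    exact hzero n s hs
  have hU : ⋃ n, R n = univ := by
    rw [eq_univ_iff_forall]
    intro p
    rw [mem_iUnion]
    obtain ⟨m, hm⟩ := mem_iUnion.1 ((iUnion_spanningSets α).symm ▸ mem_univ p.1 :
      p.1 ∈ ⋃ i, spanningSets α i)
    obtain ⟨k, hk⟩ := mem_iUnion.1 ((iUnion_spanningSets β).symm ▸ mem_univ p.2 :
      p.2 ∈ ⋃ i, spanningSets β i)
    exact ⟨(m, k), hm, hk⟩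
  have hall : (F : X × Y → ℂ) =ᵐ[α.prod β] 0 := by
    have h1 : ∀ᵐ p ∂((α.prod β).restrict (⋃ n, R n)), (F : X × Y → ℂ) p = (0 : X × Y → ℂ) p :=
      (ae_restrict_iUnion_iff R _).2 hae
    rw [hU, Measure.restrict_univ] at h1
    exact h1
  exact (Lp.eq_zero_iff_ae_eq_zero).2 hall

end L2Tx

open L2Tx in
theorem t_L2T : L2T := by
  intro X Y _ _ α β _ _
  refine ⟨tt, ⟨fun x y x' y' => inner_T x x' y y', ?_⟩, fun f g => T_coe f g⟩
  rw [Submodule.topologicalClosure_eq_top_iff, Submodule.eq_bot_iff]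
  intro F hF
  rw [Submodule.mem_orthogonal] at hF
  refine zero_of_rect F fun A B hA hB hαA hβB => ?_
  have hAB : (α.prod β) (A ×ˢ B) ≠ ∞ := by
    rw [Measure.prod_prod]
    exact ENNReal.mul_ne_top hαA hβB
  have h1 := hF (T (indicatorConstLp 2 hA hαA (1 : ℂ)) (indicatorConstLp 2 hB hβB (1 : ℂ)))
    (Submodule.subset_span ⟨_, _, rfl⟩)
  rw [T_ind hA hB hαA hβB hAB, L2.inner_indicatorConstLp_one] at h1
  exact h1

end Pool.Agent.R283.QS
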