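import Pool.Agent.R283.QS.Stm

set_option autoImplicit false
set_option linter.unusedSectionVars false

open scoped InnerProductSpace ENNReal ComplexConjugate
open MeasureTheory Set Filter Topology

namespace Pool.Agent.R283.QS

namespace NBx

variable {H : Type} [NormedAddCommGroup H] [InnerProductSpace ℂ H] [CompleteSpace H]

/-- finite sums of vector functionals -/
def VF (f : (H →L[ℂ] H) → ℂ) : Prop :=
  ∃ (n : ℕ) (ξ η : Fin n → H), ∀ T, f T = ∑ i, ⟪ξ i, T (η i)⟫_ℂ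

theorem VF_zero : VF (fun _ : H →L[ℂ] H => (0 : ℂ)) :=
  ⟨0, Fin.elim0, Fin.elim0, fun T => by simp⟩

theorem VF_single (x y : H) : VF (fun T : H →L[ℂ] H => ⟪x, T y⟫_ℂ) :=
  ⟨1, fun _ => x, fun _ => y, fun T => by simp⟩

theorem VF_add {f g : (H →L[ℂ] H) → ℂ} (hf : VF f) (hg : VF g) : VF (fun T => f T + g T) := by
  obtain ⟨n, ξ, η, h⟩ := hf
  obtain ⟨m, ξ', η', h'⟩ := hg
  refine ⟨n + m, Fin.append ξ ξ', Fin.append η η', fun T => ?_⟩
  show f T + g T = _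
  rw [Fin.sum_univ_add, h, h']
  simp

theorem VF_smul (c : ℂ) {f : (H →L[ℂ] H) → ℂ} (hf : VF f) : VF (fun T => c * f T) := by
  obtain ⟨n, ξ, η, h⟩ := hf
  refine ⟨n, ξ, fun i => c • η i, fun T => ?_⟩
  show c * f T = _
  rw [h, Finset.mul_sum]
  refine Finset.sum_congr rfl fun i _ => ?_
  rw [map_smul, inner_smul_right]

theorem Nrm_iff (θ : (H →L[ℂ] H) →L[ℂ] ℂ) :
    Nrm θ ↔ ∀ ε > (0 : ℝ), ∃ f : (H →L[ℂ] H) → ℂ, VF f ∧ ∀ T, ‖θ T - f T‖ ≤ ε * ‖T‖ := by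
  constructor
  · intro h ε hε
    obtain ⟨n, ξ, η, hh⟩ := h ε hε
    exact ⟨fun T => ∑ i, ⟪ξ i, T (η i)⟫_ℂ, ⟨n, ξ, η, fun T => rfl⟩, hh⟩
  · intro h ε hε
    obtain ⟨f, ⟨n, ξ, η, hf⟩, hh⟩ := h ε hε
    refine ⟨n, ξ, η, fun T => ?_⟩
    rw [← hf]
    exact hh T

theorem rk_apply (u v x : H) : rk u v x = ⟪v, x⟫_ℂ • u := by
  simp [rk]

theorem mul_rk (T : H →L[ℂ] H) (u v : H) : T * rk u v = rk (T u) v := by
  ext x
  simp [rk_apply]

theorem rk_mul (T : H →L[ℂ] H) (u v : H) : rk u v * T = rk u (ContinuousLinearMap.adjoint T v) := by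
  ext x
  simp [rk_apply, ContinuousLinearMap.adjoint_inner_left]

theorem rk_add_left (u u' v : H) : rk (u + u') v = rk u v + rk u' v := by
  ext x
  simp [rk_apply]

theorem rk_smul_left (c : ℂ) (u v : H) : rk (c • u) v = c • rk u v := by
  ext x
  simp [rk_apply, smul_smul, mul_comm]

theorem rk_add_right (u v v' : H) : rk u (v + v') = rk u v + rk u v' := by
  ext x
  simp [rk_apply, add_smul]

theorem rk_smul_right (c : ℂ) (u v : H) : rk u (c • v) = (conj c) • rk u v := by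
  ext x
  simp [rk_apply, smul_smul, mul_comm]

theorem norm_rk_le (u v : H) : ‖rk u v‖ ≤ ‖u‖ * ‖v‖ := by
  refine ContinuousLinearMap.opNorm_le_bound _ (by positivity) fun x => ?_
  rw [rk_apply, norm_smul]
  have := norm_inner_le_norm (𝕜 := ℂ) v x
  nlinarith [norm_nonneg u, norm_nonneg v, norm_nonneg x]

theorem exL (φ : (H →L[ℂ] H) →L[ℂ] ℂ) (v : H) : ∃ z : H, ∀ u, φ (rk u v) = ⟪z, u⟫_ℂ := by
  let L : H →ₗ[ℂ] ℂ :=
    { toFun := fun u => φ (rk u v)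
      map_add' := fun a b => by rw [rk_add_left, map_add]
      map_smul' := fun c a => by rw [rk_smul_left, map_smul]; rfl }
  let L' : H →L[ℂ] ℂ := L.mkContinuous (‖φ‖ * ‖v‖) (fun u => by
    have h1 := φ.le_opNorm (rk u v)
    have h2 := norm_rk_le u v
    calc ‖L u‖ = ‖φ (rk u v)‖ := rfl
      _ ≤ ‖φ‖ * ‖rk u v‖ := h1
      _ ≤ ‖φ‖ * (‖u‖ * ‖v‖) := by gcongr
      _ = ‖φ‖ * ‖v‖ * ‖u‖ := by ring)
  refine ⟨(InnerProductSpace.toDual ℂ H).symm L', fun u => ?_⟩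
  rw [InnerProductSpace.toDual_symm_apply]
  rfl

theorem exR (φ : (H →L[ℂ] H) →L[ℂ] ℂ) (u : H) : ∃ z : H, ∀ v, φ (rk u v) = ⟪v, z⟫_ℂ := by
  let L : H →ₗ[ℂ] ℂ :=
    { toFun := fun v => conj (φ (rk u v))
      map_add' := fun a b => by rw [rk_add_right, map_add, map_add]
      map_smul' := fun c a => by rw [rk_smul_right, map_smul]; simp }
  let L' : H →L[ℂ] ℂ := L.mkContinuous (‖φ‖ * ‖u‖) (fun v => by
    have h1 := φ.le_opNorm (rk u v)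
    have h2 := norm_rk_le u v
    calc ‖L v‖ = ‖conj (φ (rk u v))‖ := rfl
      _ = ‖φ (rk u v)‖ := by simp
      _ ≤ ‖φ‖ * ‖rk u v‖ := h1
      _ ≤ ‖φ‖ * (‖u‖ * ‖v‖) := by gcongr
      _ = ‖φ‖ * ‖u‖ * ‖v‖ := by ring)
  refine ⟨(InnerProductSpace.toDual ℂ H).symm L', fun v => ?_⟩
  have h : ⟪(InnerProductSpace.toDual ℂ H).symm L', v⟫_ℂ = conj (φ (rk u v)) := by
    rw [InnerProductSpace.toDual_symm_apply]
    rfl
  rw [← inner_conj_symm, h]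
  simp

theorem VF_left (φ : (H →L[ℂ] H) →L[ℂ] ℂ) (c : H →L[ℂ] H)
    (hc : c ∈ Submodule.span ℂ {T : H →L[ℂ] H | ∃ u v, T = rk u v}) :
    VF (fun T : H →L[ℂ] H => φ (T * c)) := by
  induction hc using Submodule.span_induction with
  | mem x hx =>
    obtain ⟨u, v, rfl⟩ := hx
    obtain ⟨z, hz⟩ := exL φ v
    have : (fun T : H →L[ℂ] H => φ (T * rk u v)) = fun T => ⟪z, T u⟫_ℂ := by
      funext T
      rw [mul_rk, hz]
    rw [this]
    exact VF_single z u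
  | zero =>
    have : (fun T : H →L[ℂ] H => φ (T * 0)) = fun _ => 0 := by
      funext T
      rw [mul_zero, map_zero]
    rw [this]
    exact VF_zero
  | add x y _ _ hx hy =>
    have : (fun T : H →L[ℂ] H => φ (T * (x + y))) = fun T => φ (T * x) + φ (T * y) := by
      funext T
      rw [mul_add, map_add]
    rw [this]
    exact VF_add hx hy
  | smul a x _ hx =>
    have : (fun T : H →L[ℂ] H => φ (T * (a • x))) = fun T => a * φ (T * x) := by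
      funext T
      rw [mul_smul_comm, map_smul, smul_eq_mul]
    rw [this]
    exact VF_smul a hx

theorem VF_right (φ : (H →L[ℂ] H) →L[ℂ] ℂ) (c : H →L[ℂ] H)
    (hc : c ∈ Submodule.span ℂ {T : H →L[ℂ] H | ∃ u v, T = rk u v}) :
    VF (fun T : H →L[ℂ] H => φ (c * T)) := by
  induction hc using Submodule.span_induction with
  | mem x hx =>
    obtain ⟨u, v, rfl⟩ := hx
    obtain ⟨z, hz⟩ := exR φ u
    have : (fun T : H →L[ℂ] H => φ (rk u v * T)) = fun T => ⟪v, T z⟫_ℂ := by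
      funext T
      rw [rk_mul, hz, ContinuousLinearMap.adjoint_inner_left]
    rw [this]
    exact VF_single v z
  | zero =>
    have : (fun T : H →L[ℂ] H => φ (0 * T)) = fun _ => 0 := by
      funext T
      rw [zero_mul, map_zero]
    rw [this]
    exact VF_zero
  | add x y _ _ hx hy =>
    have : (fun T : H →L[ℂ] H => φ ((x + y) * T)) = fun T => φ (x * T) + φ (y * T) := by
      funext T
      rw [add_mul, map_add]
    rw [this]
    exact VF_add hx hy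
  | smul a x _ hx =>
    have : (fun T : H →L[ℂ] H => φ ((a • x) * T)) = fun T => a * φ (x * T) := by
      funext T
      rw [smul_mul_assoc, map_smul, smul_eq_mul]
    rw [this]
    exact VF_smul a hx

theorem approx {c : H →L[ℂ] H} (hc : c ∈ cpt H) {δ : ℝ} (hδ : 0 < δ) :
    ∃ c' ∈ Submodule.span ℂ {T : H →L[ℂ] H | ∃ u v, T = rk u v}, ‖c - c'‖ < δ := by
  have h : c ∈ closure ((Submodule.span ℂ {T : H →L[ℂ] H | ∃ u v, T = rk u v} :
      Submodule ℂ (H →L[ℂ] H)) : Set (H →L[ℂ] H)) := by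
    have := hc
    unfold cpt at this
    rwa [← SetLike.mem_coe, Submodule.topologicalClosure_coe] at this
  obtain ⟨c', hc', hd⟩ := Metric.mem_closure_iff.1 h δ hδ
  exact ⟨c', hc', by rwa [dist_eq_norm] at hd⟩

theorem bd (p ε x y : ℝ) (hp : 0 ≤ p) (hε : 0 < ε) (hy : 0 ≤ y) (hx : x < ε / (p + 1)) :
    p * (y * x) ≤ ε * y := by
  have h1 : x * (p + 1) < ε := by
    rwa [lt_div_iff₀ (by positivity)] at hx
  by_cases hx0 : 0 ≤ x
  · nlinarith [mul_nonneg hy hx0]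
  · push Not at hx0
    have : p * (y * x) ≤ 0 := mul_nonpos_of_nonneg_of_nonpos hp
      (mul_nonpos_of_nonneg_of_nonpos hy hx0.le)
    have : 0 ≤ ε * y := by positivity
    linarith

theorem part2 (φ θ : (H →L[ℂ] H) →L[ℂ] ℂ) (c : H →L[ℂ] H) (hc : c ∈ cpt H)
    (h : ∀ T, θ T = φ (T * c)) : Nrm θ := by
  rw [Nrm_iff]
  intro ε hε
  obtain ⟨c', hc', hd⟩ := approx hc (δ := ε / (‖φ‖ + 1)) (by positivity)
  refine ⟨_, VF_left φ c' hc', fun T => ?_⟩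
  rw [h, ← map_sub, ← mul_sub]
  calc ‖φ (T * (c - c'))‖ ≤ ‖φ‖ * ‖T * (c - c')‖ := φ.le_opNorm _
    _ ≤ ‖φ‖ * (‖T‖ * ‖c - c'‖) := by
        gcongr
        exact norm_mul_le _ _
    _ ≤ ε * ‖T‖ := bd _ _ _ _ (norm_nonneg _) hε (norm_nonneg _) hd

theorem part3 (φ θ : (H →L[ℂ] H) →L[ℂ] ℂ) (c : H →L[ℂ] H) (hc : c ∈ cpt H)
    (h : ∀ T, θ T = φ (c * T)) : Nrm θ := by
  rw [Nrm_iff]
  intro ε hε
  obtain ⟨c', hc', hd⟩ := approx hc (δ := ε / (‖φ‖ + 1)) (by positivity)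
  refine ⟨_, VF_right φ c' hc', fun T => ?_⟩
  rw [h, ← map_sub, ← sub_mul]
  calc ‖φ ((c - c') * T)‖ ≤ ‖φ‖ * ‖(c - c') * T‖ := φ.le_opNorm _
    _ ≤ ‖φ‖ * (‖c - c'‖ * ‖T‖) := by
        gcongr
        exact norm_mul_le _ _
    _ = ‖φ‖ * (‖T‖ * ‖c - c'‖) := by ring
    _ ≤ ε * ‖T‖ := bd _ _ _ _ (norm_nonneg _) hε (norm_nonneg _) hd

theorem part5 (c : ℂ) (θ : (H →L[ℂ] H) →L[ℂ] ℂ) (h : Nrm θ) : Nrm (c • θ) := by
  rw [Nrm_iff] at h ⊢
  intro ε hε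
  obtain ⟨f, hf, hb⟩ := h (ε / (‖c‖ + 1)) (by positivity)
  refine ⟨_, VF_smul c hf, fun T => ?_⟩
  have e : (c • θ) T - c * f T = c * (θ T - f T) := by
    simp [mul_sub]
  rw [e, norm_mul]
  have h1 := hb T
  have h2 : ‖c‖ * (ε / (‖c‖ + 1)) ≤ ε := by
    rw [← mul_div_assoc, div_le_iff₀ (by positivity)]
    nlinarith [norm_nonneg c]
  calc ‖c‖ * ‖θ T - f T‖ ≤ ‖c‖ * (ε / (‖c‖ + 1) * ‖T‖) := by gcongr
    _ = (‖c‖ * (ε / (‖c‖ + 1))) * ‖T‖ := by ring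
    _ ≤ ε * ‖T‖ := by gcongr

theorem part4a (θ θ' : (H →L[ℂ] H) →L[ℂ] ℂ) (h : Nrm θ) (h' : Nrm θ') : Nrm (θ + θ') := by
  rw [Nrm_iff] at h h' ⊢
  intro ε hε
  obtain ⟨f, hf, hb⟩ := h (ε / 2) (by positivity)
  obtain ⟨g, hg, hb'⟩ := h' (ε / 2) (by positivity)
  refine ⟨_, VF_add hf hg, fun T => ?_⟩
  have e : (θ + θ') T - (f T + g T) = (θ T - f T) + (θ' T - g T) := by
    show θ T + θ' T - (f T + g T) = _
    ring
  rw [e]
  calc ‖(θ T - f T) + (θ' T - g T)‖ ≤ ‖θ T - f T‖ + ‖θ' T - g T‖ := norm_add_le _ _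
    _ ≤ ε / 2 * ‖T‖ + ε / 2 * ‖T‖ := add_le_add (hb T) (hb' T)
    _ = ε * ‖T‖ := by ring

theorem part4b (θ θ' : (H →L[ℂ] H) →L[ℂ] ℂ) (h : Nrm θ) (h' : Nrm θ') : Nrm (θ - θ') := by
  have e : θ - θ' = θ + (-1 : ℂ) • θ' := by
    ext T
    show θ T - θ' T = θ T + (-1 : ℂ) * θ' T
    ring
  rw [e]
  exact part4a _ _ h (part5 _ _ h')

theorem part6 (θ : (H →L[ℂ] H) →L[ℂ] ℂ)
    (h : ∀ ε > (0 : ℝ), ∃ θ' : (H →L[ℂ] H) →L[ℂ] ℂ, Nrm θ' ∧ ‖θ - θ'‖ ≤ ε) : Nrm θ := by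
  rw [Nrm_iff]
  intro ε hε
  obtain ⟨θ', hn, hd⟩ := h (ε / 2) (by positivity)
  rw [Nrm_iff] at hn
  obtain ⟨f, hf, hb⟩ := hn (ε / 2) (by positivity)
  refine ⟨f, hf, fun T => ?_⟩
  have e : θ T - f T = (θ - θ') T + (θ' T - f T) := by
    show _ = (θ T - θ' T) + _
    ring
  rw [e]
  calc ‖(θ - θ') T + (θ' T - f T)‖ ≤ ‖(θ - θ') T‖ + ‖θ' T - f T‖ := norm_add_le _ _
    _ ≤ ‖θ - θ'‖ * ‖T‖ + ε / 2 * ‖T‖ := add_le_add ((θ - θ').le_opNorm T) (hb T)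
    _ ≤ ε / 2 * ‖T‖ + ε / 2 * ‖T‖ := by gcongr
    _ = ε * ‖T‖ := by ring

theorem mul_proj_mem (T : H →L[ℂ] H) (F : Submodule ℂ H) [FiniteDimensional ℂ F] :
    T * F.starProjection ∈ cpt H := by
  apply Submodule.le_topologicalClosure
  let b := stdOrthonormalBasis ℂ F
  have e : T * F.starProjection = ∑ i, rk (T (b i : H)) (b i : H) := by
    ext x
    have h1 : F.starProjection x = ∑ i, ⟪(b i : H), x⟫_ℂ • (b i : H) := by
      rw [b.starProjection_eq_sum_rankOne]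
      simp
    simp [h1, rk_apply]
  rw [e]
  exact Submodule.sum_mem _ fun i _ => Submodule.subset_span ⟨_, _, rfl⟩

theorem part1 (θ : (H →L[ℂ] H) →L[ℂ] ℂ) (h : Nrm θ) (h0 : ∀ c ∈ cpt H, θ c = 0) : θ = 0 := by
  ext T
  have key : ∀ ε > (0 : ℝ), ‖θ T‖ ≤ 2 * ε * ‖T‖ := by
    intro ε hε
    obtain ⟨n, ξ, η, hb⟩ := h ε hε
    let F : Submodule ℂ H := Submodule.span ℂ (Set.range η)
    have : FiniteDimensional ℂ F := FiniteDimensional.span_of_finite ℂ (Set.finite_range η)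
    have hT' : θ (T * F.starProjection) = 0 := h0 _ (mul_proj_mem T F)
    have hs : ∑ i, ⟪ξ i, (T * F.starProjection) (η i)⟫_ℂ = ∑ i, ⟪ξ i, T (η i)⟫_ℂ := by
      refine Finset.sum_congr rfl fun i _ => ?_
      have : F.starProjection (η i) = η i :=
        Submodule.starProjection_eq_self_iff.2 (Submodule.subset_span ⟨i, rfl⟩)
      show ⟪ξ i, T (F.starProjection (η i))⟫_ℂ = _
      rw [this]
    have hn : ‖T * F.starProjection‖ ≤ ‖T‖ := by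
      calc ‖T * F.starProjection‖ ≤ ‖T‖ * ‖F.starProjection‖ := norm_mul_le _ _
        _ ≤ ‖T‖ * 1 := by
            gcongr
            exact Submodule.starProjection_norm_le F
        _ = ‖T‖ := mul_one _
    have h1 := hb T
    have h2 := hb (T * F.starProjection)
    rw [hT', hs] at h2
    have e : θ T = (θ T - ∑ i, ⟪ξ i, T (η i)⟫_ℂ) - (0 - ∑ i, ⟪ξ i, T (η i)⟫_ℂ) := by ring
    rw [e]
    calc ‖(θ T - ∑ i, ⟪ξ i, T (η i)⟫_ℂ) - (0 - ∑ i, ⟪ξ i, T (η i)⟫_ℂ)‖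
        ≤ ‖θ T - ∑ i, ⟪ξ i, T (η i)⟫_ℂ‖ + ‖0 - ∑ i, ⟪ξ i, T (η i)⟫_ℂ‖ := norm_sub_le _ _
      _ ≤ ε * ‖T‖ + ε * ‖T * F.starProjection‖ := add_le_add h1 h2
      _ ≤ ε * ‖T‖ + ε * ‖T‖ := by gcongr
      _ = 2 * ε * ‖T‖ := by ring
  have hz : ‖θ T‖ ≤ 0 := by
    refine le_of_forall_pos_le_add fun δ hδ => ?_
    have h1 := key (δ / (2 * (‖T‖ + 1))) (by positivity)
    have h2 : 2 * (δ / (2 * (‖T‖ + 1))) * ‖T‖ ≤ δ := by
      have : 2 * (δ / (2 * (‖T‖ + 1))) * ‖T‖ = δ * ‖T‖ / (‖T‖ + 1) := by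
        field_simp
      rw [this, div_le_iff₀ (by positivity)]
      nlinarith [norm_nonneg T]
    linarith
  simpa using hz

end NBx

theorem t_SNB : SNB := by
  intro H _ _ _
  exact ⟨fun θ h h0 => NBx.part1 θ h h0, fun φ θ c hc h => NBx.part2 φ θ c hc h,
    fun φ θ c hc h => NBx.part3 φ θ c hc h,
    fun θ θ' h h' => ⟨NBx.part4a θ θ' h h', NBx.part4b θ θ' h h'⟩,
    fun c θ h => NBx.part5 c θ h, fun θ h => NBx.part6 θ h⟩

end Pool.Agent.R283.QS
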