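import Pool.Agent.R283.QS.Stm

/-! QS-ND (MP_43823f_an): `T ↦ ⟪ζ, Δ(T) ζ'⟫` is normal. helper710. -/

set_option autoImplicit false

open scoped InnerProductSpace

namespace Pool.Agent.R283.QS

namespace NDx

variable {H L K' : Type}
  [NormedAddCommGroup H] [InnerProductSpace ℂ H] [CompleteSpace H]
  [NormedAddCommGroup L] [InnerProductSpace ℂ L] [CompleteSpace L]
  [NormedAddCommGroup K'] [InnerProductSpace ℂ K'] [CompleteSpace K']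

theorem nrm_of_fintype (θ : (H →L[ℂ] H) →L[ℂ] ℂ)
    (h : ∀ ε > (0 : ℝ), ∃ (ι : Type) (_ : Fintype ι) (ξ η : ι → H),
      ∀ T, ‖θ T - ∑ i, ⟪ξ i, T (η i)⟫_ℂ‖ ≤ ε * ‖T‖) : Nrm θ := by
  intro ε hε
  obtain ⟨ι, _, ξ, η, h1⟩ := h ε hε
  let e := Fintype.equivFin ι
  refine ⟨Fintype.card ι, ξ ∘ e.symm, η ∘ e.symm, fun T => ?_⟩
  have h2 : ∑ i, ⟪(ξ ∘ e.symm) i, T ((η ∘ e.symm) i)⟫_ℂ = ∑ i, ⟪ξ i, T (η i)⟫_ℂ :=
    Equiv.sum_comp e.symm (fun i => ⟪ξ i, T (η i)⟫_ℂ)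
  rw [h2]
  exact h1 T

theorem approx (r : H →ₗ[ℂ] L →ₗ[ℂ] K') (hr : IsHT r) (α : K') (δ : ℝ) (hδ : 0 < δ) :
    ∃ (n : ℕ) (p : Fin n → H) (q : Fin n → L), ‖α - ∑ i, r (p i) (q i)‖ < δ := by
  have h1 : α ∈ (Submodule.span ℂ {z | ∃ x y, z = r x y}).topologicalClosure := by
    rw [hr.total]; trivial
  rw [← SetLike.mem_coe, Submodule.topologicalClosure_coe, Metric.mem_closure_iff] at h1
  obtain ⟨α', hα', hd⟩ := h1 δ hδ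
  obtain ⟨n, f, g, hfg⟩ := Submodule.mem_span_set'.1 hα'
  choose x y hxy using fun i => (g i).2
  refine ⟨n, fun i => f i • x i, y, ?_⟩
  have h2 : ∑ i, r (f i • x i) (y i) = α' := by
    rw [← hfg]
    refine Finset.sum_congr rfl fun i _ => ?_
    rw [hxy i, map_smul, LinearMap.smul_apply]
  rw [h2, ← dist_eq_norm]
  exact hd

end NDx

open NDx

theorem t_SND : SND := by
  intro H L K' K _ _ _ _ _ _ _ _ _ _ _ _ r U amp hr hamp ζ ζ' θ hθ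
  apply nrm_of_fintype
  intro ε hε
  obtain ⟨α, hα⟩ : ∃ α, α = U.symm ζ := ⟨_, rfl⟩
  obtain ⟨β, hβ⟩ : ∃ β, β = U.symm ζ' := ⟨_, rfl⟩
  have hθ' : ∀ T, θ T = ⟪α, amp T β⟫_ℂ := by
    intro T
    rw [hθ T, hα, hβ]
    have h1 : Del U amp T ζ' = U (amp T (U.symm ζ')) := rfl
    rw [h1]
    conv_lhs => rw [← U.apply_symm_apply ζ]
    rw [U.inner_map_map]
  obtain ⟨n, p, q, h1⟩ := approx r hr α (min 1 (ε / (2 * (‖β‖ + 1)))) (by positivity)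
  obtain ⟨m, p', q', h2⟩ := approx r hr β (ε / (2 * (‖α‖ + 2))) (by positivity)
  obtain ⟨α', hα'⟩ : ∃ α', α' = ∑ i, r (p i) (q i) := ⟨_, rfl⟩
  obtain ⟨β', hβ'⟩ : ∃ β', β' = ∑ i, r (p' i) (q' i) := ⟨_, rfl⟩
  rw [← hα'] at h1
  rw [← hβ'] at h2
  have h3 : ‖α - α'‖ < 1 := h1.trans_le (min_le_left _ _)
  have h4 : ‖α - α'‖ < ε / (2 * (‖β‖ + 1)) := h1.trans_le (min_le_right _ _)
  refine ⟨Fin n × Fin m, inferInstance, fun i => p i.1, fun i => ⟪q i.1, q' i.2⟫_ℂ • p' i.2,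
    fun T => ?_⟩
  have h5 : ∑ i : Fin n × Fin m, ⟪p i.1, T (⟪q i.1, q' i.2⟫_ℂ • p' i.2)⟫_ℂ =
      ⟪α', amp T β'⟫_ℂ := by
    rw [hα', hβ', map_sum, sum_inner, Fintype.sum_prod_type]
    refine Finset.sum_congr rfl fun i _ => ?_
    rw [inner_sum]
    refine Finset.sum_congr rfl fun j _ => ?_
    rw [hamp.1, hr.inner, map_smul, inner_smul_right, mul_comm]
  rw [h5, hθ' T]
  have h6 : ⟪α, amp T β⟫_ℂ - ⟪α', amp T β'⟫_ℂ =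
      ⟪α - α', amp T β⟫_ℂ + ⟪α', amp T (β - β')⟫_ℂ := by
    rw [inner_sub_left, map_sub, inner_sub_right]
    ring
  rw [h6]
  have h7 : ‖⟪α - α', amp T β⟫_ℂ‖ ≤ ε / 2 * ‖T‖ := by
    have e1 := norm_inner_le_norm (𝕜 := ℂ) (α - α') (amp T β)
    have e2 : ‖amp T β‖ ≤ ‖T‖ * ‖β‖ :=
      ((amp T).le_opNorm β).trans (mul_le_mul_of_nonneg_right (hamp.2 T) (norm_nonneg _))
    have e3 : ‖α - α'‖ * ‖amp T β‖ ≤ (ε / (2 * (‖β‖ + 1))) * (‖T‖ * ‖β‖) :=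
      mul_le_mul h4.le e2 (norm_nonneg _) (by positivity)
    have e4 : (ε / (2 * (‖β‖ + 1))) * (‖T‖ * ‖β‖) = ε / 2 * ‖T‖ * (‖β‖ / (‖β‖ + 1)) := by
      field_simp
    have e5 : ‖β‖ / (‖β‖ + 1) ≤ 1 := by
      rw [div_le_one (by positivity)]
      linarith
    have e6 : ε / 2 * ‖T‖ * (‖β‖ / (‖β‖ + 1)) ≤ ε / 2 * ‖T‖ * 1 :=
      mul_le_mul_of_nonneg_left e5 (by positivity)
    linarith
  have h8 : ‖⟪α', amp T (β - β')⟫_ℂ‖ ≤ ε / 2 * ‖T‖ := by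
    have e0 : ‖α'‖ ≤ ‖α‖ + 2 := by
      have := norm_sub_norm_le α' α
      rw [norm_sub_rev] at this
      linarith
    have e1 := norm_inner_le_norm (𝕜 := ℂ) α' (amp T (β - β'))
    have e2 : ‖amp T (β - β')‖ ≤ ‖T‖ * ‖β - β'‖ :=
      ((amp T).le_opNorm _).trans (mul_le_mul_of_nonneg_right (hamp.2 T) (norm_nonneg _))
    have e3 : ‖T‖ * ‖β - β'‖ ≤ ‖T‖ * (ε / (2 * (‖α‖ + 2))) :=
      mul_le_mul_of_nonneg_left h2.le (norm_nonneg _)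
    have e4 : ‖α'‖ * ‖amp T (β - β')‖ ≤ (‖α‖ + 2) * (‖T‖ * (ε / (2 * (‖α‖ + 2)))) :=
      mul_le_mul e0 (e2.trans e3) (norm_nonneg _) (by positivity)
    have e5 : (‖α‖ + 2) * (‖T‖ * (ε / (2 * (‖α‖ + 2)))) = ε / 2 * ‖T‖ := by
      field_simp
    linarith
  calc ‖⟪α - α', amp T β⟫_ℂ + ⟪α', amp T (β - β')⟫_ℂ‖
      ≤ ‖⟪α - α', amp T β⟫_ℂ‖ + ‖⟪α', amp T (β - β')⟫_ℂ‖ := norm_add_le _ _
    _ ≤ ε * ‖T‖ := by linarith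

end Pool.Agent.R283.QS
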