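import Pool.Agent.R283.QS.Stm

set_option autoImplicit false

open scoped InnerProductSpace ENNReal BoundedContinuousFunction
open MeasureTheory Set Filter Topology

namespace Pool.Agent.R283.QS

namespace PFOproof

/-- the closed ball of radius `r` as a subgroup -/
noncomputable def ball (r : ℝ) (hr : 0 ≤ r) : AddSubgroup ℚ_[2] where
  carrier := {x | ‖x‖ ≤ r}
  zero_mem' := by simpa using hr
  add_mem' := by
    intro a b ha hb
    exact (Padic.nonarchimedean a b).trans (max_le ha hb)
  neg_mem' := by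
    intro a ha
    simpa using ha

noncomputable def cc : AddCircle (1 : ℚ) →+ AddCircle (1 : ℝ) :=
  QuotientAddGroup.map _ _ ((Rat.castHom ℝ : ℚ →+* ℝ) : ℚ →+ ℝ) (by
    intro x hx
    obtain ⟨n, rfl⟩ := AddSubgroup.mem_zmultiples_iff.1 hx
    refine AddSubgroup.mem_comap.2 (AddSubgroup.mem_zmultiples_iff.2 ⟨n, ?_⟩)
    simp)

lemma cc_ne {a : AddCircle (1 : ℚ)} (ha : a ≠ 0) : cc a ≠ 0 := by
  induction a using QuotientAddGroup.induction_on with
  | H q =>
    intro h
    apply ha
    have h2 : ((q : ℝ) : AddCircle (1 : ℝ)) = 0 := by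
      have h' : cc (QuotientAddGroup.mk q) = (((Rat.castHom ℝ) q : ℝ) : AddCircle (1 : ℝ)) := rfl
      rw [h'] at h
      simpa using h
    obtain ⟨n, hn⟩ := (AddCircle.coe_eq_zero_iff (1 : ℝ)).1 h2
    have h3 : (n : ℚ) = q := by
      have : ((n : ℚ) : ℝ) = (q : ℝ) := by
        rw [← hn]; simp
      exact_mod_cast this
    exact (AddCircle.coe_eq_zero_iff (1 : ℚ)).2 ⟨n, by simpa using h3⟩

/-- characters separate points -/
lemma exists_char (z : ℚ_[2]) (hz : z ≠ 0) : ∃ c : LCChar, c.χ z ≠ 1 := by
  have hz' : 0 < ‖z‖ := norm_pos_iff.2 hz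
  set r : ℝ := ‖z‖ / 2 with hr
  have hr0 : 0 < r := by positivity
  let N := ball r hr0.le
  have hne : (QuotientAddGroup.mk z : ℚ_[2] ⧸ N) ≠ 0 := by
    intro h
    have h1 := (QuotientAddGroup.eq_zero_iff z).1 h
    have h2 : ‖z‖ ≤ r := h1
    linarith
  obtain ⟨c, hc⟩ := CharacterModule.exists_character_apply_ne_zero_of_ne_zero hne
  let φ : ℚ_[2] →+ AddCircle (1 : ℝ) := cc.comp (AddMonoidHom.comp (c : (ℚ_[2] ⧸ N) →+ AddCircle (1 : ℚ)) (QuotientAddGroup.mk' N))
  have hφ : φ z ≠ 0 := cc_ne hc
  refine ⟨⟨fun x => (AddCircle.toCircle (φ x) : ℂ), ?_, ?_, r, hr0, ?_⟩, ?_⟩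
  · intro x y
    change ((AddCircle.toCircle (φ (x + y)) : Circle) : ℂ) = (AddCircle.toCircle (φ x) : Circle) * (AddCircle.toCircle (φ y) : Circle)
    rw [map_add, AddCircle.toCircle_add, Circle.coe_mul]
  · intro x
    exact Circle.norm_coe _
  · intro x hx
    have h1 : φ x = 0 := by
      have : (QuotientAddGroup.mk' N x) = 0 := (QuotientAddGroup.eq_zero_iff x).2 hx
      change cc (c (QuotientAddGroup.mk' N x)) = 0
      rw [this, map_zero, map_zero]
    change ((AddCircle.toCircle (φ x) : Circle) : ℂ) = 1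
    rw [h1, AddCircle.toCircle_zero, Circle.coe_one]
  · intro h
    apply hφ
    apply AddCircle.injective_toCircle (T := (1 : ℝ)) one_ne_zero
    rw [AddCircle.toCircle_zero]
    exact Circle.ext (by simpa using h)

lemma LCChar.zero (c : LCChar) : c.χ 0 = 1 := by
  have h1 := c.add 0 0
  have h2 : c.χ 0 ≠ 0 := by
    intro h
    have := c.norm 0
    rw [h] at this
    simp at this
  rw [add_zero] at h1
  exact (mul_eq_left₀ h2).1 h1.symm

lemma LCChar.cont (c : LCChar) : Continuous c.χ := by
  obtain ⟨r, hr, h⟩ := c.lc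
  rw [Metric.continuous_iff]
  intro b ε hε
  refine ⟨r, hr, fun a ha => ?_⟩
  have h1 : c.χ a = c.χ b := by
    have h2 : a = b + (a - b) := by ring
    rw [h2, c.add, h (a - b) (by rw [← dist_eq_norm]; exact ha.le), mul_one]
  rw [h1, dist_self]
  exact hε

noncomputable def toB (c : LCChar) : ℚ_[2] →ᵇ ℂ :=
  BoundedContinuousFunction.ofNormedAddCommGroup c.χ (LCChar.cont c) 1 fun x => (c.norm x).le

def triv : LCChar := ⟨fun _ => 1, by simp, by simp, 1, one_pos, by simp⟩

def mulc (c d : LCChar) : LCChar where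
  χ x := c.χ x * d.χ x
  add x y := by rw [c.add, d.add]; ring
  norm x := by rw [norm_mul, c.norm, d.norm, one_mul]
  lc := by
    obtain ⟨r, hr, h⟩ := c.lc
    obtain ⟨s, hs, h'⟩ := d.lc
    exact ⟨min r s, lt_min hr hs, fun x hx => by
      rw [h x (hx.trans (min_le_left _ _)), h' x (hx.trans (min_le_right _ _)), one_mul]⟩

noncomputable def conjc (c : LCChar) : LCChar where
  χ x := (starRingEnd ℂ) (c.χ x)
  add x y := by rw [c.add, map_mul]
  norm x := by rw [RCLike.norm_conj, c.norm]
  lc := by
    obtain ⟨r, hr, h⟩ := c.lc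
    exact ⟨r, hr, fun x hx => by rw [h x hx, map_one]⟩

def SS : Set (ℚ_[2] →ᵇ ℂ) := {g | ∃ c : LCChar, g = toB c}

lemma toB_mul (c d : LCChar) : toB c * toB d = toB (mulc c d) := by
  ext x; rfl

lemma toB_star (c : LCChar) : star (toB c) = toB (conjc c) := by
  ext x; rfl

lemma toB_one : (1 : ℚ_[2] →ᵇ ℂ) = toB triv := by
  ext x; rfl

noncomputable def AA : StarSubalgebra ℂ (ℚ_[2] →ᵇ ℂ) where
  carrier := (Submodule.span ℂ SS : Submodule ℂ (ℚ_[2] →ᵇ ℂ))
  mul_mem' := by
    intro a b ha hb
    have h1 : a * b ∈ Submodule.span ℂ SS * Submodule.span ℂ SS := Submodule.mul_mem_mul ha hb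
    rw [Submodule.span_mul_span] at h1
    refine Submodule.span_mono ?_ h1
    rintro _ ⟨_, ⟨c, rfl⟩, _, ⟨d, rfl⟩, rfl⟩
    exact ⟨mulc c d, toB_mul c d⟩
  one_mem' := Submodule.subset_span ⟨triv, toB_one⟩
  add_mem' := fun ha hb => Submodule.add_mem _ ha hb
  zero_mem' := Submodule.zero_mem _
  algebraMap_mem' := by
    intro r
    rw [Algebra.algebraMap_eq_smul_one]
    exact Submodule.smul_mem _ _ (Submodule.subset_span ⟨triv, toB_one⟩)
  star_mem' := by
    intro a ha
    change a ∈ Submodule.span ℂ SS at ha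
    change star a ∈ Submodule.span ℂ SS
    induction ha using Submodule.span_induction with
    | mem x hx =>
      obtain ⟨c, rfl⟩ := hx
      exact Submodule.subset_span ⟨conjc c, toB_star c⟩
    | zero => simp
    | add x y _ _ hx hy => rw [star_add]; exact Submodule.add_mem _ hx hy
    | smul a x _ hx => rw [star_smul]; exact Submodule.smul_mem _ _ hx

lemma AA_sep : (AA.map (BoundedContinuousFunction.toContinuousMapStarₐ ℂ)).SeparatesPoints := by
  intro x y hxy
  obtain ⟨c, hc⟩ := exists_char (x - y) (sub_ne_zero.2 hxy)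
  refine ⟨c.χ, ?_, ?_⟩
  · refine ⟨BoundedContinuousFunction.toContinuousMapStarₐ ℂ (toB c), ?_, rfl⟩
    exact ⟨toB c, Submodule.subset_span ⟨c, rfl⟩, rfl⟩
  · intro h
    apply hc
    have h1 : c.χ x = c.χ (x - y) * c.χ y := by
      rw [← c.add, sub_add_cancel]
    have h2 : c.χ y ≠ 0 := by
      intro h'
      have := c.norm y
      rw [h'] at this
      simp at this
    rw [h] at h1
    exact mul_right_cancel₀ h2 (by rw [← h1, one_mul])

/-- real functions -/
lemma real_case (u : ℚ_[2] → ℝ) (hu : Integrable u kap)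
    (h : ∀ g ∈ AA, ∫ y, g y * (u y : ℂ) ∂kap = 0) : u =ᵐ[kap] 0 := by
  set P : Measure ℚ_[2] := kap.withDensity fun y => ENNReal.ofReal (u y) with hP
  set P' : Measure ℚ_[2] := kap.withDensity fun y => ENNReal.ofReal (-u y) with hP'
  have hf1 : ∫⁻ y, ENNReal.ofReal (u y) ∂kap ≠ ∞ := by
    have := hu.lintegral_lt_top
    exact this.ne
  have hf2 : ∫⁻ y, ENNReal.ofReal (-u y) ∂kap ≠ ∞ := by
    have := hu.neg.lintegral_lt_top
    exact this.ne
  have i1 : IsFiniteMeasure P := isFiniteMeasure_withDensity hf1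
  have i2 : IsFiniteMeasure P' := isFiniteMeasure_withDensity hf2
  have hm1 : AEMeasurable (fun y => ENNReal.ofReal (u y)) kap := hu.aemeasurable.ennreal_ofReal
  have hm2 : AEMeasurable (fun y => ENNReal.ofReal (-u y)) kap := hu.aemeasurable.neg.ennreal_ofReal
  have hPP : P = P' := by
    refine ext_of_forall_mem_subalgebra_integral_eq_of_pseudoEMetric_complete_countable AA_sep ?_
    intro g hg
    rw [hP, hP', integral_withDensity_eq_integral_toReal_smul₀ hm1 (by simp),
      integral_withDensity_eq_integral_toReal_smul₀ hm2 (by simp)]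
    have hgb : ∀ y, ‖g y‖ ≤ ‖g‖ := g.norm_coe_le_norm
    have j1 : Integrable (fun y => (ENNReal.ofReal (u y)).toReal • g y) kap := by
      have hk : Integrable (fun y => (ENNReal.ofReal (u y)).toReal) kap := by
        have := hu.pos_part
        refine this.congr (Eventually.of_forall fun y => ?_)
        simp [ENNReal.toReal_ofReal']
      exact hk.smul_of_top_left (memLp_top_of_bound g.continuous.aestronglyMeasurable ‖g‖ (Eventually.of_forall hgb))
    have j2 : Integrable (fun y => (ENNReal.ofReal (-u y)).toReal • g y) kap := by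
      have hk : Integrable (fun y => (ENNReal.ofReal (-u y)).toReal) kap := by
        have := hu.neg.pos_part
        refine this.congr (Eventually.of_forall fun y => ?_)
        simp [ENNReal.toReal_ofReal']
      exact hk.smul_of_top_left (memLp_top_of_bound g.continuous.aestronglyMeasurable ‖g‖ (Eventually.of_forall hgb))
    rw [← sub_eq_zero, ← integral_sub j1 j2]
    rw [← h g hg]
    refine integral_congr_ae (Eventually.of_forall fun y => ?_)
    simp only [ENNReal.toReal_ofReal']
    rw [← sub_smul]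
    have : max (u y) 0 - max (-u y) 0 = u y := by
      rcases le_total 0 (u y) with h0 | h0
      · rw [max_eq_left h0, max_eq_right (by linarith)]; ring
      · rw [max_eq_right h0, max_eq_left (by linarith)]; ring
    rw [this, Complex.real_smul, mul_comm]
  have h3 : (fun y => ENNReal.ofReal (u y)) =ᵐ[kap] fun y => ENNReal.ofReal (-u y) :=
    (withDensity_eq_iff hm1 hm2 hf1).1 hPP
  filter_upwards [h3] with y hy
  have h4 := congrArg ENNReal.toReal hy
  simp only [ENNReal.toReal_ofReal'] at h4
  simp only [Pi.zero_apply]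
  rcases le_total 0 (u y) with h0 | h0
  · rw [max_eq_left h0, max_eq_right (by linarith)] at h4; exact h4
  · rw [max_eq_right h0, max_eq_left (by linarith)] at h4; linarith

end PFOproof

open PFOproof in
theorem t_PFO : PFO := by
  intro m hm h
  have hint : ∀ g : ℚ_[2] →ᵇ ℂ, Integrable (fun y => g y * m y) kap := by
    intro g
    exact hm.bdd_mul (c := ‖g‖) (g.continuous.aestronglyMeasurable) (Eventually.of_forall g.norm_coe_le_norm)
  have h1 : ∀ g ∈ AA, ∫ y, g y * m y ∂kap = 0 := by
    intro g hg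
    change g ∈ Submodule.span ℂ SS at hg
    induction hg using Submodule.span_induction with
    | mem x hx =>
      obtain ⟨c, rfl⟩ := hx
      exact h c
    | zero => simp
    | add x y _ _ hx hy =>
      simp only [BoundedContinuousFunction.coe_add, Pi.add_apply, add_mul]
      rw [integral_add (hint x) (hint y), hx, hy, add_zero]
    | smul a x _ hx =>
      simp only [BoundedContinuousFunction.coe_smul, smul_eq_mul, mul_assoc]
      rw [integral_const_mul, hx, mul_zero]
  have h2 : ∀ g ∈ AA, ∫ y, g y * (starRingEnd ℂ) (m y) ∂kap = 0 := by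
    intro g hg
    have h3 := h1 (star g) (star_mem hg)
    have h4 : ∫ y, g y * (starRingEnd ℂ) (m y) ∂kap =
        (starRingEnd ℂ) (∫ y, (star g) y * m y ∂kap) := by
      rw [← integral_conj]
      refine integral_congr_ae (Eventually.of_forall fun y => ?_)
      simp
    rw [h4, h3, map_zero]
  have hcj : Integrable (fun y => (starRingEnd ℂ) (m y)) kap := by
    have := (Complex.conjCLE : ℂ →L[ℝ] ℂ).integrable_comp hm
    simpa using this
  have hint2 : ∀ g : ℚ_[2] →ᵇ ℂ, Integrable (fun y => g y * (starRingEnd ℂ) (m y)) kap := by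
    intro g
    exact hcj.bdd_mul (c := ‖g‖) (g.continuous.aestronglyMeasurable) (Eventually.of_forall g.norm_coe_le_norm)
  have hre : (fun y => (m y).re) =ᵐ[kap] 0 := by
    refine real_case _ hm.re fun g hg => ?_
    have : ∀ y, g y * (((m y).re : ℝ) : ℂ) = (1 / 2 : ℂ) * (g y * m y + g y * (starRingEnd ℂ) (m y)) := by
      intro y
      rw [Complex.re_eq_add_conj]; ring
    simp only [this]
    rw [integral_const_mul, integral_add (hint g) (hint2 g), h1 g hg, h2 g hg]
    simp
  have him : (fun y => (m y).im) =ᵐ[kap] 0 := by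
    refine real_case _ hm.im fun g hg => ?_
    have : ∀ y, g y * (((m y).im : ℝ) : ℂ) = (1 / (2 * Complex.I) : ℂ) * (g y * m y - g y * (starRingEnd ℂ) (m y)) := by
      intro y
      rw [Complex.im_eq_sub_conj]; ring
    simp only [this]
    rw [integral_const_mul, integral_sub (hint g) (hint2 g), h1 g hg, h2 g hg]
    simp
  filter_upwards [hre, him] with y h3 h4
  exact Complex.ext (by simpa using h3) (by simpa using h4)

end Pool.Agent.R283.QS
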