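import Pool.Agent.R283.QS.Stm

set_option autoImplicit false

open scoped ENNReal
open MeasureTheory Set Filter Topology

namespace Pool.Agent.R283.QS

noncomputable section

/-- the density of `kap` -/
def kden (y : ℚ_[2]) : ℝ≥0∞ := ENNReal.ofReal ‖y‖⁻¹

lemma kden_meas : Measurable kden := by
  unfold kden
  exact ENNReal.measurable_ofReal.comp (measurable_norm.inv)

/-- the density of `sig` -/
def sden (s : ℚ_[2]) : ℝ≥0∞ := ENNReal.ofReal (‖s‖⁻¹ * ‖1 - s‖⁻¹)

lemma sden_meas : Measurable sden := by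
  unfold sden
  refine ENNReal.measurable_ofReal.comp ?_
  exact (measurable_norm.inv).mul ((measurable_norm.comp (measurable_const.sub measurable_id)).inv)

lemma kap_eq : kap = mu.withDensity kden := rfl
lemma sig_eq : sig = mu.withDensity sden := rfl

instance : mu.IsAddHaarMeasure := by unfold mu; infer_instance

instance : SigmaFinite mu := by unfold mu; infer_instance

lemma mu_zero : mu {0} = 0 := measure_singleton 0

instance kap_sf : SigmaFinite kap := by
  unfold kap
  exact SigmaFinite.withDensity_ofReal _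

instance sig_sf : SigmaFinite sig := by
  unfold sig
  exact SigmaFinite.withDensity_ofReal _

lemma kden_zero : kden 0 = 0 := by simp [kden]

lemma kap_zero : kap {0} = 0 := by
  rw [kap_eq, withDensity_apply _ (measurableSet_singleton 0)]
  simp

lemma kden_mul (a y : ℚ_[2]) : kden (a * y) = kden a * kden y := by
  unfold kden
  rw [norm_mul, mul_inv, ENNReal.ofReal_mul (by positivity)]

lemma kden_ne_top (a : ℚ_[2]) : kden a ≠ ⊤ := ENNReal.ofReal_ne_top

lemma kden_norm {a : ℚ_[2]} (ha : a ≠ 0) : ENNReal.ofReal ‖a‖ * kden a = 1 := by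
  unfold kden
  rw [← ENNReal.ofReal_mul (norm_nonneg a), mul_inv_cancel₀ (norm_ne_zero_iff.2 ha)]
  simp

theorem t_PKI (hS : PSC) : PKI := by
  refine ⟨kap_sf, sig_sf, kap_zero, fun a ha => ?_⟩
  have hm : Measurable (fun y : ℚ_[2] => a * y) := measurable_const_mul a
  refine ⟨hm, ?_⟩
  refine Measure.ext_of_lintegral _ fun f hf => ?_
  rw [lintegral_map hf hm, kap_eq]
  have e1 : ∫⁻ y, f (a * y) ∂(mu.withDensity kden) = ∫⁻ y, (kden * fun y => f (a * y)) y ∂mu :=
    lintegral_withDensity_eq_lintegral_mul _ kden_meas (hf.comp hm)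
  rw [e1, lintegral_withDensity_eq_lintegral_mul _ kden_meas hf]
  simp only [Pi.mul_apply]
  have h1 : ∀ y : ℚ_[2], kden y * f (a * y) =
      ENNReal.ofReal ‖a‖ * (fun z => kden z * f z) (a * y) := by
    intro y
    simp only
    rw [kden_mul, mul_assoc (kden a), ← mul_assoc, kden_norm ha, one_mul]
  have hG : Measurable (fun z => kden z * f z) := kden_meas.mul hf
  have h2 : ENNReal.ofReal ‖a‖ * ENNReal.ofReal ‖a‖⁻¹ = 1 := kden_norm ha
  calc ∫⁻ y, kden y * f (a * y) ∂mu
      = ∫⁻ y, ENNReal.ofReal ‖a‖ * (fun z => kden z * f z) (a * y) ∂mu := lintegral_congr h1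
    _ = ENNReal.ofReal ‖a‖ * ∫⁻ y, (fun z => kden z * f z) (a * y) ∂mu :=
        lintegral_const_mul _ (hG.comp hm)
    _ = ENNReal.ofReal ‖a‖ * (ENNReal.ofReal ‖a‖⁻¹ * ∫⁻ y, (fun z => kden z * f z) y ∂mu) := by
        rw [hS a ha _ hG]
    _ = ∫⁻ y, kden y * f y ∂mu := by rw [← mul_assoc, h2, one_mul]

/-- the map `(s, t) ↦ (s t, s (1 - t))` -/
def psi (p : ℚ_[2] × ℚ_[2]) : ℚ_[2] × ℚ_[2] := (p.1 * p.2, p.1 * (1 - p.2))

/-- the map `(y, z) ↦ (y + z, y / (y + z))` -/
def phi (p : ℚ_[2] × ℚ_[2]) : ℚ_[2] × ℚ_[2] := (p.1 + p.2, p.1 / (p.1 + p.2))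

lemma psi_meas : Measurable psi := by
  have h1 : Measurable fun p : ℚ_[2] × ℚ_[2] => p.1 * p.2 := measurable_fst.mul measurable_snd
  have h2 : Measurable fun p : ℚ_[2] × ℚ_[2] => 1 - p.2 := measurable_snd.const_sub 1
  have h3 : Measurable fun p : ℚ_[2] × ℚ_[2] => p.1 * (1 - p.2) := measurable_fst.mul h2
  exact h1.prodMk h3

lemma phi_meas : Measurable phi :=
  (measurable_fst.add measurable_snd).prodMk (measurable_fst.div (measurable_fst.add measurable_snd))

lemma phi_psi (p : ℚ_[2] × ℚ_[2]) (h : p.1 ≠ 0) : phi (psi p) = p := by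
  obtain ⟨s, t⟩ := p
  simp only [phi, psi] at h ⊢
  have e : s * t + s * (1 - t) = s := by ring
  rw [e, mul_div_cancel_left₀ _ h]

lemma sden_mul {s : ℚ_[2]} (hs : s ≠ 0) (t : ℚ_[2]) :
    kden s * sden t = ENNReal.ofReal ‖s‖ * (kden (s * t) * kden (s - s * t)) := by
  have e : s - s * t = s * (1 - t) := by ring
  have h1 : sden t = kden t * kden (1 - t) := by
    unfold sden kden
    rw [ENNReal.ofReal_mul (by positivity)]
  rw [e, kden_mul, kden_mul, h1]
  have h2 := kden_norm hs
  calc kden s * (kden t * kden (1 - t)) = 1 * (kden s * (kden t * kden (1 - t))) := by rw [one_mul]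
    _ = (ENNReal.ofReal ‖s‖ * kden s) * (kden s * (kden t * kden (1 - t))) := by rw [h2]
    _ = _ := by ring

lemma psi_lintegral (hS : PSC) (F : ℚ_[2] × ℚ_[2] → ℝ≥0∞) (hF : Measurable F) :
    ∫⁻ p, F (psi p) ∂(kap.prod sig) = ∫⁻ p, F p ∂(kap.prod kap) := by
  have hFp : Measurable fun p => F (psi p) := hF.comp psi_meas
  rw [lintegral_prod _ hFp.aemeasurable, lintegral_prod _ hF.aemeasurable]
  -- the left side
  have hL : ∀ s : ℚ_[2], ∫⁻ t, F (psi (s, t)) ∂sig = ∫⁻ t, sden t * F (psi (s, t)) ∂mu := by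
    intro s
    rw [sig_eq]
    exact lintegral_withDensity_eq_lintegral_mul _ sden_meas
      (hFp.comp (measurable_const.prodMk measurable_id))
  have hR : ∀ y : ℚ_[2], ∫⁻ z, F (y, z) ∂kap = ∫⁻ z, kden z * F (y, z) ∂mu := by
    intro y
    rw [kap_eq]
    exact lintegral_withDensity_eq_lintegral_mul _ kden_meas
      (hF.comp (measurable_const.prodMk measurable_id))
  simp_rw [hL, hR]
  have mL : Measurable fun s : ℚ_[2] => ∫⁻ t, sden t * F (psi (s, t)) ∂mu := by
    apply Measurable.lintegral_prod_right'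
      (f := fun p : ℚ_[2] × ℚ_[2] => sden p.2 * F (psi (p.1, p.2)))
    exact (sden_meas.comp measurable_snd).mul hFp
  have mR : Measurable fun y : ℚ_[2] => ∫⁻ z, kden z * F (y, z) ∂mu := by
    apply Measurable.lintegral_prod_right'
      (f := fun p : ℚ_[2] × ℚ_[2] => kden p.2 * F (p.1, p.2))
    exact (kden_meas.comp measurable_snd).mul hF
  have eL : ∫⁻ s, ∫⁻ t, sden t * F (psi (s, t)) ∂mu ∂kap =
      ∫⁻ s, kden s * ∫⁻ t, sden t * F (psi (s, t)) ∂mu ∂mu := by
    rw [kap_eq]
    exact lintegral_withDensity_eq_lintegral_mul _ kden_meas mL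
  have eR : ∫⁻ y, ∫⁻ z, kden z * F (y, z) ∂mu ∂kap =
      ∫⁻ y, kden y * ∫⁻ z, kden z * F (y, z) ∂mu ∂mu := by
    rw [kap_eq]
    exact lintegral_withDensity_eq_lintegral_mul _ kden_meas mR
  rw [eL, eR]
  -- the function `h s y = k y k (s - y) F (y, s - y)`
  have hmeas : Measurable fun p : ℚ_[2] × ℚ_[2] =>
      kden p.2 * (kden (p.1 - p.2) * F (p.2, p.1 - p.2)) := by
    have h1 : Measurable fun p : ℚ_[2] × ℚ_[2] => p.1 - p.2 := measurable_fst.sub measurable_snd
    exact (kden_meas.comp measurable_snd).mul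
      ((kden_meas.comp h1).mul (hF.comp (measurable_snd.prodMk h1)))
  have key : ∀ s : ℚ_[2], s ≠ 0 → kden s * ∫⁻ t, sden t * F (psi (s, t)) ∂mu =
      ∫⁻ y, kden y * (kden (s - y) * F (y, s - y)) ∂mu := by
    intro s hs
    have hm1 : Measurable fun t : ℚ_[2] => sden t * F (psi (s, t)) :=
      sden_meas.mul (hFp.comp (measurable_const.prodMk measurable_id))
    have hm2 : Measurable fun y : ℚ_[2] => kden y * (kden (s - y) * F (y, s - y)) :=
      hmeas.comp (measurable_const.prodMk measurable_id)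
    rw [← lintegral_const_mul _ hm1]
    have e2 : ∀ t : ℚ_[2], kden s * (sden t * F (psi (s, t))) =
        ENNReal.ofReal ‖s‖ * (fun y => kden y * (kden (s - y) * F (y, s - y))) (s * t) := by
      intro t
      simp only
      rw [← mul_assoc, sden_mul hs t]
      have e3 : psi (s, t) = (s * t, s - s * t) := by
        simp only [psi]
        rw [mul_sub, mul_one]
      rw [e3]
      ring
    have h2 : ENNReal.ofReal ‖s‖ * ENNReal.ofReal ‖s‖⁻¹ = 1 := kden_norm hs
    calc ∫⁻ t, kden s * (sden t * F (psi (s, t))) ∂mu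
        = ∫⁻ t, ENNReal.ofReal ‖s‖ *
            (fun y => kden y * (kden (s - y) * F (y, s - y))) (s * t) ∂mu := lintegral_congr e2
      _ = ENNReal.ofReal ‖s‖ *
            ∫⁻ t, (fun y => kden y * (kden (s - y) * F (y, s - y))) (s * t) ∂mu :=
          lintegral_const_mul _ (hm2.comp (measurable_const_mul s))
      _ = ENNReal.ofReal ‖s‖ * (ENNReal.ofReal ‖s‖⁻¹ *
            ∫⁻ y, (fun y => kden y * (kden (s - y) * F (y, s - y))) y ∂mu) := by
          rw [hS s hs _ hm2]
      _ = ∫⁻ y, kden y * (kden (s - y) * F (y, s - y)) ∂mu := by rw [← mul_assoc, h2, one_mul]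
  have hae : ∀ᵐ s ∂mu, s ≠ 0 := by
    rw [ae_iff]
    simp
  rw [lintegral_congr_ae (hae.mono fun s hs => key s hs)]
  rw [lintegral_lintegral_swap hmeas.aemeasurable]
  refine lintegral_congr fun y => ?_
  have hmy : Measurable fun s : ℚ_[2] => kden (s - y) * F (y, s - y) := by
    have h1 : Measurable fun s : ℚ_[2] => s - y := measurable_id.sub measurable_const
    exact (kden_meas.comp h1).mul (hF.comp (measurable_const.prodMk h1))
  rw [lintegral_const_mul _ hmy]
  congr 1
  exact lintegral_sub_right_eq_self (fun z => kden z * F (y, z)) y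

theorem t_PTH (hS : PSC) (_hK : PKI) : PTH := by
  have h2 : MeasurePreserving psi (kap.prod sig) (kap.prod kap) := by
    refine ⟨psi_meas, Measure.ext_of_lintegral _ fun f hf => ?_⟩
    rw [lintegral_map hf psi_meas]
    exact psi_lintegral hS f hf
  refine ⟨⟨phi_meas, ?_⟩, h2⟩
  have h3 : ∀ᵐ p ∂(kap.prod sig), phi (psi p) = p := by
    have h4 : (kap.prod sig) ({0} ×ˢ univ) = 0 := by
      rw [Measure.prod_prod, kap_zero, zero_mul]
    refine measure_mono_null ?_ h4
    intro p hp
    by_contra hn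
    exact hp (phi_psi p fun h0 => hn ⟨h0, mem_univ _⟩)
  have h5 : Measure.map phi (kap.prod kap) = Measure.map (phi ∘ psi) (kap.prod sig) := by
    rw [← Measure.map_map phi_meas psi_meas, h2.map_eq]
  change Measure.map phi (kap.prod kap) = _
  rw [h5, Measure.map_congr (show phi ∘ psi =ᵐ[kap.prod sig] id from h3), Measure.map_id]

end

end Pool.Agent.R283.QS
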