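import Pool.Agent.R283.QS.Stm

set_option autoImplicit false

open scoped InnerProductSpace ENNReal
open MeasureTheory Set Filter Topology

namespace Pool.Agent.R283.QS

namespace PPIaux

/-- locally constant characters are continuous -/
theorem cont (c : LCChar) : Continuous c.χ := by
  rw [continuous_iff_continuousAt]
  intro x
  obtain ⟨r, hr, hlc⟩ := c.lc
  have h : ∀ᶠ y in 𝓝 x, c.χ y = c.χ x := by
    filter_upwards [Metric.ball_mem_nhds x hr] with y hy
    have h1 : ‖y - x‖ ≤ r := by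
      rw [← dist_eq_norm]
      exact (Metric.mem_ball.1 hy).le
    have h2 := c.add x (y - x)
    rw [hlc _ h1, mul_one, add_sub_cancel] at h2
    exact h2
  exact (tendsto_const_nhds (x := c.χ x)).congr' (h.mono fun y hy => hy.symm)

theorem memMul {X : Type} [MeasurableSpace X] {μ : Measure X} (h : X → ℂ) (hm : Measurable h)
    (hn : ∀ x, ‖h x‖ = 1) (F : Lp ℂ 2 μ) : MemLp (fun x => h x * F x) 2 μ := by
  refine (Lp.memLp F).of_le ?_ ?_
  · exact hm.aestronglyMeasurable.mul (Lp.aestronglyMeasurable F)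
  · refine Filter.Eventually.of_forall fun x => ?_
    rw [norm_mul, hn, one_mul]

/-- multiplication by a unimodular function, as a linear isometry -/
theorem mulI {X : Type} [MeasurableSpace X] {μ : Measure X} (h : X → ℂ) (hm : Measurable h)
    (hn : ∀ x, ‖h x‖ = 1) :
    ∃ M : Lp ℂ 2 μ →ₗᵢ[ℂ] Lp ℂ 2 μ, ∀ F, M F =ᵐ[μ] fun x => h x * F x := by
  refine ⟨{ toFun := fun F => (memMul h hm hn F).toLp _, map_add' := ?_, map_smul' := ?_,
            norm_map' := ?_ }, ?_⟩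
  · intro F G
    apply Lp.ext
    filter_upwards [(memMul h hm hn (F + G)).coeFn_toLp, (memMul h hm hn F).coeFn_toLp,
      (memMul h hm hn G).coeFn_toLp, Lp.coeFn_add F G,
      Lp.coeFn_add ((memMul h hm hn F).toLp _) ((memMul h hm hn G).toLp _)] with x h1 h2 h3 h4 h5
    rw [h1, h5, Pi.add_apply, h2, h3, h4, Pi.add_apply, mul_add]
  · intro r F
    apply Lp.ext
    filter_upwards [(memMul h hm hn (r • F)).coeFn_toLp, (memMul h hm hn F).coeFn_toLp,
      Lp.coeFn_smul r F, Lp.coeFn_smul r ((memMul h hm hn F).toLp _)] with x h1 h2 h3 h4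
    rw [h1, RingHom.id_apply, h4, Pi.smul_apply, h2, h3, Pi.smul_apply, smul_eq_mul, smul_eq_mul]
    ring
  · intro F
    show ‖(memMul h hm hn F).toLp _‖ = ‖F‖
    rw [Lp.norm_toLp, Lp.norm_def]
    congr 1
    apply eLpNorm_congr_norm_ae
    refine Filter.Eventually.of_forall fun x => ?_
    rw [norm_mul, hn, one_mul]
  · intro F
    exact (memMul h hm hn F).coeFn_toLp

theorem mulU {X : Type} [MeasurableSpace X] {μ : Measure X} (h : X → ℂ) (hm : Measurable h)
    (hn : ∀ x, ‖h x‖ = 1) :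
    ∃ M : Lp ℂ 2 μ ≃ₗᵢ[ℂ] Lp ℂ 2 μ, ∀ F, M F =ᵐ[μ] fun x => h x * F x := by
  obtain ⟨A, hA⟩ := mulI (μ := μ) h hm hn
  obtain ⟨B, hB⟩ := mulI (μ := μ) (fun x => (starRingEnd ℂ) (h x))
    (Complex.continuous_conj.measurable.comp hm) (fun x => by rw [RCLike.norm_conj, hn])
  have hc : ∀ x, (starRingEnd ℂ) (h x) * h x = 1 := by
    intro x
    rw [mul_comm, Complex.mul_conj, Complex.normSq_eq_norm_sq, hn]
    norm_num
  have hAB : ∀ F, A (B F) = F := by
    intro F
    apply Lp.ext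
    filter_upwards [hA (B F), hB F] with x h1 h2
    rw [h1, h2, ← mul_assoc, mul_comm (h x), hc, one_mul]
  have hBA : ∀ F, B (A F) = F := by
    intro F
    apply Lp.ext
    filter_upwards [hB (A F), hA F] with x h1 h2
    rw [h1, h2, ← mul_assoc, hc, one_mul]
  refine ⟨{ toLinearEquiv := LinearEquiv.ofLinearMap A.toLinearMap B.toLinearMap
              (by ext1 F; exact hAB F) (by ext1 F; exact hBA F)
            norm_map' := fun F => A.norm_map F }, fun F => hA F⟩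

end PPIaux

theorem t_PPI (hK : PKI) (hU : UNI) : PPI := by
  intro c a ha
  obtain ⟨U, hU1, -⟩ := hU ℚ_[2] ℚ_[2] kap kap (fun y => a⁻¹ * y) (fun y => a * y)
    (hK.2.2.2 a⁻¹ (inv_ne_zero ha)) (hK.2.2.2 a ha)
    (Filter.Eventually.of_forall fun x => by
      show a * (a⁻¹ * x) = x
      rw [← mul_assoc, mul_inv_cancel₀ ha, one_mul])
    (Filter.Eventually.of_forall fun x => by
      show a⁻¹ * (a * x) = x
      rw [← mul_assoc, inv_mul_cancel₀ ha, one_mul])
  obtain ⟨M, hM⟩ := PPIaux.mulU (μ := kap) c.χ (PPIaux.cont c).measurable c.norm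
  let V : Lp ℂ 2 kap ≃ₗᵢ[ℂ] Lp ℂ 2 kap := U.trans M
  refine ⟨(V.toContinuousLinearEquiv : Lp ℂ 2 kap →L[ℂ] Lp ℂ 2 kap), ?_, ?_, ?_⟩
  · intro ξ
    have h1 : (V.toContinuousLinearEquiv : Lp ℂ 2 kap →L[ℂ] Lp ℂ 2 kap) ξ = M (U ξ) := rfl
    rw [h1]
    filter_upwards [hM (U ξ), hU1 ξ] with y h2 h3
    rw [h2, h3]
  · rw [ContinuousLinearMap.star_eq_adjoint]
    have h1 : ContinuousLinearMap.adjoint (V.toContinuousLinearEquiv : Lp ℂ 2 kap →L[ℂ] Lp ℂ 2 kap)
        = (V.symm.toContinuousLinearEquiv : Lp ℂ 2 kap →L[ℂ] Lp ℂ 2 kap) :=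
      LinearIsometryEquiv.adjoint_eq_symm V
    rw [h1]
    ext1 ξ
    exact V.symm_apply_apply ξ
  · rw [ContinuousLinearMap.star_eq_adjoint]
    have h1 : ContinuousLinearMap.adjoint (V.toContinuousLinearEquiv : Lp ℂ 2 kap →L[ℂ] Lp ℂ 2 kap)
        = (V.symm.toContinuousLinearEquiv : Lp ℂ 2 kap →L[ℂ] Lp ℂ 2 kap) :=
      LinearIsometryEquiv.adjoint_eq_symm V
    rw [h1]
    ext1 ξ
    exact V.apply_symm_apply ξ

end Pool.Agent.R283.QS
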