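import Pool.Agent.R283.QS.Stm

/-!
Project QS (MP_43823f_an): scaling of Haar measure on the 2-adic numbers.
-/

set_option autoImplicit false

open scoped InnerProductSpace ENNReal
open MeasureTheory Set Filter Topology

namespace Pool.Agent.R283.QS

namespace PSCP

instance : Measure.IsAddHaarMeasure mu := by
  unfold mu
  infer_instance

lemma mu_one : mu (Metric.closedBall 0 1) = 1 := Measure.addHaarMeasure_self (K₀ := ub)

/-- multiplication by `a`, as an additive equivalence -/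
noncomputable def me (a : ℚ_[2]) (ha : a ≠ 0) : ℚ_[2] ≃+ ℚ_[2] where
  toFun y := a * y
  invFun y := a⁻¹ * y
  left_inv y := by
    show a⁻¹ * (a * y) = y
    rw [← mul_assoc, inv_mul_cancel₀ ha, one_mul]
  right_inv y := by
    show a * (a⁻¹ * y) = y
    rw [← mul_assoc, mul_inv_cancel₀ ha, one_mul]
  map_add' y z := mul_add a y z

lemma scale (a : ℚ_[2]) (ha : a ≠ 0) (f : ℚ_[2] → ℝ≥0∞) (hf : Measurable f) :
    ∫⁻ y, f (a * y) ∂mu = mu {y | ‖a * y‖ ≤ 1} * ∫⁻ y, f y ∂mu := by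
  have hc : Continuous (me a ha) := continuous_const.mul continuous_id
  have hc' : Continuous (me a ha).symm := continuous_const.mul continuous_id
  have hν : Measure.IsAddHaarMeasure (Measure.map (me a ha) mu) :=
    AddEquiv.isAddHaarMeasure_map mu (me a ha) hc hc'
  have h1 := Measure.addHaarMeasure_unique (Measure.map (me a ha) mu) ub
  have h2 : Measure.map (me a ha) mu (ub : Set ℚ_[2]) = mu {y | ‖a * y‖ ≤ 1} := by
    rw [Measure.map_apply hc.measurable ub.isCompact.measurableSet]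
    congr 1
    ext y
    show a * y ∈ Metric.closedBall 0 1 ↔ _
    rw [mem_closedBall_zero_iff]
    rfl
  rw [h2] at h1
  have h3 : ∫⁻ y, f y ∂(Measure.map (me a ha) mu) = ∫⁻ y, f (a * y) ∂mu :=
    lintegral_map hf hc.measurable
  rw [← h3, h1, lintegral_smul_measure]
  rfl

lemma norm_two : ‖(2 : ℚ_[2])‖ = 2⁻¹ := by
  have := Padic.norm_p (p := 2)
  exact_mod_cast this

lemma half_of_lt {z : ℤ_[2]} (h : ‖z‖ < 1) : ‖z‖ ≤ 2⁻¹ := by
  rw [PadicInt.norm_lt_one_iff_dvd] at h
  obtain ⟨w, rfl⟩ := h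
  rw [norm_mul]
  have h1 : ‖((2 : ℕ) : ℤ_[2])‖ = 2⁻¹ := by
    have := PadicInt.norm_p (p := 2)
    exact_mod_cast this
  rw [h1]
  have := PadicInt.norm_le_one w
  nlinarith

lemma ball_two : Metric.closedBall (0 : ℚ_[2]) 2 =
    Metric.closedBall 0 1 ∪ (fun y => -2⁻¹ + y) ⁻¹' Metric.closedBall 0 1 := by
  have h2 : (2 : ℚ_[2]) ≠ 0 := by
    intro h
    have := norm_two
    rw [h, norm_zero] at this
    norm_num at this
  ext y
  simp only [mem_union, mem_preimage, mem_closedBall_zero_iff]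
  constructor
  · intro hy
    have h3 : ‖2 * y‖ ≤ 1 := by
      rw [norm_mul, norm_two]
      linarith
    obtain ⟨n, hn, hn2⟩ := PadicInt.exists_mem_range (⟨2 * y, h3⟩ : ℤ_[2])
    rw [IsLocalRing.mem_maximalIdeal, PadicInt.mem_nonunits] at hn2
    have h4 := half_of_lt hn2
    have h5 : ‖(2 * y - n : ℚ_[2])‖ ≤ 2⁻¹ := by
      have h6 : ‖(2 * y - n : ℚ_[2])‖ = ‖(⟨2 * y, h3⟩ - (n : ℤ_[2]) : ℤ_[2])‖ := by
        rw [PadicInt.norm_def]
        rfl
      rw [h6]
      exact h4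
    interval_cases n
    · left
      rw [Nat.cast_zero, sub_zero, norm_mul, norm_two] at h5
      linarith
    · right
      have h6 : (2 * y - (1 : ℕ) : ℚ_[2]) = 2 * (-2⁻¹ + y) := by
        rw [mul_add, mul_neg, mul_inv_cancel₀ h2, Nat.cast_one]
        ring
      rw [h6, norm_mul, norm_two] at h5
      linarith
  · rintro (h | h)
    · linarith
    · have h3 : y = 2⁻¹ + (-2⁻¹ + y) := by ring
      rw [h3]
      refine (Padic.nonarchimedean _ _).trans (max_le ?_ (by linarith))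
      rw [norm_inv, norm_two]
      norm_num

lemma mu_two : mu (Metric.closedBall 0 2) = 2 := by
  have hd : Disjoint (Metric.closedBall (0 : ℚ_[2]) 1)
      ((fun y => -2⁻¹ + y) ⁻¹' Metric.closedBall 0 1) := by
    rw [Set.disjoint_left]
    intro y hy hy'
    rw [mem_preimage, mem_closedBall_zero_iff] at hy'
    rw [mem_closedBall_zero_iff] at hy
    have h3 : (2⁻¹ : ℚ_[2]) = y + -(-2⁻¹ + y) := by ring
    have h4 : ‖(2⁻¹ : ℚ_[2])‖ ≤ 1 := by
      rw [h3]
      refine (Padic.nonarchimedean _ _).trans (max_le hy ?_)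
      rw [norm_neg]
      exact hy'
    rw [norm_inv, norm_two] at h4
    norm_num at h4
  rw [ball_two, measure_union hd ((measurable_const_add _) Metric.isClosed_closedBall.measurableSet),
    measure_preimage_add, mu_one]
  norm_num

lemma ball_succ (n : ℤ) : mu (Metric.closedBall 0 ((2 : ℝ) ^ (n + 1))) =
    2 * mu (Metric.closedBall 0 ((2 : ℝ) ^ n)) := by
  have h2 : (2 : ℚ_[2]) ≠ 0 := by
    intro h
    have := norm_two
    rw [h, norm_zero] at this
    norm_num at this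
  have h1 := scale 2 h2 ((Metric.closedBall 0 ((2 : ℝ) ^ n)).indicator fun _ => 1)
    (measurable_const.indicator Metric.isClosed_closedBall.measurableSet)
  have h3 : {y : ℚ_[2] | ‖2 * y‖ ≤ 1} = Metric.closedBall 0 2 := by
    ext y
    rw [mem_closedBall_zero_iff]
    show ‖2 * y‖ ≤ 1 ↔ _
    rw [norm_mul, norm_two]
    constructor <;> intro h <;> linarith
  rw [h3, mu_two] at h1
  have h4 : ∀ R : ℝ, ∫⁻ y, (Metric.closedBall (0 : ℚ_[2]) R).indicator (fun _ => (1 : ℝ≥0∞)) y ∂mu =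
      mu (Metric.closedBall 0 R) := by
    intro R
    rw [lintegral_indicator Metric.isClosed_closedBall.measurableSet, setLIntegral_const, one_mul]
  rw [h4] at h1
  rw [← h1, ← h4]
  congr 1
  ext y
  have h5 : y ∈ Metric.closedBall (0 : ℚ_[2]) ((2 : ℝ) ^ (n + 1)) ↔
      2 * y ∈ Metric.closedBall (0 : ℚ_[2]) ((2 : ℝ) ^ n) := by
    rw [mem_closedBall_zero_iff, mem_closedBall_zero_iff, norm_mul, norm_two,
      zpow_add₀ (two_ne_zero), zpow_one]
    constructor <;> intro h <;> linarith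
  by_cases h6 : 2 * y ∈ Metric.closedBall (0 : ℚ_[2]) ((2 : ℝ) ^ n)
  · rw [indicator_of_mem h6, indicator_of_mem (h5.2 h6)]
  · rw [indicator_of_notMem h6, indicator_of_notMem (fun h => h6 (h5.1 h))]

lemma ball_zpow (n : ℤ) : mu (Metric.closedBall 0 ((2 : ℝ) ^ n)) = ENNReal.ofReal ((2 : ℝ) ^ n) := by
  have h2 : ∀ m : ℤ, ENNReal.ofReal ((2 : ℝ) ^ (m + 1)) = 2 * ENNReal.ofReal ((2 : ℝ) ^ m) := by
    intro m
    rw [zpow_add₀ (two_ne_zero), zpow_one, mul_comm, ENNReal.ofReal_mul (by norm_num)]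
    norm_num
  induction n using Int.induction_on with
  | zero =>
    rw [zpow_zero, mu_one, ENNReal.ofReal_one]
  | succ n ih => rw [ball_succ, h2, ih]
  | pred n ih =>
    have h3 := ball_succ (-(n : ℤ) - 1)
    have h4 := h2 (-(n : ℤ) - 1)
    rw [sub_add_cancel] at h3 h4
    rw [ih, h4] at h3
    exact ((ENNReal.mul_right_inj (by norm_num) (by norm_num)).1 h3).symm

end PSCP

theorem t_PSC : PSC := by
  intro a ha f hf
  rw [PSCP.scale a ha f hf]
  congr 1
  have h1 := Padic.norm_eq_zpow_neg_valuation ha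
  have h2 : ‖a‖⁻¹ = (2 : ℝ) ^ a.valuation := by
    rw [h1, ← zpow_neg, neg_neg]
    norm_num
  rw [h2, ← PSCP.ball_zpow]
  congr 1
  ext y
  rw [mem_closedBall_zero_iff, ← h2]
  show ‖a * y‖ ≤ 1 ↔ _
  rw [norm_mul, mul_comm, ← le_div_iff₀ (norm_pos_iff.2 ha), one_div]

end Pool.Agent.R283.QS
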