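import Pool.Agent.R283.QS.Stm

/-!
QS-PST: the state on `ℚ_2`.
-/

set_option autoImplicit false

open scoped InnerProductSpace ENNReal
open MeasureTheory Set Filter Topology

namespace Pool.Agent.R283.QS.PSTaux

/-- the sphere -/
def Sn (n : ℕ) : Set ℚ_[2] := {y | ‖y‖ = (1 / 2 : ℝ) ^ n}

theorem Sn_meas (n : ℕ) : MeasurableSet (Sn n) := measurable_norm (measurableSet_singleton _)

theorem norm_two_pow (n : ℕ) : ‖(2 : ℚ_[2]) ^ n‖ = (1 / 2 : ℝ) ^ n := by
  have h := Padic.norm_p_pow (p := 2) n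
  push_cast at h
  rw [h, zpow_neg, zpow_natCast, one_div, inv_pow]

instance muHaar : Measure.IsAddHaarMeasure mu := by
  unfold mu
  infer_instance

theorem mu_ball_one : mu (Metric.closedBall 0 1) = 1 := by
  have h := Measure.addHaarMeasure_self (K₀ := ub)
  exact h

theorem mu_ball (hS : PSC) (n : ℕ) :
    mu (Metric.closedBall 0 ((1 / 2 : ℝ) ^ n)) = ENNReal.ofReal ((1 / 2 : ℝ) ^ n) := by
  have ha : (2 : ℚ_[2]) ^ n ≠ 0 := by
    rw [← norm_ne_zero_iff, norm_two_pow]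
    positivity
  have h := hS ((2 : ℚ_[2]) ^ n) ha ((Metric.closedBall 0 ((1 / 2 : ℝ) ^ n)).indicator 1)
    (measurable_one.indicator Metric.isClosed_closedBall.measurableSet)
  have e1 : (fun y : ℚ_[2] => (Metric.closedBall (0 : ℚ_[2]) ((1 / 2 : ℝ) ^ n)).indicator (1 : ℚ_[2] → ℝ≥0∞)
      ((2 : ℚ_[2]) ^ n * y)) = (Metric.closedBall (0 : ℚ_[2]) 1).indicator 1 := by
    funext y
    have : (2 : ℚ_[2]) ^ n * y ∈ Metric.closedBall (0 : ℚ_[2]) ((1 / 2 : ℝ) ^ n) ↔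
        y ∈ Metric.closedBall (0 : ℚ_[2]) 1 := by
      rw [mem_closedBall_zero_iff, mem_closedBall_zero_iff, norm_mul, norm_two_pow]
      have h2 : (0 : ℝ) < (1 / 2) ^ n := by positivity
      constructor
      · intro h3
        by_contra h4
        push Not at h4
        nlinarith
      · intro h3
        nlinarith
    by_cases hy : y ∈ Metric.closedBall (0 : ℚ_[2]) 1
    · rw [indicator_of_mem (this.2 hy), indicator_of_mem hy]
      rfl
    · rw [indicator_of_notMem (fun h => hy (this.1 h)), indicator_of_notMem hy]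
  rw [e1, lintegral_indicator_one Metric.isClosed_closedBall.measurableSet,
    lintegral_indicator_one Metric.isClosed_closedBall.measurableSet, mu_ball_one, norm_two_pow] at h
  have h2 : (0 : ℝ) < (1 / 2) ^ n := by positivity
  have h3 : ENNReal.ofReal ((1 / 2 : ℝ) ^ n) * 1 = ENNReal.ofReal ((1 / 2 : ℝ) ^ n) *
      (ENNReal.ofReal ((1 / 2 : ℝ) ^ n)⁻¹ * mu (Metric.closedBall 0 ((1 / 2 : ℝ) ^ n))) := by rw [← h]
  rw [← mul_assoc, ← ENNReal.ofReal_mul h2.le, mul_inv_cancel₀ h2.ne', ENNReal.ofReal_one, one_mul,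
    mul_one] at h3
  exact h3.symm

theorem norm_disc {y : ℚ_[2]} {n : ℕ} (h1 : (1 / 2 : ℝ) ^ (n + 1) < ‖y‖) (h2 : ‖y‖ ≤ (1 / 2 : ℝ) ^ n) :
    ‖y‖ = (1 / 2 : ℝ) ^ n := by
  have hy : y ≠ 0 := by
    rintro rfl
    rw [norm_zero] at h1
    have : (0 : ℝ) < (1 / 2) ^ (n + 1) := by positivity
    linarith
  have h3 := Padic.norm_eq_zpow_neg_valuation hy
  push_cast at h3
  have e : ∀ m : ℕ, (1 / 2 : ℝ) ^ m = (2 : ℝ) ^ (-(m : ℤ)) := fun m => by
    rw [zpow_neg, zpow_natCast, one_div, inv_pow]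
  rw [h3, e] at h1 h2
  rw [h3, e]
  have h4 := (zpow_lt_zpow_iff_right₀ (one_lt_two : (1 : ℝ) < 2)).1 h1
  have h5 := (zpow_le_zpow_iff_right₀ (one_lt_two : (1 : ℝ) < 2)).1 h2
  congr 1
  push_cast at h4
  omega

theorem mu_Sn (hS : PSC) (n : ℕ) : mu (Sn n) = ENNReal.ofReal ((1 / 2 : ℝ) ^ (n + 1)) := by
  have h1 : Sn n = Metric.closedBall 0 ((1 / 2 : ℝ) ^ n) \ Metric.closedBall 0 ((1 / 2 : ℝ) ^ (n + 1)) := by
    ext y
    simp only [Sn, Set.mem_ofPred_eq, Set.mem_sdiff, mem_closedBall_zero_iff, not_le]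
    constructor
    · intro h
      rw [h]
      refine ⟨le_rfl, ?_⟩
      rw [pow_succ]
      have : (0 : ℝ) < (1 / 2) ^ n := by positivity
      linarith
    · rintro ⟨h2, h3⟩
      exact norm_disc h3 h2
  have h2 : (1 / 2 : ℝ) ^ (n + 1) ≤ (1 / 2 : ℝ) ^ n := by
    rw [pow_succ]
    have : (0 : ℝ) < (1 / 2) ^ n := by positivity
    linarith
  rw [h1, measure_sdiff (Metric.closedBall_subset_closedBall h2)
    Metric.isClosed_closedBall.measurableSet.nullMeasurableSet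
    (by rw [mu_ball hS]; exact ENNReal.ofReal_ne_top), mu_ball hS, mu_ball hS,
    ← ENNReal.ofReal_sub _ (by positivity)]
  congr 1
  rw [pow_succ]
  ring

theorem kap_restrict (n : ℕ) : kap.restrict (Sn n) = ENNReal.ofReal ((2 : ℝ) ^ n) • mu.restrict (Sn n) := by
  unfold kap
  rw [restrict_withDensity (Sn_meas n), ← withDensity_const]
  apply withDensity_congr_ae
  filter_upwards [ae_restrict_mem (Sn_meas n)] with y hy
  have hy' : ‖y‖ = (1 / 2 : ℝ) ^ n := hy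
  rw [hy']
  congr 1
  rw [one_div, inv_pow, inv_inv]

theorem kap_Sn (hS : PSC) (n : ℕ) : kap (Sn n) = ENNReal.ofReal (1 / 2) := by
  have h := congrArg (fun m : Measure ℚ_[2] => m univ) (kap_restrict n)
  simp only [Measure.restrict_apply_univ, Measure.smul_apply, smul_eq_mul] at h
  rw [h, mu_Sn hS, ← ENNReal.ofReal_mul (by positivity)]
  congr 1
  rw [pow_succ, ← mul_assoc, ← mul_pow]
  norm_num

theorem kap_ne (hS : PSC) (n : ℕ) : kap (Sn n) ≠ ⊤ := by
  rw [kap_Sn hS]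
  exact ENNReal.ofReal_ne_top

theorem Sn_disj {n m : ℕ} (h : n ≠ m) : Disjoint (Sn n) (Sn m) := by
  rw [Set.disjoint_left]
  intro y h1 h2
  have h3 : (1 / 2 : ℝ) ^ n = (1 / 2 : ℝ) ^ m := (Eq.symm h1).trans h2
  exact h ((pow_right_injective₀ (by norm_num : (0 : ℝ) < 1 / 2) (by norm_num)) h3)

theorem iUnion_Sn : (⋃ n, Sn n) = Metric.closedBall (0 : ℚ_[2]) 1 \ {0} := by
  ext y
  simp only [mem_iUnion, Sn, Set.mem_ofPred_eq, Set.mem_sdiff, mem_closedBall_zero_iff, mem_singleton_iff]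
  constructor
  · rintro ⟨n, hn⟩
    refine ⟨?_, ?_⟩
    · rw [hn]
      exact pow_le_one₀ (by norm_num) (by norm_num)
    · rintro rfl
      rw [norm_zero] at hn
      have : (0 : ℝ) < (1 / 2) ^ n := by positivity
      linarith
  · rintro ⟨h1, h2⟩
    have h3 := Padic.norm_eq_zpow_neg_valuation h2
    push_cast at h3
    have h4 : -y.valuation ≤ 0 := by
      have h5 : (2 : ℝ) ^ (-y.valuation) ≤ (2 : ℝ) ^ (0 : ℤ) := by
        rw [← h3, zpow_zero]
        exact h1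
      exact (zpow_le_zpow_iff_right₀ (one_lt_two : (1 : ℝ) < 2)).1 h5
    refine ⟨y.valuation.toNat, ?_⟩
    rw [h3]
    have h6 : ((y.valuation.toNat : ℕ) : ℤ) = y.valuation := Int.toNat_of_nonneg (by omega)
    conv_lhs => rw [← h6]
    rw [zpow_neg, zpow_natCast, one_div, inv_pow]

theorem chi_cont (c : LCChar) : Continuous c.χ := by
  obtain ⟨r, hr, h⟩ := c.lc
  rw [Metric.continuous_iff]
  intro x ε hε
  refine ⟨r, hr, fun y hy => ?_⟩
  have h1 : c.χ y = c.χ x := by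
    have h2 := c.add x (y - x)
    rw [add_sub_cancel, h (y - x) (by rw [← dist_eq_norm]; exact hy.le), mul_one] at h2
    exact h2
  rw [h1, dist_self]
  exact hε

theorem chi_int (c : LCChar) :
    (∫ y in Metric.closedBall (0 : ℚ_[2]) 1, c.χ y ∂mu = 0) ∨
    (∫ y in Metric.closedBall (0 : ℚ_[2]) 1, c.χ y ∂mu = 1) := by
  by_cases h : ∀ x ∈ Metric.closedBall (0 : ℚ_[2]) 1, c.χ x = 1
  · right
    rw [setIntegral_congr_fun Metric.isClosed_closedBall.measurableSet h]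
    simp [Measure.real, mu_ball_one]
  · left
    push Not at h
    obtain ⟨x0, hx0, hne⟩ := h
    have h1 : ∫ y in Metric.closedBall (0 : ℚ_[2]) 1, c.χ y ∂mu
        = c.χ x0 * ∫ y in Metric.closedBall (0 : ℚ_[2]) 1, c.χ y ∂mu := by
      rw [← integral_indicator Metric.isClosed_closedBall.measurableSet,
        ← integral_const_mul,
        ← integral_add_right_eq_self (fun y => (Metric.closedBall (0 : ℚ_[2]) 1).indicator c.χ y) x0]
      refine integral_congr_ae (Eventually.of_forall fun y => ?_)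
      have hiff : y + x0 ∈ Metric.closedBall (0 : ℚ_[2]) 1 ↔ y ∈ Metric.closedBall (0 : ℚ_[2]) 1 := by
        simp only [mem_closedBall_zero_iff] at hx0 ⊢
        constructor
        · intro h2
          have h3 := IsUltrametricDist.norm_add_le_max (y + x0) (-x0)
          rw [add_neg_cancel_right, norm_neg] at h3
          exact h3.trans (max_le h2 hx0)
        · intro h2
          exact (IsUltrametricDist.norm_add_le_max y x0).trans (max_le h2 hx0)
      by_cases hy : y ∈ Metric.closedBall (0 : ℚ_[2]) 1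
      · simp only [indicator_of_mem hy, indicator_of_mem (hiff.2 hy)]
        rw [c.add, mul_comm]
      · simp only [indicator_of_notMem hy, indicator_of_notMem (fun h => hy (hiff.1 h)), mul_zero]
    have h2 : (1 - c.χ x0) * ∫ y in Metric.closedBall (0 : ℚ_[2]) 1, c.χ y ∂mu = 0 := by
      rw [sub_mul, one_mul, ← h1, sub_self]
    rcases mul_eq_zero.1 h2 with h3 | h3
    · exact absurd (sub_eq_zero.1 h3).symm hne
    · exact h3

theorem chi_sum (c : LCChar) : HasSum (fun n => ∫ y in Sn n, c.χ y ∂mu)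
    (∫ y in Metric.closedBall (0 : ℚ_[2]) 1, c.χ y ∂mu) := by
  have hint : IntegrableOn c.χ (Metric.closedBall (0 : ℚ_[2]) 1) mu :=
    (chi_cont c).continuousOn.integrableOn_compact (isCompact_closedBall 0 1)
  have h1 := hasSum_integral_iUnion (μ := mu) (f := c.χ) Sn_meas (fun i j hij => Sn_disj hij)
    (by rw [iUnion_Sn]; exact hint.mono_set sdiff_subset)
  rw [iUnion_Sn] at h1
  have h2 : ∫ y in Metric.closedBall (0 : ℚ_[2]) 1 \ {0}, c.χ y ∂mu
      = ∫ y in Metric.closedBall (0 : ℚ_[2]) 1, c.χ y ∂mu := by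
    apply setIntegral_congr_set
    exact sdiff_null_ae_eq_self (measure_singleton 0)
  rwa [h2] at h1

/-- the orthonormal vectors -/
noncomputable def en (hS : PSC) (n : ℕ) : Lp ℂ 2 kap :=
  indicatorConstLp 2 (Sn_meas n) (kap_ne hS n) ((Real.sqrt 2 : ℝ) : ℂ)

theorem en_ae (hS : PSC) (n : ℕ) :
    ∀ᵐ z ∂kap, (en hS n) z = (Sn n).indicator (fun _ => ((Real.sqrt 2 : ℝ) : ℂ)) z :=
  indicatorConstLp_coeFn

theorem en_inner (hS : PSC) (n : ℕ) (f : Lp ℂ 2 kap) :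
    ⟪en hS n, f⟫_ℂ = ((Real.sqrt 2 : ℝ) : ℂ) * ∫ x in Sn n, f x ∂kap := by
  unfold en
  rw [L2.inner_indicatorConstLp_eq_inner_setIntegral ℂ, RCLike.inner_apply, Complex.conj_ofReal,
    mul_comm]

theorem sq2 : ((Real.sqrt 2 : ℝ) : ℂ) * ((Real.sqrt 2 : ℝ) : ℂ) = 2 := by
  rw [← Complex.ofReal_mul, Real.mul_self_sqrt (by norm_num)]
  norm_num

theorem en_orth (hS : PSC) : Orthonormal ℂ (en hS) := by
  rw [orthonormal_iff_ite]
  intro i j
  rw [en_inner]
  by_cases hij : i = j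
  · subst hij
    have h1 : ∫ x in Sn i, (en hS i) x ∂kap = ∫ x in Sn i, ((Real.sqrt 2 : ℝ) : ℂ) ∂kap := by
      refine setIntegral_congr_ae (Sn_meas i) ?_
      filter_upwards [en_ae hS i] with x hx hxi
      rw [hx, indicator_of_mem hxi]
    rw [h1, setIntegral_const, if_pos rfl, Measure.real, kap_Sn hS,
      ENNReal.toReal_ofReal (by norm_num), Complex.real_smul, mul_left_comm, sq2]
    norm_num
  · have h1 : ∫ x in Sn i, (en hS j) x ∂kap = ∫ x in Sn i, (0 : ℂ) ∂kap := by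
      refine setIntegral_congr_ae (Sn_meas i) ?_
      filter_upwards [en_ae hS j] with x hx hxi
      rw [hx, indicator_of_notMem (fun h => (Set.disjoint_left.1 (Sn_disj hij)) hxi h)]
    rw [h1, integral_zero, mul_zero, if_neg hij]

theorem en_key (hS : PSC) (hK : PKI) (c : LCChar) (a : ℚ_[2]) (ha : a ≠ 0)
    (P : Lp ℂ 2 kap →L[ℂ] Lp ℂ 2 kap) (hP : IsPi c a P) (n : ℕ) :
    ⟪en hS n, P (en hS n)⟫_ℂ = ((Real.sqrt 2 : ℝ) : ℂ) * ∫ y in Sn n,
        c.χ y * (Sn n).indicator (fun _ => ((Real.sqrt 2 : ℝ) : ℂ)) (a⁻¹ * y) ∂kap := by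
  rw [en_inner]
  congr 1
  refine setIntegral_congr_ae (Sn_meas n) ?_
  have h5 := (hK.2.2.2 a⁻¹ (inv_ne_zero ha)).quasiMeasurePreserving
  have h3 : ∀ᵐ y ∂kap, (en hS n) (a⁻¹ * y)
      = (Sn n).indicator (fun _ => ((Real.sqrt 2 : ℝ) : ℂ)) (a⁻¹ * y) :=
    h5.ae (p := fun z => (en hS n) z = (Sn n).indicator (fun _ => ((Real.sqrt 2 : ℝ) : ℂ)) z) (en_ae hS n)
  filter_upwards [hP (en hS n), h3] with y hy1 hy2 _
  rw [hy1, hy2]

theorem en_case1 (hS : PSC) (hK : PKI) (c : LCChar) (a : ℚ_[2]) (ha : a ≠ 0)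
    (P : Lp ℂ 2 kap →L[ℂ] Lp ℂ 2 kap) (hP : IsPi c a P) (hn : ‖a‖ = 1) (n : ℕ) :
    (((1 / 2 : ℝ) ^ (n + 1) : ℝ) : ℂ) * ⟪en hS n, P (en hS n)⟫_ℂ = ∫ y in Sn n, c.χ y ∂mu := by
  rw [en_key hS hK c a ha P hP n]
  have h2 : ∫ y in Sn n, c.χ y * (Sn n).indicator (fun _ => ((Real.sqrt 2 : ℝ) : ℂ)) (a⁻¹ * y) ∂kap
      = ∫ y in Sn n, c.χ y * ((Real.sqrt 2 : ℝ) : ℂ) ∂kap := by
    refine setIntegral_congr_fun (Sn_meas n) ?_
    intro y hy
    have h3 : a⁻¹ * y ∈ Sn n := by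
      show ‖a⁻¹ * y‖ = _
      rw [norm_mul, norm_inv, hn, inv_one, one_mul]
      exact hy
    simp only [indicator_of_mem h3]
  rw [h2, kap_restrict, integral_smul_measure, integral_mul_const,
    ENNReal.toReal_ofReal (by positivity), Complex.real_smul]
  have h4 : (((1 / 2 : ℝ) ^ (n + 1) : ℝ) : ℂ) * (((2 : ℝ) ^ n : ℝ) : ℂ) * 2 = 1 := by
    rw [← Complex.ofReal_mul]
    have h5 : (1 / 2 : ℝ) ^ (n + 1) * (2 : ℝ) ^ n = 1 / 2 := by
      rw [pow_succ, mul_right_comm, ← mul_pow]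
      norm_num
    rw [h5]
    norm_num
  generalize (((1 / 2 : ℝ) ^ (n + 1) : ℝ) : ℂ) = A at *
  generalize (((2 : ℝ) ^ n : ℝ) : ℂ) = B at *
  generalize (∫ y in Sn n, c.χ y ∂mu) = I
  have h6 := sq2
  generalize ((Real.sqrt 2 : ℝ) : ℂ) = R at *
  calc A * (R * (B * (I * R))) = (A * B * (R * R)) * I := by ring
    _ = I := by rw [h6, h4, one_mul]

theorem en_case2 (hS : PSC) (hK : PKI) (c : LCChar) (a : ℚ_[2]) (ha : a ≠ 0)
    (P : Lp ℂ 2 kap →L[ℂ] Lp ℂ 2 kap) (hP : IsPi c a P) (hn : ‖a‖ ≠ 1) (n : ℕ) :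
    ⟪en hS n, P (en hS n)⟫_ℂ = 0 := by
  rw [en_key hS hK c a ha P hP n]
  have h2 : ∫ y in Sn n, c.χ y * (Sn n).indicator (fun _ => ((Real.sqrt 2 : ℝ) : ℂ)) (a⁻¹ * y) ∂kap
      = ∫ y in Sn n, (0 : ℂ) ∂kap := by
    refine setIntegral_congr_fun (Sn_meas n) ?_
    intro y hy
    have h3 : a⁻¹ * y ∉ Sn n := by
      intro h4
      have h5 : ‖a⁻¹ * y‖ = (1 / 2 : ℝ) ^ n := h4
      have h6 : ‖y‖ = (1 / 2 : ℝ) ^ n := hy
      have h7 : (0 : ℝ) < (1 / 2) ^ n := by positivity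
      rw [norm_mul, norm_inv, h6] at h5
      apply hn
      have h8 : ‖a‖⁻¹ = 1 := mul_right_cancel₀ h7.ne' (h5.trans (one_mul _).symm)
      exact inv_eq_one.1 h8
    simp only [indicator_of_notMem h3, mul_zero]
  rw [h2, integral_zero, mul_zero]

theorem main (hS : PSC) (hK : PKI) : PST := by
  refine ⟨en hS, fun n => (1 / 2 : ℝ) ^ (n + 1), en_orth hS, fun n => by positivity, ?_, ?_⟩
  · have h1 := hasSum_geometric_two.mul_left (1 / 2 : ℝ)
    have e : (fun n : ℕ => (1 / 2 : ℝ) ^ (n + 1)) = fun n => 1 / 2 * (1 / 2) ^ n := by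
      funext n
      rw [pow_succ]
      ring
    have h2 : (1 / 2 : ℝ) * 2 = 1 := by norm_num
    rw [h2] at h1
    rw [e]
    exact h1
  · intro c a ha P hP
    by_cases hn : ‖a‖ = 1
    · have h1 : ∑' n : ℕ, (((1 / 2 : ℝ) ^ (n + 1) : ℝ) : ℂ) * ⟪en hS n, P (en hS n)⟫_ℂ
          = ∫ y in Metric.closedBall (0 : ℚ_[2]) 1, c.χ y ∂mu := by
        rw [← (chi_sum c).tsum_eq]
        exact tsum_congr fun n => en_case1 hS hK c a ha P hP hn n
      rw [h1]
      exact chi_int c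
    · left
      have h1 : ∑' n : ℕ, (((1 / 2 : ℝ) ^ (n + 1) : ℝ) : ℂ) * ⟪en hS n, P (en hS n)⟫_ℂ
          = ∑' _n : ℕ, (0 : ℂ) := tsum_congr fun n => by
        rw [en_case2 hS hK c a ha P hP hn n, mul_zero]
      rw [h1, tsum_zero]

end Pool.Agent.R283.QS.PSTaux

namespace Pool.Agent.R283.QS

theorem t_PST (hS : PSC) (hK : PKI) : PST := PSTaux.main hS hK

end Pool.Agent.R283.QS
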