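import Pool.Agent.R283.QS.Stm

/-! Project QS (MP_43823f_an), piece PTO: the unitaries are total. -/

set_option autoImplicit false

open scoped InnerProductSpace ENNReal
open MeasureTheory Set Filter Topology

namespace Pool.Agent.R283.QS

namespace PTOx

section gen
variable {α : Type} [MeasurableSpace α] {μ : Measure α}

/-- duality estimate -/
theorem norm_le_of_dual (g : α → ℂ) (hg : Integrable g μ) (C : ℝ)
    (h : ∀ f : α → ℂ, Measurable f → (∀ x, ‖f x‖ ≤ 1) → ‖∫ x, f x * g x ∂μ‖ ≤ C) :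
    ∫ x, ‖g x‖ ∂μ ≤ C := by
  obtain ⟨g', hg'm, hgg'⟩ := hg.1
  set f : α → ℂ := fun x => (starRingEnd ℂ) (g' x) / ((‖g' x‖ : ℝ) : ℂ) with hf
  have hm' : Measurable g' := hg'm.measurable
  have hfm : Measurable f :=
    (Complex.continuous_conj.measurable.comp hm').div
      (Complex.continuous_ofReal.measurable.comp hm'.norm)
  have hfb : ∀ x, ‖f x‖ ≤ 1 := by
    intro x
    rw [hf]
    simp only
    rw [norm_div, RCLike.norm_conj, Complex.norm_real, norm_norm]
    exact div_self_le_one _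
  have h1 := h f hfm hfb
  have h2 : ∫ x, f x * g x ∂μ = ∫ x, ((‖g x‖ : ℝ) : ℂ) ∂μ := by
    refine integral_congr_ae ?_
    filter_upwards [hgg'] with x hx
    rw [hf]
    simp only
    rw [hx]
    rcases eq_or_ne (g' x) 0 with h0 | h0
    · simp [h0]
    · have h3 : ((‖g' x‖ : ℝ) : ℂ) ≠ 0 := by
        exact_mod_cast (norm_ne_zero_iff.mpr h0)
      rw [div_mul_eq_mul_div, div_eq_iff h3, mul_comm ((starRingEnd ℂ) (g' x)), Complex.mul_conj,
        Complex.normSq_eq_norm_sq]
      push_cast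
      ring
  rw [h2, integral_complex_ofReal, Complex.norm_real,
    Real.norm_of_nonneg (integral_nonneg fun x => norm_nonneg _)] at h1
  exact h1

theorem limit_dual (m : ℕ → α → ℂ) (hm : ∀ k, Integrable (m k) μ) (τ : (α → ℂ) → ℂ)
    (h : ∀ k : ℕ, ∀ f : α → ℂ, Measurable f → (∀ x, ‖f x‖ ≤ 1) →
      ‖τ f - ∫ x, f x * m k x ∂μ‖ ≤ 1 / ((k : ℝ) + 1)) :
    ∃ M : α → ℂ, Integrable M μ ∧
      ∀ f : α → ℂ, Measurable f → (∀ x, ‖f x‖ ≤ 1) → τ f = ∫ x, f x * M x ∂μ := by
  have hint : ∀ (g : α → ℂ), Integrable g μ → ∀ f : α → ℂ, Measurable f → (∀ x, ‖f x‖ ≤ 1) →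
      Integrable (fun x => f x * g x) μ := by
    intro g hg f hf hb
    exact hg.bdd_mul hf.aestronglyMeasurable (Filter.Eventually.of_forall hb)
  set s : ℕ → (α →₁[μ] ℂ) := fun k => (hm k).toL1 (m k) with hs
  have hdist : ∀ k l, dist (s k) (s l) ≤ 1 / ((k : ℝ) + 1) + 1 / ((l : ℝ) + 1) := by
    intro k l
    rw [dist_eq_norm, hs]
    simp only
    rw [← Integrable.toL1_sub, L1.norm_of_fun_eq_integral_norm]
    refine norm_le_of_dual _ ((hm k).sub (hm l)) _ ?_
    intro f hf hb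
    have e1 : ∫ x, f x * (m k - m l) x ∂μ = ∫ x, f x * m k x ∂μ - ∫ x, f x * m l x ∂μ := by
      rw [← integral_sub (hint _ (hm k) f hf hb) (hint _ (hm l) f hf hb)]
      refine integral_congr_ae (Filter.Eventually.of_forall fun x => ?_)
      simp only [Pi.sub_apply]
      ring
    rw [e1]
    have e2 := h k f hf hb
    have e3 := h l f hf hb
    calc ‖∫ x, f x * m k x ∂μ - ∫ x, f x * m l x ∂μ‖
        = ‖(τ f - ∫ x, f x * m l x ∂μ) - (τ f - ∫ x, f x * m k x ∂μ)‖ := by
          congr 1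
          ring
      _ ≤ ‖τ f - ∫ x, f x * m l x ∂μ‖ + ‖τ f - ∫ x, f x * m k x ∂μ‖ := norm_sub_le _ _
      _ ≤ 1 / ((k : ℝ) + 1) + 1 / ((l : ℝ) + 1) := by linarith
  have h0 : Tendsto (fun N : ℕ => 1 / ((N : ℝ) + 1)) atTop (𝓝 0) :=
    tendsto_one_div_add_atTop_nhds_zero_nat
  have hcau : CauchySeq s := by
    refine cauchySeq_of_le_tendsto_0 (fun N : ℕ => 1 / ((N : ℝ) + 1) + 1 / ((N : ℝ) + 1)) ?_ ?_
    · intro k l N hk hl
      refine (hdist k l).trans (add_le_add ?_ ?_)
      · apply one_div_le_one_div_of_le (by positivity)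
        have : (N : ℝ) ≤ k := by exact_mod_cast hk
        linarith
      · apply one_div_le_one_div_of_le (by positivity)
        have : (N : ℝ) ≤ l := by exact_mod_cast hl
        linarith
    · simpa using h0.add h0
  obtain ⟨M, hM⟩ := cauchySeq_tendsto_of_complete hcau
  refine ⟨M, L1.integrable_coeFn M, ?_⟩
  intro f hf hb
  have t1 : Tendsto (fun k => ∫ x, f x * m k x ∂μ) atTop (𝓝 (τ f)) := by
    rw [tendsto_iff_norm_sub_tendsto_zero]
    refine squeeze_zero (fun _ => norm_nonneg _) (fun k => ?_) h0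
    rw [norm_sub_rev]
    exact h k f hf hb
  have t2 : Tendsto (fun k => ∫ x, f x * m k x ∂μ) atTop (𝓝 (∫ x, f x * M x ∂μ)) := by
    rw [tendsto_iff_norm_sub_tendsto_zero]
    have t3 : Tendsto (fun k => ‖s k - M‖) atTop (𝓝 0) := by
      rw [← tendsto_iff_norm_sub_tendsto_zero]
      exact hM
    refine squeeze_zero (fun _ => norm_nonneg _) (fun k => ?_) t3
    rw [← integral_sub (hint _ (hm k) f hf hb) (hint _ (L1.integrable_coeFn M) f hf hb),
      L1.norm_eq_integral_norm]
    refine (norm_integral_le_integral_norm _).trans ?_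
    refine integral_mono_ae ?_ (L1.integrable_coeFn _).norm ?_
    · exact ((hint _ (hm k) f hf hb).sub (hint _ (L1.integrable_coeFn M) f hf hb)).norm
    · filter_upwards [Lp.coeFn_sub (s k) M, (hm k).coeFn_toL1] with x hx1 hx2
      rw [hx1, Pi.sub_apply, hs]
      simp only
      rw [hx2, ← mul_sub, norm_mul]
      calc ‖f x‖ * ‖m k x - M x‖ ≤ 1 * ‖m k x - M x‖ :=
            mul_le_mul_of_nonneg_right (hb x) (norm_nonneg _)
        _ = ‖m k x - M x‖ := one_mul _
  exact tendsto_nhds_unique t1 t2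

end gen

noncomputable abbrev HH := Lp ℂ 2 kap

/-- `M` is the multiplication by `f` -/
def IsMul (f : ℚ_[2] → ℂ) (M : HH →L[ℂ] HH) : Prop := ∀ ξ : HH, M ξ =ᵐ[kap] fun y => f y * ξ y

theorem isMul_unique (f : ℚ_[2] → ℂ) (M M' : HH →L[ℂ] HH) (h : IsMul f M) (h' : IsMul f M') :
    M = M' := by
  ext1 ξ
  exact Lp.ext ((h ξ).trans (h' ξ).symm)

theorem exists_mul (f : ℚ_[2] → ℂ) (hf : Measurable f) (hb : ∀ y, ‖f y‖ ≤ 1) :
    ∃ M : HH →L[ℂ] HH, ‖M‖ ≤ 1 ∧ IsMul f M := by
  have hle : ∀ (ξ : HH) (y : ℚ_[2]), ‖f y * ξ y‖ ≤ ‖ξ y‖ := by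
    intro ξ y
    rw [norm_mul]
    calc ‖f y‖ * ‖ξ y‖ ≤ 1 * ‖ξ y‖ := mul_le_mul_of_nonneg_right (hb y) (norm_nonneg _)
      _ = ‖ξ y‖ := one_mul _
  have hmem : ∀ ξ : HH, MemLp (fun y => f y * ξ y) 2 kap := by
    intro ξ
    exact (Lp.memLp ξ).mono (hf.aestronglyMeasurable.mul (Lp.aestronglyMeasurable ξ))
      (Filter.Eventually.of_forall (hle ξ))
  let L : HH →ₗ[ℂ] HH :=
    { toFun := fun ξ => (hmem ξ).toLp
      map_add' := by
        intro ξ η
        apply Lp.ext
        filter_upwards [(hmem (ξ + η)).coeFn_toLp, (hmem ξ).coeFn_toLp, (hmem η).coeFn_toLp,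
          Lp.coeFn_add ξ η, Lp.coeFn_add (hmem ξ).toLp (hmem η).toLp] with y h1 h2 h3 h4 h5
        rw [h1, h5, Pi.add_apply, h2, h3, h4, Pi.add_apply, mul_add]
      map_smul' := by
        intro c ξ
        apply Lp.ext
        simp only [RingHom.id_apply]
        filter_upwards [(hmem (c • ξ)).coeFn_toLp, (hmem ξ).coeFn_toLp,
          Lp.coeFn_smul c ξ, Lp.coeFn_smul c (hmem ξ).toLp] with y h1 h2 h4 h5
        rw [h1, h5, Pi.smul_apply, h2, h4, Pi.smul_apply, smul_eq_mul, smul_eq_mul]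
        ring }
  have hL : ∀ ξ, ‖L ξ‖ ≤ 1 * ‖ξ‖ := by
    intro ξ
    rw [one_mul]
    apply Lp.norm_le_norm_of_ae_le
    filter_upwards [(hmem ξ).coeFn_toLp] with y h1
    change ‖((hmem ξ).toLp _ : HH) y‖ ≤ _
    rw [h1]
    exact hle ξ y
  refine ⟨L.mkContinuous 1 hL, L.mkContinuous_norm_le zero_le_one hL, ?_⟩
  intro ξ
  exact (hmem ξ).coeFn_toLp

theorem inner_mul_eq (ξ η : HH) (f : ℚ_[2] → ℂ) (M : HH →L[ℂ] HH) (hM : IsMul f M) :
    ⟪ξ, M η⟫_ℂ = ∫ y, f y * ⟪ξ y, η y⟫_ℂ ∂kap := by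
  rw [L2.inner_def]
  refine integral_congr_ae ?_
  filter_upwards [hM η] with y hy
  rw [hy, ← smul_eq_mul, inner_smul_right]

theorem stepA (hF : PFO) (θ : (HH →L[ℂ] HH) →L[ℂ] ℂ) (hθ : Nrm θ) (D : HH →L[ℂ] HH)
    (hD : ‖D‖ ≤ 1) (hch : ∀ c : LCChar, Measurable c.χ → ∀ M : HH →L[ℂ] HH, IsMul c.χ M →
      θ (M * D) = 0) (hcm : ∀ c : LCChar, Measurable c.χ)
    (f : ℚ_[2] → ℂ) (hf : Measurable f) (hb : ∀ y, ‖f y‖ ≤ 1) (M : HH →L[ℂ] HH)
    (hM : IsMul f M) : θ (M * D) = 0 := by
  classical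
  choose n ξ η hap using fun k : ℕ => hθ (1 / ((k : ℝ) + 1)) (by positivity)
  set m : ℕ → ℚ_[2] → ℂ := fun k y => ∑ i, ⟪ξ k i y, D (η k i) y⟫_ℂ with hm
  have hmi : ∀ k, Integrable (m k) kap := fun k =>
    integrable_finsetSum _ fun i _ => L2.integrable_inner (𝕜 := ℂ) (ξ k i) (D (η k i))
  set τ : (ℚ_[2] → ℂ) → ℂ := fun f => if h : Measurable f ∧ ∀ y, ‖f y‖ ≤ 1 then
    θ ((exists_mul f h.1 h.2).choose * D) else 0 with hτ
  have hτe : ∀ (f : ℚ_[2] → ℂ), Measurable f → (∀ y, ‖f y‖ ≤ 1) → ∀ M, IsMul f M →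
      τ f = θ (M * D) := by
    intro f hf hb M hM
    have h : Measurable f ∧ ∀ y, ‖f y‖ ≤ 1 := ⟨hf, hb⟩
    rw [hτ]
    simp only
    rw [dif_pos h, isMul_unique f _ M (exists_mul f h.1 h.2).choose_spec.2 hM]
  have hlim := limit_dual m hmi τ (by
    intro k f hf hb
    obtain ⟨M, hM1, hM⟩ := exists_mul f hf hb
    rw [hτe f hf hb M hM]
    have e1 := hap k (M * D)
    have e2 : ∑ i, ⟪ξ k i, (M * D) (η k i)⟫_ℂ = ∫ x, f x * m k x ∂kap := by
      rw [hm]
      simp only [Finset.mul_sum]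
      rw [integral_finsetSum]
      · refine Finset.sum_congr rfl fun i _ => ?_
        exact inner_mul_eq (ξ k i) (D (η k i)) f M hM
      · intro i _
        exact (L2.integrable_inner (𝕜 := ℂ) (ξ k i) (D (η k i))).bdd_mul hf.aestronglyMeasurable
          (Filter.Eventually.of_forall hb)
    rw [e2] at e1
    refine e1.trans ?_
    have e3 : ‖M * D‖ ≤ 1 := (norm_mul_le _ _).trans (by
      calc ‖M‖ * ‖D‖ ≤ 1 * 1 := mul_le_mul hM1 hD (norm_nonneg _) zero_le_one
        _ = 1 := one_mul _)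
    calc 1 / ((k : ℝ) + 1) * ‖M * D‖ ≤ 1 / ((k : ℝ) + 1) * 1 :=
          mul_le_mul_of_nonneg_left e3 (by positivity)
      _ = 1 / ((k : ℝ) + 1) := mul_one _)
  obtain ⟨g, hg, hgf⟩ := hlim
  have hg0 : g =ᵐ[kap] 0 := by
    apply hF g hg
    intro c
    have hcb : ∀ y, ‖c.χ y‖ ≤ 1 := fun y => (c.norm y).le
    rw [← hgf c.χ (hcm c) hcb]
    obtain ⟨M, -, hM⟩ := exists_mul c.χ (hcm c) hcb
    rw [hτe c.χ (hcm c) hcb M hM]
    exact hch c (hcm c) M hM
  rw [← hτe f hf hb M hM, hgf f hf hb]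
  have : ∫ x, f x * g x ∂kap = ∫ _x, (0 : ℂ) ∂kap := by
    refine integral_congr_ae ?_
    filter_upwards [hg0] with x hx
    rw [hx]
    simp
  rw [this, integral_zero]

/-! ### Step B -/

/-- annulus -/
def An (R : ℝ) : Set ℚ_[2] := {y | R⁻¹ ≤ ‖y‖ ∧ ‖y‖ ≤ R}

theorem An_meas (R : ℝ) : MeasurableSet (An R) := by
  apply IsClosed.measurableSet
  exact (isClosed_le continuous_const continuous_norm).inter
    (isClosed_le continuous_norm continuous_const)

theorem An_mono {R R' : ℝ} (h0 : 0 < R) (h : R ≤ R') : An R ⊆ An R' := by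
  intro y hy
  exact ⟨(inv_anti₀ h0 h).trans hy.1, hy.2.trans h⟩

theorem An_fin (R : ℝ) (hR : 0 < R) : kap (An R) < ∞ := by
  unfold kap
  rw [withDensity_apply _ (An_meas R)]
  calc ∫⁻ y in An R, ENNReal.ofReal ‖y‖⁻¹ ∂mu ≤ ∫⁻ y in An R, ENNReal.ofReal R ∂mu := by
        refine setLIntegral_mono measurable_const ?_
        intro y hy
        apply ENNReal.ofReal_le_ofReal
        have := hy.1
        exact inv_le_of_inv_le₀ hR this
    _ = ENNReal.ofReal R * mu (An R) := by rw [setLIntegral_const]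
    _ < ∞ := by
        apply ENNReal.mul_lt_top ENNReal.ofReal_lt_top
        have hH : mu.IsAddHaarMeasure := by
          unfold mu
          infer_instance
        refine lt_of_le_of_lt (measure_mono (fun y hy => ?_))
          (isCompact_closedBall (0 : ℚ_[2]) R).measure_lt_top
        rw [mem_closedBall_zero_iff]
        exact hy.2

theorem skew (hK : PKI) : MeasurePreserving (fun p : ℚ_[2] × ℚ_[2] => (p.1, p.1 * p.2))
    (kap.prod kap) (kap.prod kap) := by
  have := hK.1
  refine MeasurePreserving.skew_product (MeasurePreserving.id kap)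
    (g := fun y b => y * b) ?_ ?_
  · exact (continuous_fst.mul continuous_snd).measurable
  · have h0 : ∀ᵐ y ∂kap, y ≠ 0 := by
      rw [ae_iff]
      simpa using hK.2.2.1
    filter_upwards [h0] with y hy
    exact (hK.2.2.2 y hy).map_eq

theorem rmul_mp (hK : PKI) (b : ℚ_[2]) (hb : b ≠ 0) :
    MeasurePreserving (fun y => y * b) kap kap := by
  have := hK.2.2.2 b hb
  simpa [mul_comm] using this

theorem prod_formula (hK : PKI) (g1 g2 : ℚ_[2] → ℂ) (h1 : Integrable g1 kap)
    (h2 : Integrable g2 kap) :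
    Integrable (fun b => ∫ y, g1 y * g2 (y * b) ∂kap) kap ∧
    (∫ y, g1 y ∂kap) * (∫ y, g2 y ∂kap) = ∫ b, ∫ y, g1 y * g2 (y * b) ∂kap ∂kap := by
  have := hK.1
  have hs := skew hK
  have hi : Integrable (fun z : ℚ_[2] × ℚ_[2] => g1 z.1 * g2 z.2) (kap.prod kap) := h1.mul_prod h2
  have hi2 : Integrable (fun z : ℚ_[2] × ℚ_[2] => g1 z.1 * g2 (z.1 * z.2)) (kap.prod kap) :=
    (hs.integrable_comp hi.aestronglyMeasurable).mpr hi
  refine ⟨hi2.integral_prod_right, ?_⟩
  rw [← integral_prod_mul, ← integral_prod_symm _ hi2]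
  conv_lhs => rw [← hs.map_eq]
  rw [integral_map hs.measurable.aemeasurable (by rw [hs.map_eq]; exact hi.aestronglyMeasurable)]

theorem stepB (hK : PKI) (θ : (HH →L[ℂ] HH) →L[ℂ] ℂ) (hθ : Nrm θ)
    (hDex : ∀ b : ℚ_[2], b ≠ 0 → ∃ D : HH →L[ℂ] HH, ‖D‖ ≤ 1 ∧
      (∀ ξ : HH, D ξ =ᵐ[kap] fun y => ξ (y * b)) ∧
      ∀ f : ℚ_[2] → ℂ, Measurable f → (∀ y, ‖f y‖ ≤ 1) → ∀ M, IsMul f M → θ (M * D) = 0)
    (R : ℝ) (hR : 0 < R) (E F : Set ℚ_[2]) (hE : MeasurableSet E) (hF : MeasurableSet F)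
    (hER : E ⊆ An R) (hFR : F ⊆ An R) (u v : HH)
    (hu : u =ᵐ[kap] E.indicator 1) (hv : v =ᵐ[kap] F.indicator 1) : θ (rk u v) = 0 := by
  classical
  set B : Set ℚ_[2] := An (R * R) with hB
  have hRR : 0 < R * R := mul_pos hR hR
  have hBfin := An_fin (R * R) hRR
  -- the main estimate
  have key : ∀ ε > (0 : ℝ), ‖θ (rk u v)‖ ≤ ε * ‖rk u v‖ + kap.real B * ε := by
    intro ε hε
    obtain ⟨n, ξ, η, hap⟩ := hθ ε hε
    have e1 : ∑ i, ⟪ξ i, rk u v (η i)⟫_ℂ = ∑ i, ⟪ξ i, u⟫_ℂ * ⟪v, η i⟫_ℂ := by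
      refine Finset.sum_congr rfl fun i _ => ?_
      simp only [rk, ContinuousLinearMap.smulRight_apply, innerSL_apply_apply, inner_smul_right]
      ring
    set g1 : Fin n → ℚ_[2] → ℂ := fun i y => ⟪ξ i y, u y⟫_ℂ with hg1
    set g2 : Fin n → ℚ_[2] → ℂ := fun i y => ⟪v y, η i y⟫_ℂ with hg2
    have hi1 : ∀ i, Integrable (g1 i) kap := fun i => L2.integrable_inner (𝕜 := ℂ) (ξ i) u
    have hi2 : ∀ i, Integrable (g2 i) kap := fun i => L2.integrable_inner (𝕜 := ℂ) v (η i)
    have e2 : ∑ i, ⟪ξ i, u⟫_ℂ * ⟪v, η i⟫_ℂ =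
        ∫ b, ∑ i, ∫ y, g1 i y * g2 i (y * b) ∂kap ∂kap := by
      rw [integral_finsetSum _ fun i _ => (prod_formula hK (g1 i) (g2 i) (hi1 i) (hi2 i)).1]
      refine Finset.sum_congr rfl fun i _ => ?_
      rw [← (prod_formula hK (g1 i) (g2 i) (hi1 i) (hi2 i)).2]
      rfl
    have h0 : ∀ᵐ b ∂kap, b ≠ 0 := by
      rw [ae_iff]
      simpa using hK.2.2.1
    have e3 : ∀ᵐ b ∂kap, ‖∑ i, ∫ y, g1 i y * g2 i (y * b) ∂kap‖ ≤
        B.indicator (fun _ => ε) b := by
      filter_upwards [h0] with b hb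
      obtain ⟨D, hD1, hD, hDθ⟩ := hDex b hb
      set f : ℚ_[2] → ℂ := (E ∩ (fun y => y * b) ⁻¹' F).indicator 1 with hf
      have hmul : Measurable (fun y : ℚ_[2] => y * b) :=
        (continuous_id.mul continuous_const).measurable
      have hfm : Measurable f := measurable_one.indicator (hE.inter (hmul hF))
      have hfb : ∀ y, ‖f y‖ ≤ 1 := by
        intro y
        rw [hf]
        by_cases hy : y ∈ E ∩ (fun y => y * b) ⁻¹' F
        · rw [Set.indicator_of_mem hy]
          simp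
        · rw [Set.indicator_of_notMem hy]
          simp
      obtain ⟨M, hM1, hM⟩ := exists_mul f hfm hfb
      have hmp := rmul_mp hK b hb
      have e4 : ∀ i, ∫ y, g1 i y * g2 i (y * b) ∂kap = ⟪ξ i, (M * D) (η i)⟫_ℂ := by
        intro i
        rw [show (M * D) (η i) = M (D (η i)) from rfl, inner_mul_eq (ξ i) (D (η i)) f M hM]
        refine integral_congr_ae ?_
        have hv' : ∀ᵐ y ∂kap, v (y * b) = F.indicator 1 (y * b) :=
          hmp.quasiMeasurePreserving.ae hv
        filter_upwards [hu, hv', hD (η i)] with y h1 h2 h3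
        rw [h3, hg1, hg2]
        simp only
        rw [h1, h2, hf]
        by_cases hyE : y ∈ E
        · by_cases hyF : y * b ∈ F
          · rw [Set.indicator_of_mem hyE, Set.indicator_of_mem hyF,
              Set.indicator_of_mem (show y ∈ E ∩ (fun y => y * b) ⁻¹' F from ⟨hyE, hyF⟩)]
            simp [RCLike.inner_apply]
            ring
          · rw [Set.indicator_of_notMem hyF,
              Set.indicator_of_notMem (show y ∉ E ∩ (fun y => y * b) ⁻¹' F from fun h => hyF h.2)]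
            simp
        · rw [Set.indicator_of_notMem hyE,
            Set.indicator_of_notMem (show y ∉ E ∩ (fun y => y * b) ⁻¹' F from fun h => hyE h.1)]
          simp
      rw [Finset.sum_congr rfl fun i _ => e4 i]
      by_cases hbB : b ∈ B
      · rw [Set.indicator_of_mem hbB]
        have e5 := hap (M * D)
        rw [hDθ f hfm hfb M hM, zero_sub, norm_neg] at e5
        refine e5.trans ?_
        have e6 : ‖M * D‖ ≤ 1 := (norm_mul_le _ _).trans (by
          calc ‖M‖ * ‖D‖ ≤ 1 * 1 := mul_le_mul hM1 hD1 (norm_nonneg _) zero_le_one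
            _ = 1 := one_mul _)
        calc ε * ‖M * D‖ ≤ ε * 1 := mul_le_mul_of_nonneg_left e6 hε.le
          _ = ε := mul_one _
      · rw [Set.indicator_of_notMem hbB]
        have hf0 : f = 0 := by
          rw [hf]
          have : E ∩ (fun y => y * b) ⁻¹' F = ∅ := by
            rw [Set.eq_empty_iff_forall_notMem]
            rintro y ⟨hyE, hyF⟩
            apply hbB
            have h1 := hER hyE
            have h2 := hFR hyF
            have h3 : ‖y * b‖ = ‖y‖ * ‖b‖ := norm_mul _ _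
            obtain ⟨h4, h5⟩ := h1
            obtain ⟨h6, h7⟩ := h2
            simp only at h6 h7
            rw [h3] at h6 h7
            have hy0 : 0 < ‖y‖ := lt_of_lt_of_le (inv_pos.mpr hR) h4
            constructor
            · -- (R*R)⁻¹ ≤ ‖b‖
              rw [mul_inv]
              have h8 : R⁻¹ ≤ R * ‖b‖ := h6.trans (mul_le_mul_of_nonneg_right h5 (norm_nonneg _))
              calc R⁻¹ * R⁻¹ ≤ R⁻¹ * (R * ‖b‖) :=
                    mul_le_mul_of_nonneg_left h8 (inv_pos.mpr hR).le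
                _ = ‖b‖ := by
                    rw [← mul_assoc, inv_mul_cancel₀ hR.ne', one_mul]
            · have h8 : R⁻¹ * ‖b‖ ≤ R := (mul_le_mul_of_nonneg_right h4 (norm_nonneg _)).trans h7
              calc ‖b‖ = R * (R⁻¹ * ‖b‖) := by
                    rw [← mul_assoc, mul_inv_cancel₀ hR.ne', one_mul]
                _ ≤ R * R := mul_le_mul_of_nonneg_left h8 hR.le
          rw [this, Set.indicator_empty]
          rfl
        have hM0 : M = 0 := by
          apply isMul_unique f _ _ hM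
          intro ξ
          rw [hf0]
          filter_upwards [Lp.coeFn_zero ℂ 2 kap] with y hy
          rw [zero_apply, hy]
          simp
        rw [hM0]
        simp
    have e7 : ‖∑ i, ⟪ξ i, u⟫_ℂ * ⟪v, η i⟫_ℂ‖ ≤ kap.real B * ε := by
      rw [e2]
      refine (norm_integral_le_of_norm_le (g := B.indicator fun _ => ε) ?_ e3).trans ?_
      · exact (integrable_indicator_iff (An_meas _)).mpr
          (integrableOn_const hBfin.ne enorm_ne_top)
      · rw [integral_indicator (An_meas _), setIntegral_const, smul_eq_mul]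
    have e8 := hap (rk u v)
    rw [e1] at e8
    calc ‖θ (rk u v)‖ = ‖(θ (rk u v) - ∑ i, ⟪ξ i, u⟫_ℂ * ⟪v, η i⟫_ℂ) +
          ∑ i, ⟪ξ i, u⟫_ℂ * ⟪v, η i⟫_ℂ‖ := by rw [sub_add_cancel]
      _ ≤ _ := (norm_add_le _ _).trans (add_le_add e8 e7)
  have hC : 0 ≤ ‖rk u v‖ + kap.real B := add_nonneg (norm_nonneg _) measureReal_nonneg
  rw [← norm_eq_zero]
  apply le_antisymm _ (norm_nonneg _)
  apply le_of_forall_pos_le_add
  intro δ hδ
  have h1 := key (δ / (‖rk u v‖ + kap.real B + 1)) (by positivity)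
  refine h1.trans ?_
  rw [zero_add]
  have h2 : δ / (‖rk u v‖ + kap.real B + 1) * ‖rk u v‖ +
      kap.real B * (δ / (‖rk u v‖ + kap.real B + 1)) =
      δ * ((‖rk u v‖ + kap.real B) / (‖rk u v‖ + kap.real B + 1)) := by
    ring
  rw [h2]
  have h3 : (‖rk u v‖ + kap.real B) / (‖rk u v‖ + kap.real B + 1) ≤ 1 := by
    rw [div_le_one (by positivity)]
    linarith
  calc δ * ((‖rk u v‖ + kap.real B) / (‖rk u v‖ + kap.real B + 1)) ≤ δ * 1 :=
        mul_le_mul_of_nonneg_left h3 hδ.le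
    _ = δ := mul_one _

/-! ### Density -/

theorem dense_ind (hK : PKI) (S : Submodule ℂ HH) (hS : IsClosed (S : Set HH))
    (h : ∀ (n : ℕ) (E : Set ℚ_[2]) (hE : MeasurableSet E), E ⊆ An ((n : ℝ) + 1) →
      ∀ hμ : kap E ≠ ∞, indicatorConstLp 2 hE hμ (1 : ℂ) ∈ S) : ∀ u : HH, u ∈ S := by
  have hp : (2 : ℝ≥0∞) ≠ ∞ := by norm_num
  refine Lp.induction hp (motive := fun f => f ∈ S) ?_ ?_ hS
  · intro c s hs hμs
    have h1 : indicatorConstLp 2 hs hμs.ne (1 : ℂ) ∈ S := by
      have hlim : Tendsto (fun n : ℕ => kap (symmDiff (s ∩ An ((n : ℝ) + 1)) s)) atTop (𝓝 0) := by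
        have e1 : ∀ n : ℕ, symmDiff (s ∩ An ((n : ℝ) + 1)) s = s \ An ((n : ℝ) + 1) := by
          intro n
          ext y
          simp only [Set.mem_symmDiff, Set.mem_inter_iff, Set.mem_sdiff]
          tauto
        simp only [e1]
        have e2 : kap (⋂ n : ℕ, s \ An ((n : ℝ) + 1)) = 0 := by
          refine measure_mono_null ?_ hK.2.2.1
          intro y hy
          rw [Set.mem_iInter] at hy
          by_contra hy0
          have hy0' : y ≠ 0 := hy0
          have hpos : 0 < ‖y‖ := norm_pos_iff.mpr hy0'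
          obtain ⟨n1, hn1⟩ := exists_nat_gt ‖y‖
          obtain ⟨n2, hn2⟩ := exists_nat_gt ‖y‖⁻¹
          apply (hy (max n1 n2)).2
          have h3 : (n1 : ℝ) ≤ ((max n1 n2 : ℕ) : ℝ) := by exact_mod_cast le_max_left _ _
          have h4 : (n2 : ℝ) ≤ ((max n1 n2 : ℕ) : ℝ) := by exact_mod_cast le_max_right _ _
          constructor
          · apply inv_le_of_inv_le₀ hpos
            linarith
          · linarith
        rw [← e2]
        refine tendsto_measure_iInter_atTop
          (fun n => (hs.diff (An_meas _)).nullMeasurableSet) ?_ ⟨0, ?_⟩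
        · intro n m hnm
          apply Set.sdiff_subset_sdiff_right
          apply An_mono (by positivity)
          have : (n : ℝ) ≤ m := by exact_mod_cast hnm
          linarith
        · exact ((measure_mono Set.sdiff_subset).trans_lt hμs).ne
      have hlim2 := tendsto_indicatorConstLp_set (p := 2) (μ := kap) (hs := hs) (hμs := hμs.ne)
        (c := (1 : ℂ)) (ht := fun n : ℕ => hs.inter (An_meas ((n : ℝ) + 1)))
        (hμt := fun n : ℕ => ((measure_mono Set.inter_subset_left).trans_lt hμs).ne) hp hlim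
      exact hS.mem_of_tendsto hlim2 (Filter.Eventually.of_forall fun n =>
        h n _ _ Set.inter_subset_right _)
    have h2 : ((Lp.simpleFunc.indicatorConst 2 hs hμs.ne c : Lp.simpleFunc ℂ 2 kap) : HH) =
        c • indicatorConstLp 2 hs hμs.ne (1 : ℂ) := by
      rw [Lp.simpleFunc.coe_indicatorConst]
      apply Lp.ext
      filter_upwards [indicatorConstLp_coeFn (p := 2) (hs := hs) (hμs := hμs.ne) (c := c),
        indicatorConstLp_coeFn (p := 2) (hs := hs) (hμs := hμs.ne) (c := (1 : ℂ)),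
        Lp.coeFn_smul c (indicatorConstLp 2 hs hμs.ne (1 : ℂ))] with y h3 h4 h5
      rw [h3, h5, Pi.smul_apply, h4]
      by_cases hy : y ∈ s
      · rw [Set.indicator_of_mem hy, Set.indicator_of_mem hy]
        simp
      · rw [Set.indicator_of_notMem hy, Set.indicator_of_notMem hy]
        simp
    rw [h2]
    exact S.smul_mem c h1
  · intro f g hf hg _ h1 h2
    exact S.add_mem h1 h2

theorem char_meas (c : LCChar) : Measurable c.χ := by
  apply Continuous.measurable
  rw [Metric.continuous_iff]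
  intro x ε hε
  obtain ⟨r, hr, hrc⟩ := c.lc
  refine ⟨r, hr, fun y hy => ?_⟩
  have h1 : c.χ y = c.χ x := by
    have h2 := c.add x (y - x)
    rw [hrc (y - x) (by rw [← dist_eq_norm]; exact hy.le), mul_one] at h2
    rw [← h2]
    congr 1
    ring
  rw [h1, dist_self]
  exact hε

/-- the trivial character -/
noncomputable def triv : LCChar where
  χ := fun _ => 1
  add := fun _ _ => by simp
  norm := fun _ => by simp
  lc := ⟨1, one_pos, fun _ _ => rfl⟩

end PTOx

open PTOx in
theorem t_PTO (hF : PFO) (hP : PPI) (hB : SNB) (hK : PKI) : PTO := by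
  intro θ hθ hθP
  -- the translations
  have hDex : ∀ b : ℚ_[2], b ≠ 0 → ∃ D : HH →L[ℂ] HH, ‖D‖ ≤ 1 ∧
      (∀ ξ : HH, D ξ =ᵐ[kap] fun y => ξ (y * b)) ∧
      ∀ f : ℚ_[2] → ℂ, Measurable f → (∀ y, ‖f y‖ ≤ 1) → ∀ M, IsMul f M → θ (M * D) = 0 := by
    intro b hb
    obtain ⟨D, hD, hD1, -⟩ := hP triv b⁻¹ (inv_ne_zero hb)
    have hDn : ‖D‖ ≤ 1 := by
      have h1 : ‖D‖ * ‖D‖ ≤ 1 := by
        rw [← CStarRing.norm_star_mul_self, hD1]
        exact ContinuousLinearMap.norm_id_le
      nlinarith [norm_nonneg D]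
    have hDf : ∀ ξ : HH, D ξ =ᵐ[kap] fun y => ξ (y * b) := by
      intro ξ
      filter_upwards [hD ξ] with y hy
      rw [hy, inv_inv, mul_comm b y]
      simp [triv]
    refine ⟨D, hDn, hDf, ?_⟩
    intro f hf hfb M hM
    refine stepA hF θ hθ D hDn ?_ char_meas f hf hfb M hM
    intro c _ M' hM'
    refine hθP c b⁻¹ (inv_ne_zero hb) (M' * D) ?_
    intro ξ
    filter_upwards [hM' (D ξ), hDf ξ] with y h1 h2
    rw [show (M' * D) ξ = M' (D ξ) from rfl, h1, h2, inv_inv, mul_comm b y]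
  have hc1 : ∀ u : HH, Continuous fun v : HH => rk u v := by
    intro u
    unfold rk
    exact ((ContinuousLinearMap.smulRightL ℂ HH HH).flip u).continuous.comp
      (innerSL ℂ).continuous
  have hc2 : ∀ v : HH, Continuous fun u : HH => rk u v := by
    intro v
    unfold rk
    exact ((ContinuousLinearMap.smulRightL ℂ HH HH) (innerSL ℂ v)).continuous
  have hadd1 : ∀ u u' v : HH, rk (u + u') v = rk u v + rk u' v := by
    intro u u' v
    ext1 x
    simp [rk]
  have hadd2 : ∀ u v v' : HH, rk u (v + v') = rk u v + rk u v' := by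
    intro u v v'
    ext1 x
    simp [rk, add_smul]
  have hsm1 : ∀ (c : ℂ) (u v : HH), rk (c • u) v = c • rk u v := by
    intro c u v
    ext1 x
    simp [rk, smul_smul, mul_comm]
  have hsm2 : ∀ (c : ℂ) (u v : HH), rk u (c • v) = (starRingEnd ℂ c) • rk u v := by
    intro c u v
    ext1 x
    simp [rk, smul_smul]
  -- indicators
  have hind : ∀ (n : ℕ) (E : Set ℚ_[2]) (hE : MeasurableSet E), E ⊆ An ((n : ℝ) + 1) →
      ∀ hμ : kap E ≠ ∞, ∀ v : HH, θ (rk (indicatorConstLp 2 hE hμ (1 : ℂ)) v) = 0 := by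
    intro n E hE hEn hμ v
    set u : HH := indicatorConstLp 2 hE hμ (1 : ℂ) with hu
    let S : Submodule ℂ HH :=
      { carrier := {v | θ (rk u v) = 0}
        add_mem' := by
          intro a b ha hb
          have ha' : θ (rk u a) = 0 := ha
          have hb' : θ (rk u b) = 0 := hb
          change θ (rk u (a + b)) = 0
          rw [hadd2, map_add, ha', hb', add_zero]
        zero_mem' := by
          change θ (rk u 0) = 0
          have : rk u (0 : HH) = 0 := by
            ext1 x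
            simp [rk]
          rw [this, map_zero]
        smul_mem' := by
          intro c a ha
          have ha' : θ (rk u a) = 0 := ha
          change θ (rk u (c • a)) = 0
          rw [hsm2, map_smul, ha', smul_zero] }
    have hS : IsClosed (S : Set HH) :=
      isClosed_eq (θ.continuous.comp (hc1 u)) continuous_const
    refine dense_ind hK S hS ?_ v
    intro m F hF' hFm hμ'
    change θ (rk u _) = 0
    refine stepB hK θ hθ hDex ((max n m : ℕ) + 1 : ℝ) (by positivity) E F hE hF' ?_ ?_ _ _ ?_ ?_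
    · refine hEn.trans (An_mono (by positivity) ?_)
      have : (n : ℝ) ≤ ((max n m : ℕ) : ℝ) := by exact_mod_cast le_max_left _ _
      linarith
    · refine hFm.trans (An_mono (by positivity) ?_)
      have : (m : ℝ) ≤ ((max n m : ℕ) : ℝ) := by exact_mod_cast le_max_right _ _
      linarith
    · exact indicatorConstLp_coeFn
    · exact indicatorConstLp_coeFn
  have hall : ∀ u v : HH, θ (rk u v) = 0 := by
    intro u v
    let S : Submodule ℂ HH :=
      { carrier := {u | θ (rk u v) = 0}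
        add_mem' := by
          intro a b ha hb
          have ha' : θ (rk a v) = 0 := ha
          have hb' : θ (rk b v) = 0 := hb
          change θ (rk (a + b) v) = 0
          rw [hadd1, map_add, ha', hb', add_zero]
        zero_mem' := by
          change θ (rk 0 v) = 0
          have : rk (0 : HH) v = 0 := by
            ext1 x
            simp [rk]
          rw [this, map_zero]
        smul_mem' := by
          intro c a ha
          have ha' : θ (rk a v) = 0 := ha
          change θ (rk (c • a) v) = 0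
          rw [hsm1, map_smul, ha', smul_zero] }
    have hS : IsClosed (S : Set HH) :=
      isClosed_eq (θ.continuous.comp (hc2 v)) continuous_const
    refine dense_ind hK S hS ?_ u
    intro n E hE hEn hμ
    exact hind n E hE hEn hμ v
  refine (hB HH).1 θ hθ ?_
  intro c hc
  have hker : IsClosed ((LinearMap.ker θ.toLinearMap : Submodule ℂ (HH →L[ℂ] HH)) :
      Set (HH →L[ℂ] HH)) := θ.isClosed_ker
  have hle : cpt HH ≤ LinearMap.ker θ.toLinearMap := by
    refine Submodule.topologicalClosure_minimal _ ?_ hker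
    rw [Submodule.span_le]
    rintro T ⟨u, v, rfl⟩
    exact hall u v
  exact hle hc

end Pool.Agent.R283.QS
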