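import Pool.Agent.R283.QS.Stm

/-!
# Piece P-TW of project QS (MP_43823f_an): the twisting relation
-/

set_option autoImplicit false

open scoped InnerProductSpace ENNReal
open MeasureTheory Set Filter Topology

namespace Pool.Agent.R283.QS

namespace TwAux

theorem chi_cont (c : LCChar) : Continuous c.χ := by
  obtain ⟨r, hr, h⟩ := c.lc
  rw [continuous_iff_continuousAt]
  intro x
  have : (fun _ => c.χ x) =ᶠ[𝓝 x] c.χ := by
    filter_upwards [Metric.closedBall_mem_nhds x hr] with y hy
    have h1 : c.χ (y - x) = 1 := h _ (by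
      rw [Metric.mem_closedBall, dist_eq_norm] at hy
      exact hy)
    have h2 := c.add (y - x) x
    rw [h1, one_mul, sub_add_cancel] at h2
    exact h2.symm
  exact continuousAt_const.congr this

variable {μ : Measure (ℚ_[2] × ℚ_[2])}

theorem memR (c : LCChar) (A : ℚ_[2] × ℚ_[2] → ℚ_[2] × ℚ_[2]) (hA : MeasurePreserving A μ μ)
    (G : Lp ℂ 2 μ) : MemLp (fun p => c.χ p.1 * G (A p)) 2 μ := by
  have h1 : MemLp (fun p => G (A p)) 2 μ := (Lp.memLp G).comp_measurePreserving hA
  refine h1.of_le ?_ (ae_of_all _ fun p => ?_)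
  · exact ((chi_cont c).measurable.comp measurable_fst).aestronglyMeasurable.mul h1.1
  · rw [norm_mul, c.norm, one_mul]

/-- `G ↦ χ(s) G(A(s,t))` -/
noncomputable def RR (c : LCChar) (A : ℚ_[2] × ℚ_[2] → ℚ_[2] × ℚ_[2]) (hA : MeasurePreserving A μ μ) :
    Lp ℂ 2 μ →L[ℂ] Lp ℂ 2 μ :=
  LinearMap.mkContinuous
    { toFun := fun G => (memR c A hA G).toLp
      map_add' := by
        intro G G'
        apply Lp.ext
        filter_upwards [(memR c A hA (G + G')).coeFn_toLp, (memR c A hA G).coeFn_toLp,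
          (memR c A hA G').coeFn_toLp,
          Lp.coeFn_add ((memR c A hA G).toLp) ((memR c A hA G').toLp),
          hA.quasiMeasurePreserving.ae (Lp.coeFn_add G G')] with p h1 h2 h3 h4 h5
        rw [h1, h4, Pi.add_apply, h2, h3, h5, Pi.add_apply]
        ring
      map_smul' := by
        intro z G
        apply Lp.ext
        filter_upwards [(memR c A hA (z • G)).coeFn_toLp, (memR c A hA G).coeFn_toLp,
          Lp.coeFn_smul z ((memR c A hA G).toLp),
          hA.quasiMeasurePreserving.ae (Lp.coeFn_smul z G)] with p h1 h2 h3 h4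
        simp only [RingHom.id_apply]
        rw [h1, h3, Pi.smul_apply, h2, h4, Pi.smul_apply, smul_eq_mul, smul_eq_mul]
        ring } 1 (by
    intro G
    simp only [LinearMap.coe_mk, AddHom.coe_mk]
    rw [Lp.norm_toLp, Lp.norm_def, one_mul]
    refine ENNReal.toReal_mono (Lp.eLpNorm_ne_top G) ?_
    have h1 : eLpNorm (fun p => c.χ p.1 * G (A p)) 2 μ ≤ eLpNorm (fun p => G (A p)) 2 μ :=
      eLpNorm_mono fun p => by rw [norm_mul, c.norm, one_mul]
    refine h1.trans (le_of_eq ?_)
    exact eLpNorm_comp_measurePreserving (Lp.aestronglyMeasurable G) hA)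

theorem RR_spec (c : LCChar) (A : ℚ_[2] × ℚ_[2] → ℚ_[2] × ℚ_[2]) (hA : MeasurePreserving A μ μ)
    (G : Lp ℂ 2 μ) : RR c A hA G =ᵐ[μ] fun p => c.χ p.1 * G (A p) :=
  (memR c A hA G).coeFn_toLp

end TwAux

open TwAux

theorem t_PTW (hK : PKI) (hT : PTH) : PTW := by
  intro t r U amp ht htf hr hrf hamp hU hUs c a ha P hP x y
  obtain ⟨k1, k2, -, k4⟩ := hK
  have := k1
  have := k2
  have hA0 : MeasurePreserving (fun y : ℚ_[2] => a⁻¹ * y) kap kap := k4 a⁻¹ (inv_ne_zero ha)
  have hA : MeasurePreserving (fun p : ℚ_[2] × ℚ_[2] => (a⁻¹ * p.1, p.2)) (kap.prod sig) (kap.prod sig) :=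
    hA0.prod (MeasurePreserving.id sig)
  have hΨ := hT.2
  -- `amp P = R`
  have hR : amp P = RR c _ hA := by
    refine ContinuousLinearMap.ext_on (s := {z | ∃ x y, z = r x y}) ?_ ?_
    · rw [Submodule.dense_iff_topologicalClosure_eq_top]
      exact hr.total
    · rintro z ⟨f, g, rfl⟩
      change amp P (r f g) = RR c _ hA (r f g)
      rw [hamp.1]
      apply Lp.ext
      filter_upwards [hrf (P f) g, RR_spec c _ hA (r f g),
        hA.quasiMeasurePreserving.ae (hrf f g),
        (Measure.quasiMeasurePreserving_fst (μ := kap) (ν := sig)).ae (hP f)] with p h1 h2 h3 h4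
      rw [h1, h2, h3, h4]
      ring
  unfold Del
  change U (amp P (U.symm (t x y))) = t (P x) (P y)
  have key : amp P (U.symm (t x y)) = U.symm (t (P x) (P y)) := by
    rw [hR]
    apply Lp.ext
    have q1 := (Measure.quasiMeasurePreserving_fst (μ := kap) (ν := kap)).comp
      hΨ.quasiMeasurePreserving
    have q2 := (Measure.quasiMeasurePreserving_snd (μ := kap) (ν := kap)).comp
      hΨ.quasiMeasurePreserving
    have hV : ∀ᵐ p ∂(kap.prod sig), (U.symm (t x y)) p = x (p.1 * p.2) * y (p.1 * (1 - p.2)) := by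
      filter_upwards [hUs (t x y), hΨ.quasiMeasurePreserving.ae (htf x y)] with p h1 h2
      rw [h1, h2]
    filter_upwards [RR_spec c _ hA (U.symm (t x y)), hUs (t (P x) (P y)),
      hΨ.quasiMeasurePreserving.ae (htf (P x) (P y)), hA.quasiMeasurePreserving.ae hV,
      q1.ae (hP x), q2.ae (hP y)] with p h1 h2 h3 h4 h5 h6
    simp only [Function.comp_apply] at h5 h6
    rw [h1, h2, h3, h4, h5, h6]
    have h7 : c.χ p.1 = c.χ (p.1 * p.2) * c.χ (p.1 * (1 - p.2)) := by
      rw [← c.add]; congr 1; ring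
    rw [h7]
    simp only [mul_assoc, mul_comm, mul_left_comm]
  rw [key]
  exact U.apply_symm_apply _

end Pool.Agent.R283.QS
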