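import Pool.Agent.R283.QS.Stm

/-! QS: the quantum semigroup of the abstract situation. -/

set_option autoImplicit false

open scoped InnerProductSpace ENNReal
open MeasureTheory Set Filter Topology

namespace Pool.Agent.R283.QS

section
variable {H L K' K : Type}
  [NormedAddCommGroup H] [InnerProductSpace ℂ H] [CompleteSpace H]
  [NormedAddCommGroup L] [InnerProductSpace ℂ L] [CompleteSpace L]
  [NormedAddCommGroup K'] [InnerProductSpace ℂ K'] [CompleteSpace K']
  [NormedAddCommGroup K] [InnerProductSpace ℂ K] [CompleteSpace K]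

theorem qs_del_apply (U : K' ≃ₗᵢ[ℂ] K) (amp : (H →L[ℂ] H) →⋆ₐ[ℂ] (K' →L[ℂ] K'))
    (T : H →L[ℂ] H) (z : K) : Del U amp T z = U (amp T (U.symm z)) := rfl

theorem qs_rk_apply (u v z : H) : rk u v z = ⟪v, z⟫_ℂ • u := rfl

theorem qs_mul_rk (T : H →L[ℂ] H) (u v : H) : T * rk u v = rk (T u) v := by
  ext z
  rw [ContinuousLinearMap.mul_apply, qs_rk_apply, qs_rk_apply, map_smul]

theorem qs_star (U : K' ≃ₗᵢ[ℂ] K) (amp : (H →L[ℂ] H) →⋆ₐ[ℂ] (K' →L[ℂ] K'))
    (T : H →L[ℂ] H) : Del U amp (star T) = star (Del U amp T) := by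
  rw [ContinuousLinearMap.star_eq_adjoint (Del U amp T), ContinuousLinearMap.eq_adjoint_iff]
  intro x y
  rw [qs_del_apply, qs_del_apply, map_star, ContinuousLinearMap.star_eq_adjoint]
  have h1 : ⟪U (ContinuousLinearMap.adjoint (amp T) (U.symm x)), y⟫_ℂ =
      ⟪ContinuousLinearMap.adjoint (amp T) (U.symm x), U.symm y⟫_ℂ := by
    rw [← U.inner_map_map, U.apply_symm_apply]
  have h2 : ⟪x, U (amp T (U.symm y))⟫_ℂ = ⟪U.symm x, amp T (U.symm y)⟫_ℂ := by
    rw [← U.inner_map_map (U.symm x), U.apply_symm_apply]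
  rw [h1, h2, ContinuousLinearMap.adjoint_inner_left]

theorem t_SQS (hC : SCPT) (hT : STEN) (hO : SCOA) : SQS := by
  intro H L K' K _ _ _ _ _ _ _ _ _ _ _ _ t r U amp G π hs
  have hten := hT H K t hs.ht
  constructor
  · intro a _ b _
    ext z
    rw [qs_del_apply, map_add]
    simp only [ContinuousLinearMap.add_apply, map_add, qs_del_apply]
  · intro c a _
    ext z
    rw [qs_del_apply, map_smul]
    simp only [ContinuousLinearMap.smul_apply, map_smul, qs_del_apply]
  · intro a _ b _
    ext z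
    rw [qs_del_apply, map_mul, ContinuousLinearMap.mul_apply, ContinuousLinearMap.mul_apply,
      qs_del_apply, qs_del_apply, U.symm_apply_apply]
  · intro a _
    exact qs_star U amp a
  · ext z
    rw [qs_del_apply, map_one, ContinuousLinearMap.one_apply, U.apply_symm_apply,
      ContinuousLinearMap.one_apply]
  · intro a _
    rw [hten, (hC K).2.2.1]
    exact Set.mem_univ _
  · rw [hten]
    intro S hS
    set N : Submodule ℂ (K →L[ℂ] K) := (Submodule.span ℂ {X | ∃ a ∈ cpt H, ∃ R ∈ cpt K,
      X = Del U amp a * R}).topologicalClosure with hN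
    have hNc : IsClosed (N : Set (K →L[ℂ] K)) := Submodule.isClosed_topologicalClosure _
    have hgen : ∀ a ∈ cpt H, ∀ R ∈ cpt K, Del U amp a * R ∈ N := fun a ha R hR =>
      Submodule.le_topologicalClosure _ (Submodule.subset_span ⟨a, ha, R, hR, rfl⟩)
    have hle : cpt K ≤ N := by
      refine Submodule.topologicalClosure_minimal _ ?_ hNc
      rw [Submodule.span_le]
      rintro _ ⟨ζ, ζ', rfl⟩
      let Lf : K →L[ℂ] (K →L[ℂ] K) := ContinuousLinearMap.smulRightL ℂ K K (innerSL ℂ ζ')
      have hLf : ∀ z, Lf z = rk z ζ' := fun z => rfl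
      let Z : Submodule ℂ K' := (N.comap (Lf : K →ₗ[ℂ] (K →L[ℂ] K))).comap
        (U.toContinuousLinearEquiv : K' →ₗ[ℂ] K)
      have hZc : IsClosed (Z : Set K') := by
        have hcont : Continuous (fun z : K' => Lf (U z)) := Lf.continuous.comp U.continuous
        exact hNc.preimage hcont
      have hZ : (Submodule.span ℂ {z | ∃ x y, z = r x y}).topologicalClosure ≤ Z := by
        refine Submodule.topologicalClosure_minimal _ ?_ hZc
        rw [Submodule.span_le]
        rintro _ ⟨x, y, rfl⟩
        change Lf (U (r x y)) ∈ N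
        rw [hLf]
        by_cases hx : x = 0
        · rw [hx, map_zero, LinearMap.zero_apply, map_zero]
          have h0 : rk (0 : K) ζ' = 0 := by
            ext z
            rw [qs_rk_apply, smul_zero, ContinuousLinearMap.zero_apply]
          rw [h0]
          exact N.zero_mem
        · have hxn : ⟪x, x⟫_ℂ ≠ 0 := inner_self_ne_zero.2 hx
          have ha : (⟪x, x⟫_ℂ)⁻¹ • rk x x ∈ cpt H :=
            (cpt H).smul_mem _ ((hC H).2.2.2 x x)
          have hax : ((⟪x, x⟫_ℂ)⁻¹ • rk x x) x = x := by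
            rw [ContinuousLinearMap.smul_apply, qs_rk_apply, smul_smul, inv_mul_cancel₀ hxn,
              one_smul]
          have hD : Del U amp ((⟪x, x⟫_ℂ)⁻¹ • rk x x) (U (r x y)) = U (r x y) := by
            rw [qs_del_apply, U.symm_apply_apply, hs.hamp.1, hax]
          have h1 := hgen _ ha _ ((hC K).2.2.2 (U (r x y)) ζ')
          rwa [qs_mul_rk, hD] at h1
      rw [hs.hr.total] at hZ
      have h2 : U.symm ζ ∈ Z := hZ Submodule.mem_top
      have h3 : Lf (U (U.symm ζ)) ∈ N := h2
      rw [U.apply_symm_apply, hLf] at h3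
      exact h3
    exact hle hS
  · intro a _ x y z x' y' z' m n hm hn
    exact hO H L K' K t r U amp G π hs a x y z x' y' z' m n hm hn

end

end Pool.Agent.R283.QS
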