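import Pool.Agent.R283.QS.Stm

/-!
QS-SLF (written by helper637): slices of an operator on `H ⊗ H` by arbitrary bounded functionals.
-/

set_option autoImplicit false

open scoped InnerProductSpace

namespace Pool.Agent.R283.QS

section
variable {H K : Type}
  [NormedAddCommGroup H] [InnerProductSpace ℂ H] [CompleteSpace H]
  [NormedAddCommGroup K] [InnerProductSpace ℂ K] [CompleteSpace K]

/-- The bounded sesquilinear form `(y, y') ↦ ν (J_y^* Z J_{y'})` comes from an operator. -/
theorem slf_aux (J : H →ₗ[ℂ] (H →L[ℂ] K)) (hJ : ∀ y, ‖J y‖ ≤ ‖y‖)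
    (ν : (H →L[ℂ] H) →L[ℂ] ℂ) (Z : K →L[ℂ] K) :
    ∃ m : H →L[ℂ] H,
      (∀ y y' : H, ⟪y, m y'⟫_ℂ = ν (ContinuousLinearMap.adjoint (J y) ∘L Z ∘L J y')) ∧
      ‖m‖ ≤ ‖ν‖ * ‖Z‖ := by
  classical
  have hbd : ∀ y y' : H, ‖ν (ContinuousLinearMap.adjoint (J y) ∘L Z ∘L J y')‖
      ≤ ‖ν‖ * ‖Z‖ * ‖y‖ * ‖y'‖ := by
    intro y y'
    calc ‖ν (ContinuousLinearMap.adjoint (J y) ∘L Z ∘L J y')‖
        ≤ ‖ν‖ * ‖ContinuousLinearMap.adjoint (J y) ∘L Z ∘L J y'‖ := ν.le_opNorm _
      _ ≤ ‖ν‖ * (‖ContinuousLinearMap.adjoint (J y)‖ * (‖Z‖ * ‖J y'‖)) := by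
          gcongr
          refine (ContinuousLinearMap.opNorm_comp_le _ _).trans ?_
          gcongr
          exact ContinuousLinearMap.opNorm_comp_le _ _
      _ ≤ ‖ν‖ * (‖y‖ * (‖Z‖ * ‖y'‖)) := by
          have h1 : ‖ContinuousLinearMap.adjoint (J y)‖ ≤ ‖y‖ := by
            rw [LinearIsometryEquiv.norm_map]
            exact hJ y
          have h2 := hJ y'
          gcongr
      _ = ‖ν‖ * ‖Z‖ * ‖y‖ * ‖y'‖ := by ring
  let B0 : H →ₛₗ[starRingEnd ℂ] H →ₛₗ[RingHom.id ℂ] ℂ :=
    LinearMap.mk₂'ₛₗ (starRingEnd ℂ) (RingHom.id ℂ)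
      (fun y y' => ν (ContinuousLinearMap.adjoint (J y) ∘L Z ∘L J y'))
      (by
        intro a b c
        simp only [map_add, ContinuousLinearMap.add_comp])
      (by
        intro c a b
        rw [map_smul J, LinearIsometryEquiv.map_smulₛₗ, ContinuousLinearMap.smul_comp, map_smul])
      (by
        intro a b c
        simp only [map_add, ContinuousLinearMap.comp_add])
      (by
        intro c a b
        simp only [map_smul, ContinuousLinearMap.comp_smul, RingHom.id_apply])
  let B : H →L⋆[ℂ] H →L[ℂ] ℂ := LinearMap.mkContinuous₂ B0 (‖ν‖ * ‖Z‖) (by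
    intro x y
    exact hbd x y)
  have hB : ∀ y y', B y y' = ν (ContinuousLinearMap.adjoint (J y) ∘L Z ∘L J y') := fun _ _ => rfl
  let S : H →L[ℂ] H := InnerProductSpace.continuousLinearMapOfBilin B
  have hS : ∀ y y', ⟪S y, y'⟫_ℂ = B y y' := fun y y' =>
    InnerProductSpace.continuousLinearMapOfBilin_apply B y y'
  refine ⟨ContinuousLinearMap.adjoint S, ?_, ?_⟩
  · intro y y'
    rw [ContinuousLinearMap.adjoint_inner_right, hS, hB]
  · rw [LinearIsometryEquiv.norm_map]
    refine ContinuousLinearMap.opNorm_le_bound _ (by positivity) ?_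
    intro y
    by_cases hy : ‖S y‖ = 0
    · rw [hy]; positivity
    · have h1 : ‖S y‖ * ‖S y‖ = ‖B y (S y)‖ := by
        rw [← hS, inner_self_eq_norm_sq_to_K]
        simp [pow_two]
      have h2 : ‖B y (S y)‖ ≤ ‖ν‖ * ‖Z‖ * ‖y‖ * ‖S y‖ := hbd y (S y)
      have h3 : 0 < ‖S y‖ := lt_of_le_of_ne (norm_nonneg _) (Ne.symm hy)
      rw [← h1] at h2
      exact le_of_mul_le_mul_right h2 h3

omit [CompleteSpace H] [CompleteSpace K] in
theorem slf_norm_eq {t : H →ₗ[ℂ] H →ₗ[ℂ] K} (ht : IsHT t) (x y : H) :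
    ‖t x y‖ = ‖x‖ * ‖y‖ := by
  have h := ht.inner x y x y
  rw [inner_self_eq_norm_sq_to_K, inner_self_eq_norm_sq_to_K, inner_self_eq_norm_sq_to_K] at h
  have h2 : ‖t x y‖ ^ 2 = (‖x‖ * ‖y‖) ^ 2 := by
    rw [mul_pow]
    exact_mod_cast h
  exact (pow_left_inj₀ (norm_nonneg _) (by positivity) two_ne_zero).1 h2

end

/-- SLF: slices by arbitrary bounded functionals. -/
theorem t_SSLF : SSLF := by
  intro H K _ _ _ _ _ _ t ht ν Z
  constructor
  · -- right slices: `J y u = t u y`
    let J : H →ₗ[ℂ] (H →L[ℂ] K) :=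
      { toFun := fun y => LinearMap.mkContinuous (t.flip y) ‖y‖ (by
          intro u
          rw [LinearMap.flip_apply, slf_norm_eq ht, mul_comm])
        map_add' := by
          intro a b
          ext u
          simp
        map_smul' := by
          intro c a
          ext u
          simp }
    have hJ : ∀ y u, J y u = t u y := fun _ _ => rfl
    obtain ⟨m, hm, hn⟩ := slf_aux J (fun y => ContinuousLinearMap.opNorm_le_bound _
      (norm_nonneg _) (fun u => by rw [hJ, slf_norm_eq ht, mul_comm])) ν Z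
    refine ⟨m, ?_, hn⟩
    intro y y' X hX
    rw [hm]
    congr 1
    ext v
    refine ext_inner_left ℂ (fun u => ?_)
    rw [hX u v]
    simp only [ContinuousLinearMap.comp_apply, ContinuousLinearMap.adjoint_inner_right, hJ]
  · -- left slices: `J x u = t x u`
    let J : H →ₗ[ℂ] (H →L[ℂ] K) :=
      { toFun := fun x => LinearMap.mkContinuous (t x) ‖x‖ (by
          intro u
          rw [slf_norm_eq ht])
        map_add' := by
          intro a b
          ext u
          simp
        map_smul' := by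
          intro c a
          ext u
          simp }
    have hJ : ∀ y u, J y u = t y u := fun _ _ => rfl
    obtain ⟨m, hm, hn⟩ := slf_aux J (fun y => ContinuousLinearMap.opNorm_le_bound _
      (norm_nonneg _) (fun u => by rw [hJ, slf_norm_eq ht])) ν Z
    refine ⟨m, ?_, hn⟩
    intro y y' X hX
    rw [hm]
    congr 1
    ext v
    refine ext_inner_left ℂ (fun u => ?_)
    rw [hX u v]
    simp only [ContinuousLinearMap.comp_apply, ContinuousLinearMap.adjoint_inner_right, hJ]

end Pool.Agent.R283.QS
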