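import Pool.Agent.R283.QS.Stm

set_option autoImplicit false

open scoped InnerProductSpace ENNReal
open MeasureTheory Set Filter Topology

namespace Pool.Agent.R283.QS

namespace SLIaux

section
variable {H K : Type}
  [NormedAddCommGroup H] [InnerProductSpace ℂ H] [CompleteSpace H]
  [NormedAddCommGroup K] [InnerProductSpace ℂ K] [CompleteSpace K]

theorem norm_t {t : H →ₗ[ℂ] H →ₗ[ℂ] K} (ht : IsHT t) (x y : H) : ‖t x y‖ = ‖x‖ * ‖y‖ := by
  have h1 := ht.inner x y x y
  rw [inner_self_eq_norm_sq_to_K, inner_self_eq_norm_sq_to_K, inner_self_eq_norm_sq_to_K] at h1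
  have h2 : ‖t x y‖ ^ 2 = (‖x‖ * ‖y‖) ^ 2 := by
    rw [mul_pow]
    exact_mod_cast h1
  exact (pow_left_inj₀ (norm_nonneg _) (by positivity) (by norm_num)).1 h2

/-- `u ↦ u ⊗ z` -/
noncomputable def JR {t : H →ₗ[ℂ] H →ₗ[ℂ] K} (ht : IsHT t) (z : H) : H →L[ℂ] K :=
  LinearMap.mkContinuous (t.flip z) ‖z‖ (fun u => by
    rw [LinearMap.flip_apply, norm_t ht, mul_comm])

/-- `u ↦ z ⊗ u` -/
noncomputable def JL {t : H →ₗ[ℂ] H →ₗ[ℂ] K} (ht : IsHT t) (z : H) : H →L[ℂ] K :=
  LinearMap.mkContinuous (t z) ‖z‖ (fun u => by rw [norm_t ht])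

theorem JR_norm {t : H →ₗ[ℂ] H →ₗ[ℂ] K} (ht : IsHT t) (z : H) : ‖JR ht z‖ ≤ ‖z‖ :=
  LinearMap.mkContinuous_norm_le _ (norm_nonneg _) _

theorem JL_norm {t : H →ₗ[ℂ] H →ₗ[ℂ] K} (ht : IsHT t) (z : H) : ‖JL ht z‖ ≤ ‖z‖ :=
  LinearMap.mkContinuous_norm_le _ (norm_nonneg _) _

theorem bound (J J' : H →L[ℂ] K) (Z : K →L[ℂ] K) (a b : ℝ) (hJ : ‖J‖ ≤ a) (hJ' : ‖J'‖ ≤ b) :
    ‖(ContinuousLinearMap.adjoint J) ∘L (Z ∘L J')‖ ≤ ‖Z‖ * a * b := by
  have ha : 0 ≤ a := (norm_nonneg _).trans hJ
  calc ‖(ContinuousLinearMap.adjoint J) ∘L (Z ∘L J')‖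
      ≤ ‖ContinuousLinearMap.adjoint J‖ * ‖Z ∘L J'‖ := ContinuousLinearMap.opNorm_comp_le _ _
    _ ≤ a * (‖Z‖ * b) := by
        apply mul_le_mul
        · rw [LinearIsometryEquiv.norm_map]
          exact hJ
        · exact (ContinuousLinearMap.opNorm_comp_le _ _).trans
            (mul_le_mul_of_nonneg_left hJ' (norm_nonneg _))
        · exact norm_nonneg _
        · exact ha
    _ = ‖Z‖ * a * b := by ring

theorem inner_m (J J' : H →L[ℂ] K) (Z : K →L[ℂ] K) (u v : H) :
    ⟪u, ((ContinuousLinearMap.adjoint J) ∘L (Z ∘L J')) v⟫_ℂ = ⟪J u, Z (J' v)⟫_ℂ := by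
  rw [ContinuousLinearMap.comp_apply, ContinuousLinearMap.adjoint_inner_right]
  rfl

end

section
variable {H : Type} [NormedAddCommGroup H] [InnerProductSpace ℂ H] [CompleteSpace H]

theorem rk_apply (u v x : H) : rk u v x = ⟪v, x⟫_ℂ • u := rfl

theorem rk_mem (u v : H) : rk u v ∈ cpt H :=
  Submodule.le_topologicalClosure _ (Submodule.subset_span ⟨u, v, rfl⟩)

theorem mul_rk (T : H →L[ℂ] H) (u v : H) : T * rk u v = rk (T u) v := by
  ext x
  rw [ContinuousLinearMap.mul_apply, rk_apply, rk_apply, map_smul]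

theorem rk_mul (T : H →L[ℂ] H) (u v : H) : rk u v * T = rk u (star T v) := by
  ext x
  rw [ContinuousLinearMap.mul_apply, rk_apply, rk_apply, ContinuousLinearMap.star_eq_adjoint,
    ContinuousLinearMap.adjoint_inner_left]

theorem star_rk (u v : H) : star (rk u v) = rk v u := by
  rw [ContinuousLinearMap.star_eq_adjoint]
  symm
  rw [ContinuousLinearMap.eq_adjoint_iff]
  intro x y
  rw [rk_apply, rk_apply, inner_smul_left, inner_smul_right, inner_conj_symm, mul_comm]

theorem left_mem (T S : H →L[ℂ] H) (hS : S ∈ cpt H) : T * S ∈ cpt H := by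
  have h : cpt H ≤ (cpt H).comap (LinearMap.mulLeft ℂ T) := by
    apply Submodule.topologicalClosure_minimal
    · rw [Submodule.span_le]
      rintro _ ⟨u, v, rfl⟩
      change T * rk u v ∈ cpt H
      rw [mul_rk]
      exact rk_mem _ _
    · exact (Submodule.isClosed_topologicalClosure _).preimage (continuous_const.mul continuous_id)
  exact h hS

theorem right_mem (T S : H →L[ℂ] H) (hS : S ∈ cpt H) : S * T ∈ cpt H := by
  have h : cpt H ≤ (cpt H).comap (LinearMap.mulRight ℂ T) := by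
    apply Submodule.topologicalClosure_minimal
    · rw [Submodule.span_le]
      rintro _ ⟨u, v, rfl⟩
      change rk u v * T ∈ cpt H
      rw [rk_mul]
      exact rk_mem _ _
    · exact (Submodule.isClosed_topologicalClosure _).preimage (continuous_id.mul continuous_const)
  exact h hS

theorem star_mem' (S : H →L[ℂ] H) (hS : S ∈ cpt H) : star S ∈ cpt H := by
  let N : Submodule ℂ (H →L[ℂ] H) :=
    { carrier := {a | star a ∈ cpt H}
      add_mem' := by
        intro a b ha hb
        change star (a + b) ∈ cpt H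
        rw [star_add]
        exact (cpt H).add_mem ha hb
      zero_mem' := by
        change star (0 : H →L[ℂ] H) ∈ cpt H
        rw [star_zero]
        exact (cpt H).zero_mem
      smul_mem' := by
        intro c a ha
        change star (c • a) ∈ cpt H
        rw [star_smul]
        exact (cpt H).smul_mem _ ha }
  have h : cpt H ≤ N := by
    apply Submodule.topologicalClosure_minimal
    · rw [Submodule.span_le]
      rintro _ ⟨u, v, rfl⟩
      change star (rk u v) ∈ cpt H
      rw [star_rk]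
      exact rk_mem _ _
    · exact (Submodule.isClosed_topologicalClosure _).preimage continuous_star
  exact h hS

end

end SLIaux

open SLIaux

theorem t_SSLI : SSLI := by
  intro H K _ _ _ _ _ _ t ht Z z z'
  refine ⟨⟨(ContinuousLinearMap.adjoint (JR ht z)) ∘L (Z ∘L (JR ht z')), ?_, ?_⟩,
    ⟨(ContinuousLinearMap.adjoint (JL ht z)) ∘L (Z ∘L (JL ht z')), ?_, ?_⟩⟩
  · intro u v
    exact inner_m _ _ _ _ _
  · exact bound _ _ _ _ _ (JR_norm ht z) (JR_norm ht z')
  · intro u v
    exact inner_m _ _ _ _ _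
  · exact bound _ _ _ _ _ (JL_norm ht z) (JL_norm ht z')

theorem t_SCPT : SCPT := by
  intro H _ _ _
  refine ⟨⟨Submodule.isClosed_topologicalClosure _, fun a _ b hb => left_mem a b hb,
    fun a ha => star_mem' a ha⟩, ?_, ?_, rk_mem⟩
  · unfold Nondeg
    rw [eq_top_iff]
    intro x _
    apply Submodule.le_topologicalClosure
    by_cases hx : x = 0
    · rw [hx]
      exact Submodule.zero_mem _
    · apply Submodule.subset_span
      refine ⟨rk ((⟪x, x⟫_ℂ)⁻¹ • x) x, rk_mem _ _, x, ?_⟩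
      rw [rk_apply, smul_smul, mul_inv_cancel₀, one_smul]
      exact inner_self_ne_zero.2 hx
  · apply Set.eq_univ_of_forall
    intro T S hS
    exact ⟨left_mem T S hS, right_mem T S hS⟩

end Pool.Agent.R283.QS
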