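import Pool.Agent.R283.QS.Stm

set_option autoImplicit false

open scoped InnerProductSpace ENNReal
open MeasureTheory Set Filter Topology

namespace Pool.Agent.R283.QS

namespace STATE

section gensec

variable {V : Type} [NormedAddCommGroup V] [NormedSpace ℂ V] {ι : Type}

theorem gen (f : ι → (V →L[ℂ] ℂ)) (c : ι → ℝ) (hc : Summable c) (hf : ∀ i, ‖f i‖ ≤ c i) :
    ∃ S : V →L[ℂ] ℂ, (∀ x, HasSum (fun i => f i x) (S x)) ∧ ‖S‖ ≤ ∑' i, c i ∧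
      ∀ ε > (0 : ℝ), ∃ F : Finset ι, ‖S - ∑ i ∈ F, f i‖ ≤ ε := by
  have hs : Summable f := Summable.of_norm_bounded hc hf
  have h : Tendsto (fun F : Finset ι => ∑ i ∈ F, f i) atTop (𝓝 (∑' i, f i)) := hs.hasSum
  refine ⟨∑' i, f i, fun x => ?_, tsum_of_norm_bounded hc.hasSum hf, fun ε hε => ?_⟩
  · have h2 : Tendsto (fun F : Finset ι => (∑ i ∈ F, f i) x) atTop (𝓝 ((∑' i, f i) x)) := by
      rw [tendsto_iff_norm_sub_tendsto_zero] at h ⊢
      have h3 : Tendsto (fun F : Finset ι => ‖(∑ i ∈ F, f i) - ∑' i, f i‖ * ‖x‖) atTop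
          (𝓝 (0 * ‖x‖)) := h.mul_const _
      rw [zero_mul] at h3
      refine squeeze_zero (fun F => norm_nonneg _) (fun F => ?_) h3
      exact ((∑ i ∈ F, f i) - ∑' i, f i).le_opNorm x
    have h4 : Tendsto (fun F : Finset ι => ∑ i ∈ F, f i x) atTop (𝓝 ((∑' i, f i) x)) := by
      refine h2.congr fun F => ?_
      simp
    exact h4
  · rw [tendsto_iff_norm_sub_tendsto_zero] at h
    obtain ⟨F, hF⟩ := (h.eventually (gt_mem_nhds hε)).exists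
    refine ⟨F, ?_⟩
    rw [norm_sub_rev]
    exact hF.le

end gensec

section vfsec

variable {M : Type} [NormedAddCommGroup M] [InnerProductSpace ℂ M]

/-- vector functional -/
noncomputable def vf (ξ η : M) : (M →L[ℂ] M) →L[ℂ] ℂ :=
  (innerSL ℂ ξ).comp (ContinuousLinearMap.apply ℂ M η)

theorem vf_apply (ξ η : M) (T : M →L[ℂ] M) : vf ξ η T = ⟪ξ, T η⟫_ℂ := rfl

theorem vf_norm (ξ η : M) : ‖vf ξ η‖ ≤ ‖ξ‖ * ‖η‖ := by
  refine ContinuousLinearMap.opNorm_le_bound _ (by positivity) fun T => ?_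
  rw [vf_apply]
  calc ‖⟪ξ, T η⟫_ℂ‖ ≤ ‖ξ‖ * ‖T η‖ := norm_inner_le_norm _ _
    _ ≤ ‖ξ‖ * (‖T‖ * ‖η‖) := mul_le_mul_of_nonneg_left (T.le_opNorm η) (norm_nonneg _)
    _ = ‖ξ‖ * ‖η‖ * ‖T‖ := by ring

/-- `S` is the convex combination of the vector states -/
structure IsSt {ι : Type} (c : ι → ℝ) (v : ι → M) (S : (M →L[ℂ] M) →L[ℂ] ℂ) : Prop where
  hs : ∀ T : M →L[ℂ] M, HasSum (fun i => ((c i : ℝ) : ℂ) * ⟪v i, T (v i)⟫_ℂ) (S T)
  nm : ‖S‖ ≤ ∑' i, c i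
  ap : ∀ ε > (0 : ℝ), ∃ F : Finset ι, ‖S - ∑ i ∈ F, ((c i : ℝ) : ℂ) • vf (v i) (v i)‖ ≤ ε

theorem exists_st {ι : Type} {c : ι → ℝ} {v : ι → M} (hc0 : ∀ i, 0 ≤ c i) (hc : Summable c)
    (hv : ∀ i, ‖v i‖ ≤ 1) : ∃ S : (M →L[ℂ] M) →L[ℂ] ℂ, IsSt c v S := by
  obtain ⟨S, h1, h2, h3⟩ := gen (V := M →L[ℂ] M)
    (fun i => ((c i : ℝ) : ℂ) • vf (v i) (v i)) c hc (fun i => by
      refine ContinuousLinearMap.opNorm_le_bound _ (hc0 i) fun T => ?_
      have h1 : (((c i : ℝ) : ℂ) • vf (v i) (v i)) T = ((c i : ℝ) : ℂ) * ⟪v i, T (v i)⟫_ℂ := rfl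
      rw [h1, norm_mul, Complex.norm_real, Real.norm_of_nonneg (hc0 i)]
      refine mul_le_mul_of_nonneg_left ?_ (hc0 i)
      calc ‖⟪v i, T (v i)⟫_ℂ‖ ≤ ‖v i‖ * ‖T (v i)‖ := norm_inner_le_norm _ _
        _ ≤ 1 * ‖T (v i)‖ := mul_le_mul_of_nonneg_right (hv i) (norm_nonneg _)
        _ = ‖T (v i)‖ := one_mul _
        _ ≤ ‖T‖ * ‖v i‖ := T.le_opNorm _
        _ ≤ ‖T‖ * 1 := mul_le_mul_of_nonneg_left (hv i) (norm_nonneg _)
        _ = ‖T‖ := mul_one _)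
  exact ⟨S, fun T => h1 T, h2, h3⟩

end vfsec

section nrm

variable {H : Type} [NormedAddCommGroup H] [InnerProductSpace ℂ H] [CompleteSpace H]

theorem nrm_zero : Nrm (0 : (H →L[ℂ] H) →L[ℂ] ℂ) := by
  intro ε hε
  refine ⟨0, Fin.elim0, Fin.elim0, fun T => ?_⟩
  simp
  positivity

theorem nrm_vf (ξ η : H) : Nrm (vf ξ η) := by
  intro ε hε
  refine ⟨1, fun _ => ξ, fun _ => η, fun T => ?_⟩
  simp [vf_apply]
  positivity

theorem nrm_sum (hB : SNB) {ι : Type} (F : Finset ι) (c : ι → ℂ)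
    (f : ι → ((H →L[ℂ] H) →L[ℂ] ℂ)) (hf : ∀ i, Nrm (f i)) : Nrm (∑ i ∈ F, c i • f i) := by
  obtain ⟨-, -, -, h4, h5, -⟩ := hB H
  exact Finset.sum_induction _ Nrm (fun a b ha hb => (h4 a b ha hb).1) nrm_zero
    (fun i _ => h5 (c i) (f i) (hf i))

theorem nrm_st (hB : SNB) {ι : Type} {c : ι → ℝ} {v : ι → H} {S : (H →L[ℂ] H) →L[ℂ] ℂ}
    (hS : IsSt c v S) : Nrm S := by
  obtain ⟨-, -, -, -, -, h6⟩ := hB H
  refine h6 _ fun ε hε => ?_
  obtain ⟨F, hF⟩ := hS.ap ε hε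
  exact ⟨_, nrm_sum hB F (fun i => ((c i : ℝ) : ℂ)) (fun i => vf (v i) (v i))
    (fun i => nrm_vf _ _), hF⟩

end nrm

section del

variable {H L K' K : Type}
  [NormedAddCommGroup H] [InnerProductSpace ℂ H] [CompleteSpace H]
  [NormedAddCommGroup L] [InnerProductSpace ℂ L] [CompleteSpace L]
  [NormedAddCommGroup K'] [InnerProductSpace ℂ K'] [CompleteSpace K']
  [NormedAddCommGroup K] [InnerProductSpace ℂ K] [CompleteSpace K]

theorem del_bound {r : H →ₗ[ℂ] L →ₗ[ℂ] K'} (U : K' ≃ₗᵢ[ℂ] K)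
    {amp : (H →L[ℂ] H) →⋆ₐ[ℂ] (K' →L[ℂ] K')} (ha : IsAmp r amp) (T : H →L[ℂ] H) :
    ‖Del U amp T‖ ≤ 1 * ‖T‖ := by
  rw [one_mul]
  refine ContinuousLinearMap.opNorm_le_bound _ (norm_nonneg _) fun x => ?_
  have h1 : Del U amp T x = U (amp T (U.symm x)) := rfl
  rw [h1, U.norm_map]
  calc ‖amp T (U.symm x)‖ ≤ ‖amp T‖ * ‖U.symm x‖ := (amp T).le_opNorm _
    _ = ‖amp T‖ * ‖x‖ := by rw [U.symm.norm_map]
    _ ≤ ‖T‖ * ‖x‖ := mul_le_mul_of_nonneg_right (ha.2 T) (norm_nonneg _)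

/-- `Del` as a bounded linear map -/
noncomputable def DL {r : H →ₗ[ℂ] L →ₗ[ℂ] K'} (U : K' ≃ₗᵢ[ℂ] K)
    {amp : (H →L[ℂ] H) →⋆ₐ[ℂ] (K' →L[ℂ] K')} (ha : IsAmp r amp) :
    (H →L[ℂ] H) →L[ℂ] (K →L[ℂ] K) :=
  LinearMap.mkContinuous
    { toFun := Del U amp
      map_add' := fun S T => by
        apply ContinuousLinearMap.ext
        intro x
        show U (amp (S + T) (U.symm x)) = U (amp S (U.symm x)) + U (amp T (U.symm x))
        rw [map_add amp, add_apply, map_add]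
      map_smul' := fun c T => by
        apply ContinuousLinearMap.ext
        intro x
        show U (amp (c • T) (U.symm x)) = c • U (amp T (U.symm x))
        rw [map_smul amp, smul_apply, map_smul] } 1 (del_bound U ha)

theorem DL_apply {r : H →ₗ[ℂ] L →ₗ[ℂ] K'} (U : K' ≃ₗᵢ[ℂ] K)
    {amp : (H →L[ℂ] H) →⋆ₐ[ℂ] (K' →L[ℂ] K')} (ha : IsAmp r amp) (T : H →L[ℂ] H) :
    DL U ha T = Del U amp T := rfl

theorem DL_norm {r : H →ₗ[ℂ] L →ₗ[ℂ] K'} (U : K' ≃ₗᵢ[ℂ] K)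
    {amp : (H →L[ℂ] H) →⋆ₐ[ℂ] (K' →L[ℂ] K')} (ha : IsAmp r amp) : ‖DL U ha‖ ≤ 1 :=
  LinearMap.mkContinuous_norm_le _ zero_le_one _

theorem nrm_comp (hB : SNB) (hD : SND) {r : H →ₗ[ℂ] L →ₗ[ℂ] K'} (U : K' ≃ₗᵢ[ℂ] K)
    {amp : (H →L[ℂ] H) →⋆ₐ[ℂ] (K' →L[ℂ] K')} (hr : IsHT r) (ha : IsAmp r amp)
    {ι : Type} {c : ι → ℝ} {v : ι → K} {S : (K →L[ℂ] K) →L[ℂ] ℂ} (hS : IsSt c v S) :
    Nrm (S.comp (DL U ha)) := by
  obtain ⟨-, -, -, -, -, h6⟩ := hB H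
  refine h6 _ fun ε hε => ?_
  obtain ⟨F, hF⟩ := hS.ap ε hε
  refine ⟨∑ i ∈ F, ((c i : ℝ) : ℂ) • ((vf (v i) (v i)).comp (DL U ha)),
    nrm_sum hB F _ _ (fun i => ?_), ?_⟩
  · exact hD H L K' K r U amp hr ha (v i) (v i) _ (fun T => rfl)
  · have h1 : S.comp (DL U ha) -
        ∑ i ∈ F, ((c i : ℝ) : ℂ) • ((vf (v i) (v i)).comp (DL U ha)) =
        (S - ∑ i ∈ F, ((c i : ℝ) : ℂ) • vf (v i) (v i)).comp (DL U ha) := by
      apply ContinuousLinearMap.ext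
      intro T
      simp
    rw [h1]
    calc _ ≤ ‖S - ∑ i ∈ F, ((c i : ℝ) : ℂ) • vf (v i) (v i)‖ * ‖DL U ha‖ :=
          ContinuousLinearMap.opNorm_comp_le _ _
      _ ≤ ε * 1 := mul_le_mul hF (DL_norm U ha) (norm_nonneg _) hε.le
      _ = ε := mul_one _

end del

section prodf

variable {H K : Type}
  [NormedAddCommGroup H] [InnerProductSpace ℂ H] [CompleteSpace H]
  [NormedAddCommGroup K] [InnerProductSpace ℂ K] [CompleteSpace K]

theorem t_norm {t : H →ₗ[ℂ] H →ₗ[ℂ] K} (ht : IsHT t) (x y : H) (hx : ‖x‖ = 1) (hy : ‖y‖ = 1) :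
    ‖t x y‖ ≤ 1 := by
  have h := ht.inner x y x y
  rw [inner_self_eq_norm_sq_to_K, inner_self_eq_norm_sq_to_K, inner_self_eq_norm_sq_to_K, hx,
    hy] at h
  have h2 : ‖t x y‖ ^ 2 = 1 := by
    have h3 : ((‖t x y‖ ^ 2 : ℝ) : ℂ) = ((1 : ℝ) : ℂ) := by
      push_cast
      simpa using h
    exact_mod_cast h3
  by_contra hcon
  have h4 := norm_nonneg (t x y)
  nlinarith

theorem w_prod {w : ℕ → ℝ} (hw0 : ∀ n, 0 ≤ w n) (hw : HasSum w 1) :
    HasSum (fun p : ℕ × ℕ => w p.1 * w p.2) 1 := by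
  have h1 : Summable (fun p : ℕ × ℕ => w p.1 * w p.2) :=
    hw.summable.mul_of_nonneg hw.summable hw0 hw0
  have h2 := hw.mul hw h1
  rwa [one_mul] at h2

theorem prodC (f g : ℕ → ℂ) (A B : ℂ) (hf : HasSum f A) (hg : HasSum g B)
    (hfs : Summable fun n => ‖f n‖) (hgs : Summable fun n => ‖g n‖) :
    HasSum (fun p : ℕ × ℕ => f p.1 * g p.2) (A * B) :=
  hf.mul hg (summable_mul_of_summable_norm hfs hgs)

theorem sumN {e : ℕ → H} (he : ∀ n, ‖e n‖ = 1)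
    {w : ℕ → ℝ} (hw0 : ∀ n, 0 ≤ w n) (hw : Summable w) (a : H →L[ℂ] H) :
    Summable fun n => ‖((w n : ℝ) : ℂ) * ⟪e n, a (e n)⟫_ℂ‖ := by
  refine Summable.of_nonneg_of_le (fun n => norm_nonneg _) (fun n => ?_) (hw.mul_right ‖a‖)
  rw [norm_mul, Complex.norm_real, Real.norm_of_nonneg (hw0 n)]
  refine mul_le_mul_of_nonneg_left ?_ (hw0 n)
  calc ‖⟪e n, a (e n)⟫_ℂ‖ ≤ ‖e n‖ * ‖a (e n)‖ := norm_inner_le_norm _ _
    _ = ‖a (e n)‖ := by rw [he n, one_mul]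
    _ ≤ ‖a‖ * ‖e n‖ := a.le_opNorm _
    _ = ‖a‖ := by rw [he n, mul_one]

theorem pf {t : H →ₗ[ℂ] H →ₗ[ℂ] K} (ht : IsHT t) {e : ℕ → H} (he : ∀ n, ‖e n‖ = 1)
    {w : ℕ → ℝ} (hw0 : ∀ n, 0 ≤ w n) (hw : Summable w)
    (a b : H →L[ℂ] H) (X : K →L[ℂ] K) (A B C : ℂ)
    (hA : HasSum (fun i => ((w i : ℝ) : ℂ) * ⟪e i, a (e i)⟫_ℂ) A)
    (hB : HasSum (fun i => ((w i : ℝ) : ℂ) * ⟪e i, b (e i)⟫_ℂ) B)
    (hC : HasSum (fun p : ℕ × ℕ => ((w p.1 * w p.2 : ℝ) : ℂ) *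
      ⟪t (e p.1) (e p.2), X (t (e p.1) (e p.2))⟫_ℂ) C)
    (hX : ∀ x y, X (t x y) = t (a x) (b y)) : C = A * B := by
  have h3 := prodC _ _ A B hA hB (sumN he hw0 hw a) (sumN he hw0 hw b)
  have h5 : (fun p : ℕ × ℕ => ((w p.1 * w p.2 : ℝ) : ℂ) *
      ⟪t (e p.1) (e p.2), X (t (e p.1) (e p.2))⟫_ℂ) = fun p : ℕ × ℕ =>
      (((w p.1 : ℝ) : ℂ) * ⟪e p.1, a (e p.1)⟫_ℂ) * (((w p.2 : ℝ) : ℂ) * ⟪e p.2, b (e p.2)⟫_ℂ) := by
    funext p
    rw [hX, ht.inner, Complex.ofReal_mul]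
    ring
  rw [h5] at hC
  exact hC.unique h3

theorem prod_formula {t : H →ₗ[ℂ] H →ₗ[ℂ] K} (ht : IsHT t) {e : ℕ → H} (he : ∀ n, ‖e n‖ = 1)
    {w : ℕ → ℝ} (hw0 : ∀ n, 0 ≤ w n) (hw : HasSum w 1) {ω : (H →L[ℂ] H) →L[ℂ] ℂ}
    (hω : IsSt w e ω) {Ω : (K →L[ℂ] K) →L[ℂ] ℂ}
    (hΩ : IsSt (fun p : ℕ × ℕ => w p.1 * w p.2) (fun p : ℕ × ℕ => t (e p.1) (e p.2)) Ω)
    (a b : H →L[ℂ] H) (X : K →L[ℂ] K)
    (hX : ∀ x y, X (t x y) = t (a x) (b y)) : Ω X = ω a * ω b :=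
  pf ht he hw0 hw.summable a b X (ω a) (ω b) (Ω X) (hω.hs a) (hω.hs b) (hΩ.hs X) hX

end prodf

section cptsec

variable {H : Type} [NormedAddCommGroup H] [InnerProductSpace ℂ H] [CompleteSpace H]

theorem rk_apply (u v x : H) : rk u v x = ⟪v, x⟫_ℂ • u := rfl

theorem tend_rk {e : ℕ → H} (he : Orthonormal ℂ e) (u v : H) :
    Tendsto (fun n => rk u v (e n)) atTop (𝓝 0) := by
  have h1 : Tendsto (fun n => ‖⟪e n, v⟫_ℂ‖ ^ 2) atTop (𝓝 0) :=
    (he.inner_products_summable v).tendsto_atTop_zero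
  have h2 : Tendsto (fun n => ‖⟪e n, v⟫_ℂ‖) atTop (𝓝 0) := by
    have h3 := (Real.continuous_sqrt.tendsto 0).comp h1
    rw [Real.sqrt_zero] at h3
    refine h3.congr fun n => ?_
    simp only [Function.comp_apply]
    exact Real.sqrt_sq (norm_nonneg _)
  rw [tendsto_zero_iff_norm_tendsto_zero]
  have h4 : Tendsto (fun n => ‖⟪e n, v⟫_ℂ‖ * ‖u‖) atTop (𝓝 (0 * ‖u‖)) := h2.mul_const _
  rw [zero_mul] at h4
  refine h4.congr fun n => ?_
  rw [rk_apply, norm_smul, norm_inner_symm]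

theorem tend_cpt {e : ℕ → H} (he : Orthonormal ℂ e) (x : H →L[ℂ] H) (hx : x ∈ cpt H) :
    Tendsto (fun n => x (e n)) atTop (𝓝 0) := by
  have hspan : ∀ y ∈ Submodule.span ℂ {T : H →L[ℂ] H | ∃ u v, T = rk u v},
      Tendsto (fun n => y (e n)) atTop (𝓝 0) := by
    intro y hy
    induction hy using Submodule.span_induction with
    | mem y hy =>
      obtain ⟨u, v, rfl⟩ := hy
      exact tend_rk he u v
    | zero => simp
    | add y z _ _ hy hz =>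
      have := hy.add hz
      simpa using this
    | smul c y _ hy =>
      have := hy.const_smul c
      simpa using this
  have hx' : x ∈ closure (Submodule.span ℂ {T : H →L[ℂ] H | ∃ u v, T = rk u v} :
      Set (H →L[ℂ] H)) := hx
  rw [Metric.tendsto_atTop]
  intro ε hε
  obtain ⟨y, hy, hxy⟩ := Metric.mem_closure_iff.1 hx' (ε / 2) (half_pos hε)
  obtain ⟨N, hN⟩ := (Metric.tendsto_atTop.1 (hspan y hy)) (ε / 2) (half_pos hε)
  refine ⟨N, fun n hn => ?_⟩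
  have h1 := hN n hn
  rw [dist_zero_right] at h1 ⊢
  rw [dist_eq_norm] at hxy
  have h2 : ‖(x - y) (e n)‖ ≤ ‖x - y‖ := by
    have := (x - y).le_opNorm (e n)
    rwa [he.1 n, mul_one] at this
  calc ‖x (e n)‖ = ‖(x - y) (e n) + y (e n)‖ := by simp
    _ ≤ ‖(x - y) (e n)‖ + ‖y (e n)‖ := norm_add_le _ _
    _ < ε / 2 + ε / 2 := add_lt_add_of_le_of_lt (h2.trans hxy.le) h1
    _ = ε := add_halves ε

/-- the projection onto the span of the first vectors -/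
noncomputable def PN (e : ℕ → H) (N : ℕ) : H →L[ℂ] H := ∑ n ∈ Finset.range N, rk (e n) (e n)

theorem PN_apply (e : ℕ → H) (N : ℕ) (x : H) :
    PN e N x = ∑ n ∈ Finset.range N, ⟪e n, x⟫_ℂ • e n := by
  simp [PN, ContinuousLinearMap.sum_apply, rk_apply]

theorem PN_norm {e : ℕ → H} (he : Orthonormal ℂ e) (N : ℕ) : ‖PN e N‖ ≤ 1 := by
  refine ContinuousLinearMap.opNorm_le_bound _ zero_le_one fun x => ?_
  rw [one_mul]
  have h1 : ‖PN e N x‖ ^ 2 = ∑ n ∈ Finset.range N, ‖⟪e n, x⟫_ℂ‖ ^ 2 := by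
    have h2 : ((‖PN e N x‖ ^ 2 : ℝ) : ℂ) = ((∑ n ∈ Finset.range N, ‖⟪e n, x⟫_ℂ‖ ^ 2 : ℝ) : ℂ) := by
      have h3 := inner_self_eq_norm_sq_to_K (𝕜 := ℂ) (PN e N x)
      rw [PN_apply, he.inner_sum] at h3
      rw [PN_apply]
      push_cast
      rw [← PN_apply] at h3 ⊢
      rw [PN_apply] at h3 ⊢
      have h4 : ∀ n, (starRingEnd ℂ) ⟪e n, x⟫_ℂ * ⟪e n, x⟫_ℂ = ((‖⟪e n, x⟫_ℂ‖ : ℝ) : ℂ) ^ 2 := by
        intro n
        rw [← Complex.normSq_eq_conj_mul_self, Complex.normSq_eq_norm_sq]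
        push_cast
        rfl
      simp only [h4] at h3
      exact h3.symm
    exact_mod_cast h2
  have h5 := he.sum_inner_products_le (x := x) (s := Finset.range N)
  rw [← h1] at h5
  exact (sq_le_sq₀ (norm_nonneg _) (norm_nonneg _)).1 h5

theorem PN_e {e : ℕ → H} (he : Orthonormal ℂ e) (N n : ℕ) :
    ⟪e n, PN e N (e n)⟫_ℂ = if n < N then 1 else 0 := by
  classical
  rw [PN_apply]
  simp only [orthonormal_iff_ite.1 he]
  simp only [ite_smul, one_smul, zero_smul]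
  rw [Finset.sum_ite_eq' (Finset.range N) n]
  by_cases hn : n < N
  · simp [hn, he.1 n]
  · simp [hn]

end cptsec

end STATE

open STATE in
theorem t_SSTATE (hB : SNB) (hD : SND) (hC : SCPT) : SSTATE := by
  intro H L K' K _ _ _ _ _ _ _ _ _ _ _ _ t r U amp G π hS e w he hwpos hw hidem
  have hw0 : ∀ n, 0 ≤ w n := fun n => (hwpos n).le
  have he1 : ∀ n, ‖e n‖ = 1 := he.1
  have he1' : ∀ n, ‖e n‖ ≤ 1 := fun n => (he.1 n).le
  obtain ⟨ω, hω⟩ := exists_st (M := H) (c := w) (v := e) hw0 hw.summable he1'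
  obtain ⟨Ω, hΩ⟩ := exists_st (M := K) (c := fun p : ℕ × ℕ => w p.1 * w p.2)
    (v := fun p : ℕ × ℕ => t (e p.1) (e p.2)) (fun p => mul_nonneg (hw0 _) (hw0 _))
    (w_prod hw0 hw).summable (fun p => t_norm hS.ht _ _ (he1 _) (he1 _))
  have hωn : ‖ω‖ ≤ 1 := by
    have := hω.nm
    rwa [hw.tsum_eq] at this
  have hΩn : ‖Ω‖ ≤ 1 := by
    have := hΩ.nm
    rwa [(w_prod hw0 hw).tsum_eq] at this
  have hsum : ∀ T : H →L[ℂ] H, HasSum (fun n => ((w n : ℝ) : ℂ) * ⟪e n, T (e n)⟫_ℂ)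
      (ω T) := hω.hs
  have hsq : ∀ a : H →L[ℂ] H, HasSum (fun n => w n * ‖a (e n)‖ ^ 2) (ω (star a * a)).re ∧
      (ω (star a * a)).im = 0 := by
    intro a
    have h1 := hsum (star a * a)
    have h2 : (fun n => ((w n : ℝ) : ℂ) * ⟪e n, (star a * a) (e n)⟫_ℂ) =
        fun n => ((w n * ‖a (e n)‖ ^ 2 : ℝ) : ℂ) := by
      funext n
      have h3 : (star a * a) (e n) = ContinuousLinearMap.adjoint a (a (e n)) := rfl
      rw [h3, ContinuousLinearMap.adjoint_inner_right, inner_self_eq_norm_sq_to_K]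
      push_cast
      rfl
    rw [h2, Complex.hasSum_iff] at h1
    simp only [Complex.ofReal_re, Complex.ofReal_im] at h1
    exact ⟨h1.1, h1.2.unique hasSum_zero⟩
  refine ⟨ω, ⟨?_, ?_, ?_⟩, ⟨Ω, ?_, ?_, ?_⟩, ?_⟩
  · intro a _
    exact ⟨(hsq a).1.nonneg fun n => mul_nonneg (hw0 n) (sq_nonneg _), (hsq a).2⟩
  · intro a _
    calc ‖ω a‖ ≤ ‖ω‖ * ‖a‖ := ω.le_opNorm a
      _ ≤ 1 * ‖a‖ := mul_le_mul_of_nonneg_right hωn (norm_nonneg _)
      _ = ‖a‖ := one_mul _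
  · intro ε hε
    have h1 := hw.tendsto_sum_nat
    obtain ⟨N, hN⟩ := (h1.eventually (lt_mem_nhds (show 1 - ε < 1 by linarith))).exists
    refine ⟨PN e N, ?_, PN_norm he N, ?_⟩
    · exact Submodule.sum_mem _ fun n _ => (hC H).2.2.2 _ _
    · have h2 : ω (PN e N) = ((∑ n ∈ Finset.range N, w n : ℝ) : ℂ) := by
        refine (hsum (PN e N)).unique ?_
        have h3 : (fun n => ((w n : ℝ) : ℂ) * ⟪e n, PN e N (e n)⟫_ℂ) =
            fun n => if n < N then ((w n : ℝ) : ℂ) else 0 := by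
          funext n
          rw [PN_e he]
          split_ifs <;> simp
        rw [h3]
        have h4 : HasSum (fun n => if n < N then ((w n : ℝ) : ℂ) else 0)
            (∑ n ∈ Finset.range N, if n < N then ((w n : ℝ) : ℂ) else 0) :=
          hasSum_sum_of_ne_finset_zero (by
            intro n hn
            have : ¬ n < N := by simpa using hn
            simp [this])
        convert h4 using 1
        push_cast
        refine Finset.sum_congr rfl fun n hn => ?_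
        rw [if_pos (Finset.mem_range.1 hn)]
      rw [h2, Complex.norm_real]
      exact lt_of_lt_of_le hN (le_abs_self _)
  · exact hΩn
  · intro a _ b _ X hX
    exact prod_formula hS.ht he1 hw0 hw hω hΩ a b X hX
  · have hzero : Ω.comp (DL U hS.hamp) - ω = 0 := by
      apply hS.tot
      · obtain ⟨-, -, -, h4, -, -⟩ := hB H
        exact (h4 _ _ (nrm_comp hB hD U hS.hr hS.hamp hΩ) (nrm_st hB hω)).2
      · intro g
        rw [sub_apply, ContinuousLinearMap.comp_apply, DL_apply,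
          prod_formula hS.ht he1 hw0 hw hω hΩ (π g) (π g) _ (hS.tw g)]
        have h5 : ω (π g) = ∑' n, (w n : ℂ) * ⟪e n, π g (e n)⟫_ℂ :=
          (hsum (π g)).tsum_eq.symm
        rcases hidem g with h | h
        · rw [h5, h]
          ring
        · rw [h5, h]
          ring
    intro a _
    have h6 := congrArg (fun θ : (H →L[ℂ] H) →L[ℂ] ℂ => θ a) hzero
    simp only [sub_apply, ContinuousLinearMap.comp_apply, DL_apply,
      zero_apply] at h6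
    exact sub_eq_zero.1 h6
  · rintro ⟨x, hx, -, hker⟩
    have hfix : ∀ n, x (e n) = e n := by
      intro n
      have h1 := hker (rk (e n - x (e n)) (e n - x (e n))) ((hC H).2.2.2 _ _)
      obtain ⟨a, ha⟩ : ∃ a, a = rk (e n - x (e n)) (e n - x (e n)) -
        rk (e n - x (e n)) (e n - x (e n)) * x := ⟨_, rfl⟩
      rw [← ha] at h1
      have h2 := (hsq a).1
      rw [h1, Complex.zero_re] at h2
      have h3 := (hasSum_zero_iff_of_nonneg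
        (fun m => mul_nonneg (hw0 m) (sq_nonneg ‖a (e m)‖))).1 h2
      have h4 := congrFun h3 n
      simp only [Pi.zero_apply, mul_eq_zero, (hwpos n).ne', false_or, ne_eq, OfNat.ofNat_ne_zero,
        not_false_eq_true, pow_eq_zero_iff, norm_eq_zero] at h4
      have h5 : a (e n) = ⟪e n - x (e n), e n - x (e n)⟫_ℂ • (e n - x (e n)) := by
        rw [ha]
        show rk _ _ (e n) - rk _ _ (x (e n)) = _
        rw [rk_apply, rk_apply, ← sub_smul, ← inner_sub_right]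
      rw [h5, smul_eq_zero] at h4
      rcases h4 with h4 | h4
      · exact (sub_eq_zero.1 (inner_self_eq_zero.1 h4)).symm
      · exact (sub_eq_zero.1 h4).symm
    have h1 := tend_cpt he x hx
    simp only [hfix] at h1
    rw [tendsto_zero_iff_norm_tendsto_zero] at h1
    simp only [he1] at h1
    exact one_ne_zero (tendsto_nhds_unique tendsto_const_nhds h1)

end Pool.Agent.R283.QS
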