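import Pool.Agent.R283.QS.Stm

/-! Project QS (helper283), piece TEN: `K(H) ⊗ K(H) = K(H ⊗ H)`. -/

set_option autoImplicit false

open scoped InnerProductSpace ENNReal
open MeasureTheory Set Filter Topology

namespace Pool.Agent.R283.QS

namespace TEN

variable {H K : Type}
  [NormedAddCommGroup H] [InnerProductSpace ℂ H] [CompleteSpace H]
  [NormedAddCommGroup K] [InnerProductSpace ℂ K] [CompleteSpace K]

lemma rk_apply (u v x : H) : rk u v x = ⟪v, x⟫_ℂ • u := rfl

lemma rk_add_left (u u' v : H) : rk (u + u') v = rk u v + rk u' v := by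
  ext x; simp only [rk_apply, ContinuousLinearMap.add_apply, smul_add]

lemma rk_smul_left (c : ℂ) (u v : H) : rk (c • u) v = c • rk u v := by
  ext x; simp only [rk_apply, ContinuousLinearMap.smul_apply, smul_comm c]

lemma rk_add_right (u v v' : H) : rk u (v + v') = rk u v + rk u v' := by
  ext x; simp only [rk_apply, ContinuousLinearMap.add_apply, inner_add_left, add_smul]

lemma rk_smul_right (c : ℂ) (u v : H) : rk u (c • v) = (starRingEnd ℂ c) • rk u v := by
  ext x; simp only [rk_apply, ContinuousLinearMap.smul_apply, inner_smul_left, mul_smul]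

lemma continuous_rk_left (v : H) : Continuous (fun u : H => rk u v) :=
  (ContinuousLinearMap.smulRightL ℂ H H (innerSL ℂ v)).continuous

lemma continuous_rk_right (u : H) : Continuous (fun v : H => rk u v) :=
  ((ContinuousLinearMap.smulRightL ℂ H H).flip u).continuous.comp (innerSL ℂ).continuous

lemma ext_total {t : H →ₗ[ℂ] H →ₗ[ℂ] K} (ht : IsHT t) {X Y : K →L[ℂ] K}
    (h : ∀ x y, X (t x y) = Y (t x y)) : X = Y := by
  refine ContinuousLinearMap.ext_on
    (Submodule.dense_iff_topologicalClosure_eq_top.2 ht.total) ?_
  rintro z ⟨x, y, rfl⟩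
  exact h x y

lemma mem_all {t : H →ₗ[ℂ] H →ₗ[ℂ] K} (ht : IsHT t) (P : Submodule ℂ K)
    (hP : IsClosed (P : Set K)) (h : ∀ x y, t x y ∈ P) (z : K) : z ∈ P := by
  have h1 : Submodule.span ℂ {z | ∃ x y, z = t x y} ≤ P :=
    Submodule.span_le.2 (by rintro z ⟨x, y, rfl⟩; exact h x y)
  have h2 := Submodule.topologicalClosure_minimal _ h1 hP
  rw [ht.total] at h2
  exact h2 trivial

/-- closed submodules which contain all `rk u v` contain `cpt H` -/
lemma cpt_le (P : Submodule ℂ (H →L[ℂ] H)) (hP : IsClosed (P : Set (H →L[ℂ] H)))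
    (h : ∀ u v, rk u v ∈ P) : cpt H ≤ P := by
  refine Submodule.topologicalClosure_minimal _ (Submodule.span_le.2 ?_) hP
  rintro T ⟨u, v, rfl⟩
  exact h u v

lemma flipHT {t : H →ₗ[ℂ] H →ₗ[ℂ] K} (ht : IsHT t) : IsHT t.flip := by
  constructor
  · intro x y x' y'
    simp only [LinearMap.flip_apply]
    rw [ht.inner, mul_comm]
  · have : {z | ∃ x y, z = t.flip x y} = {z | ∃ x y, z = t x y} := by
      ext z
      constructor
      · rintro ⟨x, y, rfl⟩
        exact ⟨y, x, rfl⟩
      · rintro ⟨x, y, rfl⟩
        exact ⟨y, x, rfl⟩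
    rw [this]
    exact ht.total

/-- first inclusion -/
lemma le1 (hC : SCPT) {t : H →ₗ[ℂ] H →ₗ[ℂ] K} (ht : IsHT t) : cpt K ≤ tens t (cpt H) := by
  have hcl : IsClosed (tens t (cpt H) : Set (K →L[ℂ] K)) := Submodule.isClosed_topologicalClosure _
  have h0 : ∀ x y x' y', rk (t x y) (t x' y') ∈ tens t (cpt H) := by
    intro x y x' y'
    refine Submodule.le_topologicalClosure _ (Submodule.subset_span ?_)
    refine ⟨rk x x', (hC H).2.2.2 x x', rk y y', (hC H).2.2.2 y y', fun u v => ?_⟩
    simp only [rk_apply, ht.inner, map_smul, LinearMap.smul_apply, smul_smul]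
    rw [mul_comm]
  have h1 : ∀ (z : K) (x' y' : H), rk z (t x' y') ∈ tens t (cpt H) := by
    intro z x' y'
    refine mem_all ht
      { carrier := {z | rk z (t x' y') ∈ tens t (cpt H)}
        add_mem' := fun {a b} ha hb => by
          simp only [mem_setOf_eq] at ha hb ⊢
          rw [rk_add_left]
          exact Submodule.add_mem _ ha hb
        zero_mem' := by
          simp only [mem_setOf_eq]
          have : rk (0 : K) (t x' y') = 0 := by ext x; simp [rk_apply]
          rw [this]
          exact Submodule.zero_mem _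
        smul_mem' := fun c a ha => by
          simp only [mem_setOf_eq] at ha ⊢
          rw [rk_smul_left]
          exact Submodule.smul_mem _ _ ha } ?_ (fun x y => h0 x y x' y') z
    exact hcl.preimage (continuous_rk_left _)
  have h2 : ∀ z z' : K, rk z z' ∈ tens t (cpt H) := by
    intro z z'
    refine mem_all ht
      { carrier := {z' | rk z z' ∈ tens t (cpt H)}
        add_mem' := fun {a b} ha hb => by
          simp only [mem_setOf_eq] at ha hb ⊢
          rw [rk_add_right]
          exact Submodule.add_mem _ ha hb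
        zero_mem' := by
          simp only [mem_setOf_eq]
          have : rk z (0 : K) = 0 := by ext x; simp [rk_apply]
          rw [this]
          exact Submodule.zero_mem _
        smul_mem' := fun c a ha => by
          simp only [mem_setOf_eq] at ha ⊢
          rw [rk_smul_right]
          exact Submodule.smul_mem _ _ ha } ?_ (fun x y => h1 z x y) z'
    exact hcl.preimage (continuous_rk_right _)
  exact cpt_le _ hcl h2

/-- second inclusion -/
lemma le2 (hA : SAMP) {t : H →ₗ[ℂ] H →ₗ[ℂ] K} (ht : IsHT t) : tens t (cpt H) ≤ cpt K := by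
  have hcl : IsClosed (cpt K : Set (K →L[ℂ] K)) := Submodule.isClosed_topologicalClosure _
  obtain ⟨A, hA1, hA2⟩ := hA H H K t ht
  obtain ⟨B, hB1, hB2⟩ := hA H H K t.flip (flipHT ht)
  have hAc : Continuous A := AddMonoidHomClass.continuous_of_bound A 1 (by simpa using hA2)
  have hBc : Continuous B := AddMonoidHomClass.continuous_of_bound B 1 (by simpa using hB2)
  have hB1' : ∀ T x y, B T (t x y) = t x (T y) := fun T x y => hB1 T y x
  have hrk : ∀ z z' : K, rk z z' ∈ cpt K := fun z z' =>
    Submodule.le_topologicalClosure _ (Submodule.subset_span ⟨z, z', rfl⟩)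
  have h0 : ∀ u v u' v' : H, A (rk u v) * B (rk u' v') ∈ cpt K := by
    intro u v u' v'
    have : A (rk u v) * B (rk u' v') = rk (t u u') (t v v') := by
      refine ext_total ht fun x y => ?_
      rw [ContinuousLinearMap.mul_apply, hB1', hA1]
      simp only [rk_apply, ht.inner, map_smul, LinearMap.smul_apply, smul_smul]
      rw [mul_comm]
    rw [this]
    exact hrk _ _
  have h1 : ∀ (u' v' : H), ∀ a ∈ cpt H, A a * B (rk u' v') ∈ cpt K := by
    intro u' v'
    have h : cpt H ≤
      { carrier := {a | A a * B (rk u' v') ∈ cpt K}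
        add_mem' := fun {a b} ha hb => by
          simp only [mem_setOf_eq] at ha hb ⊢
          rw [map_add, add_mul]
          exact Submodule.add_mem _ ha hb
        zero_mem' := by
          simp only [mem_setOf_eq]
          rw [map_zero, zero_mul]
          exact Submodule.zero_mem _
        smul_mem' := fun c a ha => by
          simp only [mem_setOf_eq] at ha ⊢
          rw [map_smul, smul_mul_assoc]
          exact Submodule.smul_mem _ _ ha } :=
      cpt_le _ (hcl.preimage (hAc.mul continuous_const)) (fun u v => h0 u v u' v')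
    exact fun a ha => h ha
  have h2 : ∀ a ∈ cpt H, ∀ b ∈ cpt H, A a * B b ∈ cpt K := by
    intro a ha
    have h : cpt H ≤
      { carrier := {b | A a * B b ∈ cpt K}
        add_mem' := fun {x y} hx hy => by
          simp only [mem_setOf_eq] at hx hy ⊢
          rw [map_add, mul_add]
          exact Submodule.add_mem _ hx hy
        zero_mem' := by
          simp only [mem_setOf_eq]
          rw [map_zero, mul_zero]
          exact Submodule.zero_mem _
        smul_mem' := fun c x hx => by
          simp only [mem_setOf_eq] at hx ⊢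
          rw [map_smul, mul_smul_comm]
          exact Submodule.smul_mem _ _ hx } :=
      cpt_le _ (hcl.preimage (continuous_const.mul hBc)) (fun u v => h1 u v a ha)
    exact fun b hb => h hb
  refine Submodule.topologicalClosure_minimal _ (Submodule.span_le.2 ?_) hcl
  rintro X ⟨a, ha, b, hb, hX⟩
  have : X = A a * B b := by
    refine ext_total ht fun x y => ?_
    rw [ContinuousLinearMap.mul_apply, hB1', hA1, hX]
  rw [this]
  exact h2 a ha b hb

end TEN

theorem t_STEN (hA : SAMP) (hC : SCPT) : STEN := by
  intro H K _ _ _ _ _ _ t ht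
  exact le_antisymm (TEN.le2 hA ht) (TEN.le1 hC ht)

end Pool.Agent.R283.QS
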