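import Pool.Agent.R283.QS.Stm

set_option autoImplicit false

open scoped InnerProductSpace ENNReal
open MeasureTheory Set Filter Topology

namespace Pool.Agent.R283.QS

theorem t_UNI : UNI := by
  intro X Y _ _ α β f g hf hg hgf hfg
  have hF : ∀ F : Lp ℂ 2 β, Lp.compMeasurePreserving f hf F =ᵐ[α] fun x => F (f x) :=
    fun F => Lp.coeFn_compMeasurePreserving F hf
  have hG : ∀ F : Lp ℂ 2 α, Lp.compMeasurePreserving g hg F =ᵐ[β] fun y => F (g y) :=
    fun F => Lp.coeFn_compMeasurePreserving F hg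
  let A : Lp ℂ 2 β →ₗᵢ[ℂ] Lp ℂ 2 α := Lp.compMeasurePreservingₗᵢ ℂ f hf
  let B : Lp ℂ 2 α →ₗᵢ[ℂ] Lp ℂ 2 β := Lp.compMeasurePreservingₗᵢ ℂ g hg
  have hA : ∀ F, A F = Lp.compMeasurePreserving f hf F := fun F => rfl
  have hB : ∀ F, B F = Lp.compMeasurePreserving g hg F := fun F => rfl
  have hAB : ∀ F, A (B F) = F := by
    intro F
    apply Lp.ext
    have h1 := hF (B F)
    have h2 := hf.quasiMeasurePreserving.ae_eq_comp (hG F)
    rw [hA]
    filter_upwards [h1, h2, hgf] with x h1 h2 h3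
    rw [h1, hB]
    simp only [Function.comp] at h2
    rw [h2, h3]
  have hBA : ∀ F, B (A F) = F := by
    intro F
    apply Lp.ext
    have h1 := hG (A F)
    have h2 := hg.quasiMeasurePreserving.ae_eq_comp (hF F)
    rw [hB]
    filter_upwards [h1, h2, hfg] with x h1 h2 h3
    rw [h1, hA]
    simp only [Function.comp] at h2
    rw [h2, h3]
  let U : Lp ℂ 2 β ≃ₗᵢ[ℂ] Lp ℂ 2 α :=
    { toLinearEquiv := LinearEquiv.ofLinearMap A.toLinearMap B.toLinearMap
        (by ext1 F; exact hAB F) (by ext1 F; exact hBA F)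
      norm_map' := fun F => A.norm_map F }
  exact ⟨U, fun F => hF F, fun F => hG F⟩

end Pool.Agent.R283.QS
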