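import Pool.Agent.R283.QS.Stm

set_option autoImplicit false

open scoped InnerProductSpace ENNReal
open MeasureTheory Set Filter Topology

namespace Pool.Agent.R283.QS

namespace WLx

section
variable {H : Type} [NormedAddCommGroup H] [InnerProductSpace ℂ H] [CompleteSpace H]

lemma nrm_zero : Nrm (0 : (H →L[ℂ] H) →L[ℂ] ℂ) := by
  intro ε hε
  refine ⟨0, fun _ => 0, fun _ => 0, fun T => ?_⟩
  simp only [zero_apply, Finset.univ_eq_empty, Finset.sum_empty, sub_zero, norm_zero]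
  positivity

lemma nrm_sum (hB : SNB) {κ : Type} (F : Finset κ) (θ : κ → (H →L[ℂ] H) →L[ℂ] ℂ)
    (h : ∀ i ∈ F, Nrm (θ i)) : Nrm (∑ i ∈ F, θ i) := by
  classical
  induction F using Finset.induction_on with
  | empty => rw [Finset.sum_empty]; exact nrm_zero
  | insert a s ha ih =>
    rw [Finset.sum_insert ha]
    exact ((hB H).2.2.2.1 _ _ (h a (Finset.mem_insert_self _ _))
      (ih fun i hi => h i (Finset.mem_insert_of_mem hi))).1

/-- vector functional -/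
noncomputable def vf (ξ η : H) : (H →L[ℂ] H) →L[ℂ] ℂ :=
  (innerSL ℂ ξ).comp (ContinuousLinearMap.apply ℂ H η)

lemma vf_apply (ξ η : H) (T : H →L[ℂ] H) : vf ξ η T = ⟪ξ, T η⟫_ℂ := rfl

lemma nrm_comp (hB : SNB) {ν : (H →L[ℂ] H) →L[ℂ] ℂ} (hν : Nrm ν)
    (J : (H →L[ℂ] H) →L[ℂ] (H →L[ℂ] H))
    (h : ∀ ξ η : H, Nrm ((vf ξ η).comp J)) : Nrm (ν.comp J) := by
  refine (hB H).2.2.2.2.2 _ fun ε hε => ?_
  obtain ⟨n, ξ, η, hn⟩ := hν (ε / (‖J‖ + 1)) (by positivity)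
  refine ⟨∑ i, (vf (ξ i) (η i)).comp J, nrm_sum hB _ _ fun i _ => h _ _, ?_⟩
  refine ContinuousLinearMap.opNorm_le_bound _ hε.le fun T => ?_
  have h1 := hn (J T)
  have h2 : (ν.comp J - ∑ i, (vf (ξ i) (η i)).comp J) T =
      ν (J T) - ∑ i, ⟪ξ i, (J T) (η i)⟫_ℂ := by
    simp [vf_apply]
  rw [h2]
  refine h1.trans ?_
  have h3 : ‖J T‖ ≤ ‖J‖ * ‖T‖ := J.le_opNorm T
  calc ε / (‖J‖ + 1) * ‖J T‖ ≤ ε / (‖J‖ + 1) * (‖J‖ * ‖T‖) := by gcongr
    _ ≤ ε / (‖J‖ + 1) * ((‖J‖ + 1) * ‖T‖) := by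
        gcongr
        linarith
    _ = ε * ‖T‖ := by field_simp

end

section
variable {H L K' K : Type}
  [NormedAddCommGroup H] [InnerProductSpace ℂ H] [CompleteSpace H]
  [NormedAddCommGroup L] [InnerProductSpace ℂ L] [CompleteSpace L]
  [NormedAddCommGroup K'] [InnerProductSpace ℂ K'] [CompleteSpace K']
  [NormedAddCommGroup K] [InnerProductSpace ℂ K] [CompleteSpace K]

lemma del_norm {r : H →ₗ[ℂ] L →ₗ[ℂ] K'} {U : K' ≃ₗᵢ[ℂ] K}
    {amp : (H →L[ℂ] H) →⋆ₐ[ℂ] (K' →L[ℂ] K')} (ha : IsAmp r amp) (T : H →L[ℂ] H) :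
    ‖Del U amp T‖ ≤ ‖T‖ := by
  refine ContinuousLinearMap.opNorm_le_bound _ (norm_nonneg _) fun z => ?_
  show ‖U (amp T (U.symm z))‖ ≤ ‖T‖ * ‖z‖
  rw [U.norm_map]
  refine ((amp T).le_opNorm _).trans ?_
  rw [U.symm.norm_map]
  exact mul_le_mul_of_nonneg_right (ha.2 T) (norm_nonneg _)

lemma del_add {U : K' ≃ₗᵢ[ℂ] K} {amp : (H →L[ℂ] H) →⋆ₐ[ℂ] (K' →L[ℂ] K')}
    (S T : H →L[ℂ] H) : Del U amp (S + T) = Del U amp S + Del U amp T := by
  ext z
  show U (amp (S + T) (U.symm z)) = U (amp S (U.symm z)) + U (amp T (U.symm z))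
  rw [map_add, add_apply, map_add]

lemma del_smul {U : K' ≃ₗᵢ[ℂ] K} {amp : (H →L[ℂ] H) →⋆ₐ[ℂ] (K' →L[ℂ] K')}
    (c : ℂ) (T : H →L[ℂ] H) : Del U amp (c • T) = c • Del U amp T := by
  ext z
  show U (amp (c • T) (U.symm z)) = c • U (amp T (U.symm z))
  rw [map_smul, smul_apply, map_smul]

/-- a map with prescribed matrix coefficients is linear and continuous -/
lemma ex_J {g : (H →L[ℂ] H) → (H →L[ℂ] H)} {C : ℝ} (hg : ∀ T, ‖g T‖ ≤ C * ‖T‖)
    (hadd : ∀ S T ξ η, ⟪ξ, g (S + T) η⟫_ℂ = ⟪ξ, g S η⟫_ℂ + ⟪ξ, g T η⟫_ℂ)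
    (hsmul : ∀ (c : ℂ) T ξ η, ⟪ξ, g (c • T) η⟫_ℂ = c * ⟪ξ, g T η⟫_ℂ) :
    ∃ J : (H →L[ℂ] H) →L[ℂ] (H →L[ℂ] H), ∀ T, J T = g T := by
  refine ⟨LinearMap.mkContinuous
    { toFun := g
      map_add' := ?_
      map_smul' := ?_ } C hg, fun T => rfl⟩
  · intro S T
    ext η
    refine ext_inner_left ℂ fun ξ => ?_
    rw [hadd, add_apply, inner_add_right]
  · intro c T
    ext η
    refine ext_inner_left ℂ fun ξ => ?_
    rw [hsmul, RingHom.id_apply, smul_apply, inner_smul_right]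

end

end WLx

open WLx in
theorem t_SWL (hS : SSLI) (hF : SSLF) (hB : SNB) (hD : SND) (hC : SCPT) : SWL := by
  classical
  intro H L K' K _ _ _ _ _ _ _ _ _ _ _ _ t r U amp G π hG sys μ hμ
  obtain ⟨b0, hb0, hμ0⟩ := hμ
  obtain ⟨hcstar, -, hmult, -⟩ := hC H
  set 𝒮 : Set (H →L[ℂ] H) :=
    {m | m ∈ Mult (cpt H) ∧ ∃ a ∈ cpt H, ∃ b ∈ cpt H, IsStarL t (Del U amp) μ a b m} with h𝒮
  intro T0 _ F hFc ε hε
  let LR : (H →L[ℂ] H) → ((H →L[ℂ] H) →L[ℂ] (H →L[ℂ] H) × (H →L[ℂ] H)) := fun c =>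
    ((ContinuousLinearMap.mul ℂ (H →L[ℂ] H)).flip c).prod (ContinuousLinearMap.mul ℂ (H →L[ℂ] H) c)
  let Lam : (H →L[ℂ] H) →L[ℂ] (F → (H →L[ℂ] H) × (H →L[ℂ] H)) :=
    ContinuousLinearMap.pi (fun c : F => LR c)
  have hLam : ∀ T (c : F), Lam T c = (T * c, (c : H →L[ℂ] H) * T) := fun T c => rfl
  set W : Submodule ℂ (F → (H →L[ℂ] H) × (H →L[ℂ] H)) :=
    (Submodule.span ℂ 𝒮).map (Lam : (H →L[ℂ] H) →ₗ[ℂ] (F → (H →L[ℂ] H) × (H →L[ℂ] H))) with hW
  by_cases hz : ‖(Submodule.Quotient.mk (Lam T0) :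
      (F → (H →L[ℂ] H) × (H →L[ℂ] H)) ⧸ W)‖ = 0
  · obtain ⟨m', hm1, hm2⟩ := Submodule.Quotient.norm_mk_lt
      (Submodule.Quotient.mk (Lam T0) : (F → (H →L[ℂ] H) × (H →L[ℂ] H)) ⧸ W) hε
    rw [hz, zero_add] at hm2
    have h1 : Lam T0 - m' ∈ W := by
      rw [← Submodule.Quotient.eq]
      exact hm1.symm
    obtain ⟨m, hmS, hmW⟩ := h1
    refine ⟨m, hmS, fun c hc => ?_⟩
    have h2 : Lam (T0 - m) = m' := by
      rw [map_sub]
      have h3 : Lam m = Lam T0 - m' := hmW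
      rw [h3]
      abel
    have h4 : ‖Lam (T0 - m) ⟨c, hc⟩‖ < ε := lt_of_le_of_lt (norm_le_pi_norm _ _) (by rwa [h2])
    rw [hLam] at h4
    exact ⟨lt_of_le_of_lt (norm_fst_le ((T0 - m) * c, c * (T0 - m))) h4,
      lt_of_le_of_lt (norm_snd_le ((T0 - m) * c, c * (T0 - m))) h4⟩
  exfalso
  obtain ⟨g0, -, hg0⟩ := exists_dual_vector ℂ (Submodule.Quotient.mk (Lam T0) :
      (F → (H →L[ℂ] H) × (H →L[ℂ] H)) ⧸ W) hz
  set Φ : (F → (H →L[ℂ] H) × (H →L[ℂ] H)) →L[ℂ] ℂ := g0.comp W.mkQL with hΦ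
  have hΦW : ∀ w ∈ W, Φ w = 0 := by
    intro w hw
    have h1 : W.mkQL w = 0 := by
      rw [Submodule.mkQL_apply, Submodule.mkQ_apply]
      exact (Submodule.Quotient.mk_eq_zero W).2 hw
    show g0 (W.mkQL w) = 0
    rw [h1, map_zero]
  have hΦT : Φ (Lam T0) ≠ 0 := by
    have h1 : Φ (Lam T0) = g0 (Submodule.Quotient.mk (Lam T0)) := rfl
    rw [h1, hg0]
    simpa using hz
  set θ : (H →L[ℂ] H) →L[ℂ] ℂ := Φ.comp Lam with hθ
  have hθS : ∀ m ∈ 𝒮, θ m = 0 := fun m hm =>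
    hΦW _ (Submodule.mem_map_of_mem (Submodule.subset_span hm))
  -- θ is normal
  have hθn : Nrm θ := by
    let φ1 : F → (H →L[ℂ] H) →L[ℂ] ℂ := fun c =>
      Φ.comp ((ContinuousLinearMap.single ℂ (fun _ : F => (H →L[ℂ] H) × (H →L[ℂ] H)) c).comp
        (ContinuousLinearMap.inl ℂ (H →L[ℂ] H) (H →L[ℂ] H)))
    let φ2 : F → (H →L[ℂ] H) →L[ℂ] ℂ := fun c =>
      Φ.comp ((ContinuousLinearMap.single ℂ (fun _ : F => (H →L[ℂ] H) × (H →L[ℂ] H)) c).comp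
        (ContinuousLinearMap.inr ℂ (H →L[ℂ] H) (H →L[ℂ] H)))
    have hdec : θ = ∑ c : F, ((φ1 c).comp ((ContinuousLinearMap.mul ℂ (H →L[ℂ] H)).flip c) +
        (φ2 c).comp (ContinuousLinearMap.mul ℂ (H →L[ℂ] H) c)) := by
      refine ContinuousLinearMap.ext fun T => ?_
      have h1 : Lam T = ∑ c : F, (Pi.single c ((T * c, (0 : H →L[ℂ] H))) +
          Pi.single c ((0 : H →L[ℂ] H), (c : H →L[ℂ] H) * T)) := by
        funext d
        rw [Finset.sum_apply, hLam]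
        rw [Finset.sum_eq_single d]
        · rw [Pi.add_apply, Pi.single_eq_same, Pi.single_eq_same]
          simp
        · intro c _ hcd
          rw [Pi.add_apply, Pi.single_eq_of_ne hcd.symm, Pi.single_eq_of_ne hcd.symm, add_zero]
        · intro hd
          exact absurd (Finset.mem_univ d) hd
      show Φ (Lam T) = _
      rw [h1, map_sum, sum_apply]
      refine Finset.sum_congr rfl fun c _ => ?_
      rw [map_add]
      rfl
    rw [hdec]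
    refine nrm_sum hB _ _ fun c _ => ?_
    refine ((hB H).2.2.2.1 _ _ ?_ ?_).1
    · exact (hB H).2.1 (φ1 c) _ c (hFc _ c.2) (fun T => rfl)
    · exact (hB H).2.2.1 (φ2 c) _ c (hFc _ c.2) (fun T => rfl)
  -- functionals T ↦ ⟪ζ, Δ(T) ζ'⟫
  have hsl : ∀ x y : H, ∃ J : (H →L[ℂ] H) →L[ℂ] (H →L[ℂ] H),
      ∀ T, IsRSlice t (Del U amp T) x y (J T) := by
    intro x y
    choose g hg1 hg2 using fun T => (hS H K t sys.ht (Del U amp T) x y).1
    obtain ⟨J, hJ⟩ := ex_J (g := g) (C := ‖x‖ * ‖y‖) (fun T => by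
        refine (hg2 T).trans ?_
        have := del_norm (r := r) (U := U) sys.hamp T
        calc ‖Del U amp T‖ * ‖x‖ * ‖y‖ ≤ ‖T‖ * ‖x‖ * ‖y‖ := by gcongr
          _ = ‖x‖ * ‖y‖ * ‖T‖ := by ring)
      (fun S T ξ η => by
        rw [hg1, hg1, hg1, del_add, add_apply, inner_add_right])
      (fun c T ξ η => by
        rw [hg1, hg1, del_smul, smul_apply, inner_smul_right])
    exact ⟨J, fun T u v => by rw [hJ]; exact hg1 T u v⟩
  choose J hJ using hsl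
  have hJn : ∀ x y ξ η : H, Nrm ((vf ξ η).comp (J x y)) := by
    intro x y ξ η
    refine hD H L K' K r U amp sys.hr sys.hamp (t ξ x) (t η y) _ fun T => ?_
    exact hJ x y T ξ η
  -- main step
  have hkey : ∀ a ∈ cpt H, ∀ g, μ (a * π g) * θ (π g) = 0 := by
    intro a ha
    set ν : (H →L[ℂ] H) →L[ℂ] ℂ := μ.comp (ContinuousLinearMap.mul ℂ (H →L[ℂ] H) a) with hν
    have hνa : ∀ X, ν X = μ (a * X) := fun X => rfl
    have hνn : Nrm ν := (hB H).2.2.1 μ ν a ha (fun T => rfl)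
    choose s hs1 hs2 using fun T => (hF H K t sys.ht ν (Del U amp T)).1
    have hsJ : ∀ T ξ η, ⟪ξ, s T η⟫_ℂ = ν (J ξ η T) := fun T ξ η => hs1 T ξ η _ (hJ ξ η T)
    obtain ⟨Sa, hSa⟩ := ex_J (g := s) (C := ‖ν‖) (fun T => by
        refine (hs2 T).trans ?_
        exact mul_le_mul_of_nonneg_left (del_norm (r := r) (U := U) sys.hamp T) (norm_nonneg _))
      (fun S T ξ η => by rw [hsJ, hsJ, hsJ, map_add, map_add])
      (fun c T ξ η => by rw [hsJ, hsJ, map_smul, map_smul, smul_eq_mul])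
    have hfn : Nrm (θ.comp Sa) := by
      refine nrm_comp hB hθn Sa fun ξ η => ?_
      have h1 : (vf ξ η).comp Sa = ν.comp (J ξ η) := by
        refine ContinuousLinearMap.ext fun T => ?_
        show ⟪ξ, Sa T η⟫_ℂ = ν (J ξ η T)
        rw [hSa, hsJ]
      rw [h1]
      exact nrm_comp hB hνn (J ξ η) (hJn ξ η)
    have hf0 : θ.comp Sa = 0 := by
      refine (hB H).1 _ hfn fun b hb => ?_
      show θ (Sa b) = 0
      rw [hSa]
      refine hθS _ ⟨by rw [hmult]; exact mem_univ _, a, ha, b, hb, ?_⟩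
      intro y y' X hX
      rw [hs1 b y y' X hX, hνa]
    intro g
    have h1 : θ (Sa (π g)) = 0 := by
      have := congrArg (fun f => f (π g)) hf0
      exact this
    have h2 : Sa (π g) = ν (π g) • π g := by
      rw [hSa]
      ext η
      refine ext_inner_left ℂ fun ξ => ?_
      have hX : IsRSlice t (Del U amp (π g)) ξ η (⟪ξ, π g η⟫_ℂ • π g) := by
        intro u v
        rw [sys.tw, sys.ht.inner, smul_apply, inner_smul_right]
        ring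
      rw [hs1 (π g) ξ η _ hX, map_smul, smul_eq_mul, smul_apply, inner_smul_right]
      ring
    rw [h2, map_smul, smul_eq_mul] at h1
    rw [← hνa]
    exact h1
  have hθ0 : θ = 0 := by
    refine sys.tot θ hθn fun g => ?_
    have hm : star (π g) ∈ Mult (cpt H) := by rw [hmult]; exact mem_univ _
    have ha : b0 * star (π g) ∈ cpt H := (hm b0 hb0).2
    have h1 := hkey _ ha g
    rw [mul_assoc, (sys.uni g).1, mul_one] at h1
    exact (mul_eq_zero.1 h1).resolve_left hμ0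
  exact hΦT (by
    have := congrArg (fun f => f T0) hθ0
    exact this)

end Pool.Agent.R283.QS
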