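import Pool.Agent.R283.QS.Stm

/-!
QS-WR (helper718): weak cancellation, second half.
-/

set_option autoImplicit false

open scoped InnerProductSpace ENNReal
open MeasureTheory Set Filter Topology

namespace Pool.Agent.R283.QS

namespace WRp

theorem hb {V : Type} [NormedAddCommGroup V] [NormedSpace ℂ V] (W : Submodule ℂ V)
    (hW : IsClosed (W : Set V)) (x : V) (hx : x ∉ W) :
    ∃ Φ : V →L[ℂ] ℂ, (∀ w ∈ W, Φ w = 0) ∧ Φ x ≠ 0 := by
  have := hW
  have hne : (Submodule.Quotient.mk x : V ⧸ W) ≠ 0 := by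
    rwa [Ne, Submodule.Quotient.mk_eq_zero]
  obtain ⟨g, -, hg⟩ := exists_dual_vector ℂ (Submodule.Quotient.mk x : V ⧸ W)
    (norm_ne_zero_iff.2 hne)
  refine ⟨g.comp W.mkQL, fun w hw => ?_, ?_⟩
  · show g (Submodule.Quotient.mk w) = 0
    rw [(Submodule.Quotient.mk_eq_zero W).2 hw, map_zero]
  · show g (Submodule.Quotient.mk x) ≠ 0
    rw [hg]
    exact RCLike.ofReal_ne_zero.2 (norm_ne_zero_iff.2 hne)

section
variable {H : Type} [NormedAddCommGroup H] [InnerProductSpace ℂ H] [CompleteSpace H]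

theorem nrm_zero : Nrm (0 : (H →L[ℂ] H) →L[ℂ] ℂ) := by
  intro ε hε
  refine ⟨0, Fin.elim0, Fin.elim0, fun T => ?_⟩
  simp only [Finset.univ_eq_empty, Finset.sum_empty, sub_zero]
  show ‖(0 : ℂ)‖ ≤ _
  rw [norm_zero]
  positivity

theorem nrm_sum {ι : Type} (hadd : ∀ θ θ' : (H →L[ℂ] H) →L[ℂ] ℂ, Nrm θ → Nrm θ' → Nrm (θ + θ'))
    (s : Finset ι) (θ : ι → ((H →L[ℂ] H) →L[ℂ] ℂ)) (h : ∀ i ∈ s, Nrm (θ i)) :
    Nrm (∑ i ∈ s, θ i) := by
  classical
  induction s using Finset.induction_on with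
  | empty => rw [Finset.sum_empty]; exact nrm_zero
  | insert a s ha ih =>
    rw [Finset.sum_insert ha]
    exact hadd _ _ (h a (Finset.mem_insert_self a s))
      (ih fun i hi => h i (Finset.mem_insert_of_mem hi))
end

section
variable {H L K' K : Type}
  [NormedAddCommGroup H] [InnerProductSpace ℂ H] [CompleteSpace H]
  [NormedAddCommGroup L] [InnerProductSpace ℂ L] [CompleteSpace L]
  [NormedAddCommGroup K'] [InnerProductSpace ℂ K'] [CompleteSpace K']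
  [NormedAddCommGroup K] [InnerProductSpace ℂ K] [CompleteSpace K]

theorem Del_apply (U : K' ≃ₗᵢ[ℂ] K) (amp : (H →L[ℂ] H) →⋆ₐ[ℂ] (K' →L[ℂ] K')) (T : H →L[ℂ] H)
    (z : K) : Del U amp T z = U (amp T (U.symm z)) := rfl

theorem Del_add (U : K' ≃ₗᵢ[ℂ] K) (amp : (H →L[ℂ] H) →⋆ₐ[ℂ] (K' →L[ℂ] K')) (T T' : H →L[ℂ] H) :
    Del U amp (T + T') = Del U amp T + Del U amp T' := by
  ext z
  rw [Del_apply, map_add, ContinuousLinearMap.add_apply, map_add, ContinuousLinearMap.add_apply,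
    Del_apply, Del_apply]

theorem Del_smul (U : K' ≃ₗᵢ[ℂ] K) (amp : (H →L[ℂ] H) →⋆ₐ[ℂ] (K' →L[ℂ] K')) (c : ℂ)
    (T : H →L[ℂ] H) : Del U amp (c • T) = c • Del U amp T := by
  ext z
  rw [Del_apply, map_smul, ContinuousLinearMap.smul_apply, map_smul,
    ContinuousLinearMap.smul_apply, Del_apply]

theorem Del_norm {r : H →ₗ[ℂ] L →ₗ[ℂ] K'} (U : K' ≃ₗᵢ[ℂ] K)
    {amp : (H →L[ℂ] H) →⋆ₐ[ℂ] (K' →L[ℂ] K')} (ha : IsAmp r amp) (T : H →L[ℂ] H) :
    ‖Del U amp T‖ ≤ ‖T‖ := by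
  refine ContinuousLinearMap.opNorm_le_bound _ (norm_nonneg _) fun z => ?_
  rw [Del_apply, LinearIsometryEquiv.norm_map]
  refine (ContinuousLinearMap.le_opNorm _ _).trans ?_
  rw [LinearIsometryEquiv.norm_map]
  exact mul_le_mul_of_nonneg_right (ha.2 T) (norm_nonneg _)

/-- `Del` as a continuous linear map -/
noncomputable def DelL {r : H →ₗ[ℂ] L →ₗ[ℂ] K'} (U : K' ≃ₗᵢ[ℂ] K)
    {amp : (H →L[ℂ] H) →⋆ₐ[ℂ] (K' →L[ℂ] K')} (ha : IsAmp r amp) :
    (H →L[ℂ] H) →L[ℂ] (K →L[ℂ] K) :=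
  LinearMap.mkContinuous
    { toFun := fun T => Del U amp T
      map_add' := Del_add U amp
      map_smul' := Del_smul U amp } 1 (fun T => by
        rw [one_mul]
        exact Del_norm U ha T)

theorem DelL_apply {r : H →ₗ[ℂ] L →ₗ[ℂ] K'} (U : K' ≃ₗᵢ[ℂ] K)
    {amp : (H →L[ℂ] H) →⋆ₐ[ℂ] (K' →L[ℂ] K')} (ha : IsAmp r amp) (T : H →L[ℂ] H) :
    DelL U ha T = Del U amp T := rfl

/-- vector coefficients of `Del` -/
noncomputable def dl {r : H →ₗ[ℂ] L →ₗ[ℂ] K'} (U : K' ≃ₗᵢ[ℂ] K)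
    {amp : (H →L[ℂ] H) →⋆ₐ[ℂ] (K' →L[ℂ] K')} (ha : IsAmp r amp) (ζ ζ' : K) :
    (H →L[ℂ] H) →L[ℂ] ℂ :=
  (innerSL ℂ ζ) ∘L (ContinuousLinearMap.apply ℂ K ζ') ∘L (DelL U ha)

theorem dl_apply {r : H →ₗ[ℂ] L →ₗ[ℂ] K'} (U : K' ≃ₗᵢ[ℂ] K)
    {amp : (H →L[ℂ] H) →⋆ₐ[ℂ] (K' →L[ℂ] K')} (ha : IsAmp r amp) (ζ ζ' : K) (T : H →L[ℂ] H) :
    dl U ha ζ ζ' T = ⟪ζ, Del U amp T ζ'⟫_ℂ := rfl

end

end WRp

open WRp in
theorem t_SWR (hS : SSLI) (hF : SSLF) (hB : SNB) (hD : SND) (hC : SCPT) : SWR := by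
  intro H L K' K _ _ _ _ _ _ _ _ _ _ _ _ t r U amp G π hG hsys μ hμ
  obtain ⟨nb1, nb2, nb3, nb4, nb5, nb6⟩ := hB H
  obtain ⟨hcs, -, hmult, -⟩ := hC H
  obtain ⟨b0, hb0, hμb0⟩ := hμ
  have ha := hsys.hamp
  have hadd : ∀ θ θ' : (H →L[ℂ] H) →L[ℂ] ℂ, Nrm θ → Nrm θ' → Nrm (θ + θ') :=
    fun θ θ' h h' => (nb4 θ θ' h h').1
  -- the slices
  have hslice : ∀ b ∈ cpt H, ∃ (ν : (H →L[ℂ] H) →L[ℂ] ℂ) (s : (H →L[ℂ] H) →L[ℂ] (H →L[ℂ] H)),
      Nrm ν ∧ (∀ X, ν X = μ (X * b)) ∧ (∀ T, ‖s T‖ ≤ ‖ν‖ * ‖T‖) ∧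
      ∀ T x x' X, IsLSlice t (Del U amp T) x x' X → ⟪x, s T x'⟫_ℂ = ν X := by
    intro b hb
    set ν : (H →L[ℂ] H) →L[ℂ] ℂ := μ ∘L (ContinuousLinearMap.mul ℂ (H →L[ℂ] H)).flip b with hν
    have hνa : ∀ X, ν X = μ (X * b) := fun X => rfl
    have hνn : Nrm ν := nb2 μ ν b hb hνa
    choose s hs1 hs2 using fun T => (hF H K t hsys.ht ν (Del U amp T)).2
    have hext : ∀ (A A' : H →L[ℂ] H), (∀ x x', ⟪x, A x'⟫_ℂ = ⟪x, A' x'⟫_ℂ) → A = A' := by
      intro A A' h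
      ext x'
      exact ext_inner_left ℂ fun x => h x x'
    have hsadd : ∀ T T', s (T + T') = s T + s T' := by
      intro T T'
      apply hext
      intro x x'
      obtain ⟨X, hX, -⟩ := (hS H K t hsys.ht (Del U amp T) x x').2
      obtain ⟨X', hX', -⟩ := (hS H K t hsys.ht (Del U amp T') x x').2
      have hXX : IsLSlice t (Del U amp (T + T')) x x' (X + X') := by
        intro u v
        rw [Del_add, ContinuousLinearMap.add_apply, ContinuousLinearMap.add_apply, inner_add_right,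
          inner_add_right, hX, hX']
      rw [ContinuousLinearMap.add_apply, inner_add_right, hs1 _ _ _ _ hXX, hs1 _ _ _ _ hX,
        hs1 _ _ _ _ hX', map_add]
    have hssmul : ∀ (c : ℂ) T, s (c • T) = c • s T := by
      intro c T
      apply hext
      intro x x'
      obtain ⟨X, hX, -⟩ := (hS H K t hsys.ht (Del U amp T) x x').2
      have hXX : IsLSlice t (Del U amp (c • T)) x x' (c • X) := by
        intro u v
        rw [Del_smul, ContinuousLinearMap.smul_apply, ContinuousLinearMap.smul_apply,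
          inner_smul_right, inner_smul_right, hX]
      rw [ContinuousLinearMap.smul_apply, inner_smul_right, hs1 _ _ _ _ hXX, hs1 _ _ _ _ hX,
        map_smul, smul_eq_mul]
    have hsn : ∀ T, ‖s T‖ ≤ ‖ν‖ * ‖T‖ := fun T =>
      (hs2 T).trans (mul_le_mul_of_nonneg_left (Del_norm U ha T) (norm_nonneg _))
    exact ⟨ν, LinearMap.mkContinuous { toFun := s, map_add' := hsadd, map_smul' := hssmul } ‖ν‖ hsn,
      hνn, hνa, hsn, hs1⟩
  intro T0 _ F hFc ε hε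
  by_contra hcon
  push Not at hcon
  set S : Set (H →L[ℂ] H) :=
    {m | m ∈ Mult (cpt H) ∧ ∃ a ∈ cpt H, ∃ b ∈ cpt H, IsStarR t (Del U amp) μ a b m} with hSdef
  -- the map `T ↦ (T c, c T)`
  set Lam : (H →L[ℂ] H) →L[ℂ] (F → (H →L[ℂ] H) × (H →L[ℂ] H)) :=
    ContinuousLinearMap.pi fun c => ((ContinuousLinearMap.mul ℂ (H →L[ℂ] H)).flip (c : H →L[ℂ] H)).prod
      ((ContinuousLinearMap.mul ℂ (H →L[ℂ] H)) (c : H →L[ℂ] H)) with hLam
  have hLam1 : ∀ T (c : F), Lam T c = (T * (c : H →L[ℂ] H), (c : H →L[ℂ] H) * T) := fun T c => rfl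
  set W := ((Submodule.span ℂ S).map Lam.toLinearMap).topologicalClosure with hW
  have hT0 : Lam T0 ∉ W := by
    intro hmem
    have h1 : Lam T0 ∈ closure (((Submodule.span ℂ S).map Lam.toLinearMap :
      Submodule ℂ (F → (H →L[ℂ] H) × (H →L[ℂ] H))) : Set (F → (H →L[ℂ] H) × (H →L[ℂ] H))) := hmem
    rw [Metric.mem_closure_iff] at h1
    obtain ⟨v, hv, hd⟩ := h1 ε hε
    obtain ⟨m, hm, rfl⟩ := hv
    obtain ⟨c, hc, hc2⟩ := hcon m hm
    have h2 : dist (Lam T0 ⟨c, hc⟩) (Lam m ⟨c, hc⟩) < ε :=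
      lt_of_le_of_lt (dist_le_pi_dist (Lam T0) (Lam m) ⟨c, hc⟩) hd
    rw [dist_eq_norm, hLam1, hLam1, Prod.mk_sub_mk, ← sub_mul, ← mul_sub, Prod.norm_def] at h2
    have h3 := (le_max_left _ _).trans_lt h2
    have h4 := (le_max_right _ _).trans_lt h2
    exact absurd h4 (not_lt.2 (hc2 h3))
  obtain ⟨Φ, hΦ0, hΦ1⟩ := hb W (Submodule.isClosed_topologicalClosure _) _ hT0
  set θ : (H →L[ℂ] H) →L[ℂ] ℂ := Φ ∘L Lam with hθ
  have hθS : ∀ m ∈ S, θ m = 0 := fun m hm => hΦ0 _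
    (Submodule.le_topologicalClosure _ ⟨m, Submodule.subset_span hm, rfl⟩)
  -- `θ` is normal
  have hθn : Nrm θ := by
    classical
    set φ1 : F → ((H →L[ℂ] H) →L[ℂ] ℂ) := fun c => Φ ∘L
      (ContinuousLinearMap.single ℂ (fun _ : F => (H →L[ℂ] H) × (H →L[ℂ] H)) c) ∘L
        (ContinuousLinearMap.inl ℂ (H →L[ℂ] H) (H →L[ℂ] H)) with hφ1
    set φ2 : F → ((H →L[ℂ] H) →L[ℂ] ℂ) := fun c => Φ ∘L
      (ContinuousLinearMap.single ℂ (fun _ : F => (H →L[ℂ] H) × (H →L[ℂ] H)) c) ∘L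
        (ContinuousLinearMap.inr ℂ (H →L[ℂ] H) (H →L[ℂ] H)) with hφ2
    set θ1 : F → ((H →L[ℂ] H) →L[ℂ] ℂ) := fun c =>
      φ1 c ∘L (ContinuousLinearMap.mul ℂ (H →L[ℂ] H)).flip (c : H →L[ℂ] H) with hθ1
    set θ2 : F → ((H →L[ℂ] H) →L[ℂ] ℂ) := fun c =>
      φ2 c ∘L (ContinuousLinearMap.mul ℂ (H →L[ℂ] H)) (c : H →L[ℂ] H) with hθ2
    have n1 : ∀ c, Nrm (θ1 c) := fun c => nb2 (φ1 c) (θ1 c) c (hFc c c.2) fun T => rfl
    have n2 : ∀ c, Nrm (θ2 c) := fun c => nb3 (φ2 c) (θ2 c) c (hFc c c.2) fun T => rfl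
    have e : θ = ∑ c : F, (θ1 c + θ2 c) := by
      ext T
      rw [ContinuousLinearMap.sum_apply]
      have e1 : Lam T = ∑ c : F, Pi.single c (Lam T c) := (Finset.univ_sum_single (Lam T)).symm
      show Φ (Lam T) = _
      rw [e1, map_sum]
      refine Finset.sum_congr rfl fun c _ => ?_
      rw [hLam1]
      show _ = Φ (Pi.single c (T * (c : H →L[ℂ] H), 0)) + Φ (Pi.single c (0, (c : H →L[ℂ] H) * T))
      rw [← map_add, ← Pi.single_add]
      simp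
    rw [e]
    exact nrm_sum hadd _ _ fun c _ => hadd _ _ (n1 c) (n2 c)
  -- `θ` vanishes on the unitaries
  have hθπ : ∀ g, θ (π g) = 0 := by
    intro g
    have hmul : ∀ A : H →L[ℂ] H, A * b0 ∈ cpt H := by
      intro A
      have : A ∈ Mult (cpt H) := by rw [hmult]; trivial
      exact (this b0 hb0).1
    set b : H →L[ℂ] H := star (π g) * b0 with hbdef
    have hbc : b ∈ cpt H := hmul _
    obtain ⟨ν, s, hνn, hνa, hsn, hs⟩ := hslice b hbc
    set f : (H →L[ℂ] H) →L[ℂ] ℂ := θ ∘L s with hf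
    -- the vector coefficients of `s` are normal
    have hvec : ∀ x y : H, Nrm ((innerSL ℂ x) ∘L (ContinuousLinearMap.apply ℂ H y) ∘L s) := by
      intro x y
      apply nb6
      intro ε' hε'
      set δ : ℝ := ε' / (‖x‖ * ‖y‖ + 1) with hδ
      have hxy : 0 < ‖x‖ * ‖y‖ + 1 := by positivity
      have hδ0 : 0 < δ := by positivity
      obtain ⟨n, ξ, η, hξ⟩ := hνn δ hδ0
      refine ⟨∑ i, dl U ha (t x (ξ i)) (t y (η i)), ?_, ?_⟩
      · exact nrm_sum hadd _ _ fun i _ => hD H L K' K r U amp hsys.hr ha _ _ _ fun T => rfl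
      · refine ContinuousLinearMap.opNorm_le_bound _ hε'.le fun T => ?_
        obtain ⟨X, hX, hXn⟩ := (hS H K t hsys.ht (Del U amp T) x y).2
        have e1 : ((innerSL ℂ x) ∘L (ContinuousLinearMap.apply ℂ H y) ∘L s) T = ν X :=
          hs T x y X hX
        have e2 : (∑ i, dl U ha (t x (ξ i)) (t y (η i))) T = ∑ i, ⟪ξ i, X (η i)⟫_ℂ := by
          rw [ContinuousLinearMap.sum_apply]
          refine Finset.sum_congr rfl fun i _ => ?_
          rw [dl_apply]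
          exact (hX (ξ i) (η i)).symm
        rw [ContinuousLinearMap.sub_apply, e1, e2]
        refine (hξ X).trans ?_
        have k1 : ‖X‖ ≤ ‖T‖ * (‖x‖ * ‖y‖) := by
          refine hXn.trans ?_
          rw [mul_assoc]
          exact mul_le_mul_of_nonneg_right (Del_norm U ha T) (by positivity)
        have k2 : δ * ‖X‖ ≤ δ * (‖T‖ * (‖x‖ * ‖y‖)) := mul_le_mul_of_nonneg_left k1 hδ0.le
        refine k2.trans ?_
        have k3 : δ * (‖x‖ * ‖y‖ + 1) = ε' := by rw [hδ]; field_simp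
        have k4 : 0 ≤ ‖T‖ * δ := by positivity
        nlinarith
    have hfn : Nrm f := by
      apply nb6
      intro ε' hε'
      set δ : ℝ := ε' / (‖ν‖ + 1) with hδ
      have hν1 : 0 < ‖ν‖ + 1 := by positivity
      have hδ0 : 0 < δ := by positivity
      obtain ⟨n, ξ, η, hξ⟩ := hθn δ hδ0
      refine ⟨∑ i, (innerSL ℂ (ξ i)) ∘L (ContinuousLinearMap.apply ℂ H (η i)) ∘L s, ?_, ?_⟩
      · exact nrm_sum hadd _ _ fun i _ => hvec _ _
      · refine ContinuousLinearMap.opNorm_le_bound _ hε'.le fun T => ?_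
        rw [ContinuousLinearMap.sub_apply, ContinuousLinearMap.sum_apply]
        have k0 := hξ (s T)
        have k1 : δ * ‖s T‖ ≤ δ * (‖ν‖ * ‖T‖) := mul_le_mul_of_nonneg_left (hsn T) hδ0.le
        have k3 : δ * (‖ν‖ + 1) = ε' := by rw [hδ]; field_simp
        have k4 : 0 ≤ ‖T‖ * δ := by positivity
        have k5 : δ * (‖ν‖ * ‖T‖) ≤ ε' * ‖T‖ := by nlinarith
        exact (k0.trans k1).trans k5
    have hf0 : f = 0 := by
      apply nb1 f hfn
      intro a hac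
      apply hθS
      refine ⟨by rw [hmult]; trivial, a, hac, b, hbc, ?_⟩
      intro x x' X hX
      exact (hs a x x' X hX).trans (hνa X)
    -- evaluate at `π g`
    have hsg : s (π g) = μ b0 • π g := by
      ext x'
      refine ext_inner_left ℂ fun x => ?_
      have hX : IsLSlice t (Del U amp (π g)) x x' (⟪x, π g x'⟫_ℂ • π g) := by
        intro u v
        rw [hsys.tw, hsys.ht.inner, ContinuousLinearMap.smul_apply, inner_smul_right]
      rw [hs _ _ _ _ hX, ContinuousLinearMap.smul_apply, inner_smul_right, map_smul, hνa, hbdef,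
        ← mul_assoc, (hsys.uni g).2, one_mul, smul_eq_mul, mul_comm]
    have h1 : f (π g) = μ b0 * θ (π g) := by
      show θ (s (π g)) = _
      rw [hsg, map_smul, smul_eq_mul]
    rw [hf0] at h1
    have h2 : μ b0 * θ (π g) = 0 := h1.symm
    exact (mul_eq_zero.1 h2).resolve_left hμb0
  have h0 := hsys.tot θ hθn hθπ
  apply hΦ1
  show θ T0 = 0
  rw [h0]
  rfl

end Pool.Agent.R283.QS
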